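import Pool.Agent.V1161.CM.L2

set_option autoImplicit false

/-!
# All correlations on average along sequences
-/

namespace Pool.Agent.V1161.CM

open MeasureTheory Filter Topology
open Pool.Agent.TH850.UV (NS mS mS_nonneg NS_nonneg NS_mono NS_le)
open Pool.Agent.V11270.KC (Z0 mem_Z0 Z0_mono Nice V V_nonneg nice_V mom_kap)

/-- the counts in windows of `w` mean spacings -/
noncomputable def nn (T w t : ℝ) : ℝ := NS (Z0 T) (w * dl T) t

lemma nn_nice (T w : ℝ) : Nice (nn T w) := NS_nice _ _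

lemma nn_nonneg (T w t : ℝ) : 0 ≤ nn T w t := NS_nonneg _ _ _

lemma NS_le_V (S : Finset ℂ) {h : ℝ} (hh : 0 < h) (t : ℝ) : NS S h t ≤ V S h (t + h / 2) := by
  classical
  unfold NS V
  rw [Finset.sum_filter]
  refine Finset.sum_le_sum fun s _ => ?_
  have h0 := mS_nonneg s
  by_cases h1 : t < s.im ∧ s.im ≤ t + h
  · rw [if_pos h1, mul_one, if_pos]
    · exact le_rfl
    · rw [abs_lt]
      constructor <;> linarith [h1.1, h1.2]
  · rw [if_neg h1, mul_zero]
    split_ifs
    · exact h0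
    · exact le_rfl

/-- moments -/
lemma nn_moment (w : ℝ) (hw : 0 < w) (q : ℕ) (hq : 1 ≤ q) : ∃ C T0 : ℝ, 0 < C ∧ 10 ≤ T0 ∧
    ∀ T : ℝ, T0 ≤ T → ∫ t, nn T w t ^ q ≤ C * T := by
  have hpi := Real.pi_pos
  obtain ⟨C, T0, hC, hT0, h⟩ := mom_kap q hq (2 * Real.pi * w) (by positivity)
  refine ⟨C, T0, hC, hT0, fun T hT => ?_⟩
  have hT10 : 10 ≤ T := hT0.trans hT
  have hd := dl_pos hT10
  have e1 : 2 * Real.pi * w / Real.log T = w * dl T := by unfold dl; ring
  have h1 := h T hT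
  rw [e1] at h1
  have hwd : 0 < w * dl T := by positivity
  have h2 := integral_add_right_eq_self (fun t => V (Z0 T) (w * dl T) t ^ q) (w * dl T / 2)
    (μ := volume)
  rw [← h2] at h1
  refine le_trans ?_ h1
  refine integral_mono (((nn_nice T w).pow hq).integrable)
    ((((nice_V (Z0 T) (w * dl T)).comp (w * dl T / 2)).pow hq).integrable) fun t => ?_
  exact pow_le_pow_left₀ (nn_nonneg _ _ _) (NS_le_V _ hwd t) q

/-- the averages along a sequence -/
noncomputable def AV (T w : ℝ) (b : ℕ → ℝ) (M : ℕ) (t : ℝ) : ℝ :=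
  1 / (M : ℝ) * ∑ m ∈ Finset.range M, nn T w (t + b m * dl T)

lemma AV_nice (T w : ℝ) (b : ℕ → ℝ) (M : ℕ) : Nice (AV T w b M) :=
  const_nice (Nice.sum (Finset.range M) (fun m t => nn T w (t + b m * dl T))
    fun m _ => (nn_nice T w).comp _) _

lemma AV_nonneg (T w : ℝ) (b : ℕ → ℝ) (M : ℕ) (t : ℝ) : 0 ≤ AV T w b M t := by
  unfold AV
  have : 0 ≤ ∑ m ∈ Finset.range M, nn T w (t + b m * dl T) :=
    Finset.sum_nonneg fun m _ => nn_nonneg _ _ _
  positivity

lemma AV_moment (w : ℝ) (hw : 0 < w) (q : ℕ) (hq : 1 ≤ q) : ∃ C T0 : ℝ, 0 < C ∧ 10 ≤ T0 ∧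
    ∀ T : ℝ, T0 ≤ T → ∀ (b : ℕ → ℝ) (M : ℕ), 1 ≤ M → ∫ t, AV T w b M t ^ q ≤ C * T := by
  obtain ⟨C, T0, hC, hT0, h⟩ := nn_moment w hw q hq
  refine ⟨C, T0, hC, hT0, fun T hT b M hM => ?_⟩
  have hMr : (0 : ℝ) < M := by exact_mod_cast hM
  have h1 : ∀ t, AV T w b M t ^ q ≤ ∑ m ∈ Finset.range M,
      1 / (M : ℝ) * nn T w (t + b m * dl T) ^ q := by
    intro t
    unfold AV
    rw [Finset.mul_sum]
    refine Real.pow_arith_mean_le_arith_mean_pow (Finset.range M) (fun _ => 1 / (M : ℝ))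
      (fun m => nn T w (t + b m * dl T)) (fun _ _ => by positivity) ?_
      (fun _ _ => nn_nonneg _ _ _) q
    rw [Finset.sum_const, Finset.card_range, nsmul_eq_mul]
    field_simp
  have hi : ∀ m, Integrable fun t => 1 / (M : ℝ) * nn T w (t + b m * dl T) ^ q := fun m =>
    ((((nn_nice T w).comp (b m * dl T)).pow hq).integrable).const_mul _
  have h2 := integral_mono (((AV_nice T w b M).pow hq).integrable)
    (integrable_finsetSum (Finset.range M) fun m _ => hi m) h1
  refine h2.trans ?_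
  rw [integral_finsetSum _ fun m _ => hi m]
  have h3 : ∀ m ∈ Finset.range M, ∫ t, 1 / (M : ℝ) * nn T w (t + b m * dl T) ^ q ≤
      1 / (M : ℝ) * (C * T) := by
    intro m _
    rw [integral_const_mul]
    refine mul_le_mul_of_nonneg_left ?_ (by positivity)
    have h4 := integral_add_right_eq_self (fun t => nn T w t ^ q) (b m * dl T) (μ := volume)
    rw [h4]
    exact h T hT
  refine (Finset.sum_le_sum h3).trans (le_of_eq ?_)
  rw [Finset.sum_const, Finset.card_range, nsmul_eq_mul]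
  field_simp

/-- the averages are close to their mean -/
lemma AV_close (w : ℝ) (hw : 0 < w) (b : ℕ → ℝ) (hb : Hexp b) (ε : ℝ) (hε : 0 < ε) :
    ∃ M₀ : ℕ, 1 ≤ M₀ ∧ ∀ M : ℕ, M₀ ≤ M → ∃ T₀ : ℝ, 10 ≤ T₀ ∧ ∀ T : ℝ, T₀ ≤ T →
      (∫ t, ii T t * (AV T w b M t - w) ^ 2) ≤ ε * T := by
  obtain ⟨M0, T1, hM0, hT1, h⟩ := mean_erg w hw b hb (ε / 4) (by positivity)
  refine ⟨M0, hM0, fun M hM => ?_⟩
  have hM1 : 1 ≤ M := hM0.trans hM
  have hMr : (0 : ℝ) < M := by exact_mod_cast hM1
  obtain ⟨K, hK, T2, hT2, hbas⟩ := basic w hw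
  obtain ⟨L, hL⟩ : ∃ L : ℝ, L = ∑ m ∈ Finset.range M, |b m| := ⟨_, rfl⟩
  have hbL : ∀ m ∈ Finset.range M, |b m| ≤ L := fun m hm => by
    rw [hL]
    exact Finset.single_le_sum (f := fun m => |b m|) (fun i _ => abs_nonneg _) hm
  have hL0 : 0 ≤ L := by rw [hL]; exact Finset.sum_nonneg fun _ _ => abs_nonneg _
  refine ⟨max (max T1 T2) (16 * w ^ 2 * L / ε), (hT1.trans (le_max_left _ _)).trans
    (le_max_left _ _), fun T hT => ?_⟩
  have g1 := h M hM T (((le_max_left _ _).trans (le_max_left _ _)).trans hT)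
  obtain ⟨g2, _, _⟩ := hbas T (((le_max_right _ _).trans (le_max_left _ _)).trans hT)
  have g3 : 16 * w ^ 2 * L / ε ≤ T := (le_max_right _ _).trans hT
  rw [div_le_iff₀ hε] at g3
  have hT10 : 10 ≤ T := hT1.trans (((le_max_left _ _).trans (le_max_left _ _)).trans hT)
  have hd := dl_pos hT10
  obtain ⟨E, hE⟩ : ∃ E : ℝ → ℝ, E = fun t => 1 / (M : ℝ) * ∑ m ∈ Finset.range M,
    ff T w (t + b m * dl T) := ⟨_, rfl⟩
  obtain ⟨H, hH⟩ : ∃ H : ℝ → ℝ, H = fun t => 1 / (M : ℝ) * ∑ m ∈ Finset.range M,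
    (ii T (t + b m * dl T) + (-1) * ii T t) := ⟨_, rfl⟩
  have hEn : Nice E := by
    rw [hE]
    exact const_nice (Nice.sum (Finset.range M) (fun m t => ff T w (t + b m * dl T))
      fun m _ => (ff_nice T w).comp _) _
  have hHn : Nice H := by
    rw [hH]
    exact const_nice (Nice.sum (Finset.range M) (fun m t => ii T (t + b m * dl T) +
      (-1) * ii T t) fun m _ => ((ii_nice T).comp _).add (const_nice (ii_nice T) _)) _
  have iE : Integrable fun t => E t ^ 2 := (hEn.pow (by norm_num : 1 ≤ 2)).integrable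
  have iH : Integrable fun t => H t ^ 2 := (hHn.pow (by norm_num : 1 ≤ 2)).integrable
  have hpt : ∀ t, ii T t * (AV T w b M t - w) ^ 2 ≤ 2 * E t ^ 2 + 2 * w ^ 2 * H t ^ 2 := by
    intro t
    by_cases ht : t ∈ Set.Ioc 0 T
    · have h1 : ii T t = 1 := by unfold ii; rw [Set.indicator_of_mem ht]
      have h2 : AV T w b M t - w = E t + w * H t := by
        unfold AV
        rw [hE, hH]
        simp only
        rw [h1]
        have e1 : ∑ m ∈ Finset.range M, (ii T (t + b m * dl T) + (-1) * (1 : ℝ)) =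
            (∑ m ∈ Finset.range M, ii T (t + b m * dl T)) - M := by
          rw [Finset.sum_add_distrib, Finset.sum_const, Finset.card_range, nsmul_eq_mul]
          ring
        have e2 : ∑ m ∈ Finset.range M, ff T w (t + b m * dl T) =
            (∑ m ∈ Finset.range M, nn T w (t + b m * dl T)) -
              w * ∑ m ∈ Finset.range M, ii T (t + b m * dl T) := by
          unfold ff nn
          rw [Finset.sum_add_distrib, ← Finset.mul_sum]
          ring
        rw [e1, e2]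
        obtain ⟨S1, hS1⟩ : ∃ S1 : ℝ, S1 = ∑ m ∈ Finset.range M, nn T w (t + b m * dl T) := ⟨_, rfl⟩
        obtain ⟨S2, hS2⟩ : ∃ S2 : ℝ, S2 = ∑ m ∈ Finset.range M, ii T (t + b m * dl T) := ⟨_, rfl⟩
        rw [← hS1, ← hS2]
        field_simp
        ring
      rw [h1, h2, one_mul]
      nlinarith [sq_nonneg (E t - w * H t)]
    · have h1 : ii T t = 0 := by unfold ii; rw [Set.indicator_of_notMem ht]
      rw [h1, zero_mul]
      positivity
  have hH2 : ∫ t, H t ^ 2 ≤ 4 * L := by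
    have hi : ∀ m, Integrable fun t => (ii T (t + b m * dl T) + (-1) * ii T t) ^ 2 := fun m =>
      ((((ii_nice T).comp _).add (const_nice (ii_nice T) _)).pow (by norm_num : 1 ≤ 2)).integrable
    have h1 : ∀ t, H t ^ 2 ≤ 1 / (M : ℝ) * ∑ m ∈ Finset.range M,
        (ii T (t + b m * dl T) + (-1) * ii T t) ^ 2 := by
      intro t
      rw [hH]
      simp only
      have h3 := sq_sum_le_card_mul_sum_sq (s := Finset.range M)
        (f := fun m => ii T (t + b m * dl T) + (-1) * ii T t)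
      rw [Finset.card_range] at h3
      rw [mul_pow]
      have h4 := mul_le_mul_of_nonneg_left h3 (show 0 ≤ (1 / (M : ℝ)) ^ 2 by positivity)
      obtain ⟨Z, hZ⟩ : ∃ Z : ℝ, Z = ∑ m ∈ Finset.range M,
        (ii T (t + b m * dl T) + (-1) * ii T t) ^ 2 := ⟨_, rfl⟩
      rw [← hZ] at h4 ⊢
      refine h4.trans (le_of_eq ?_)
      field_simp
    have h2 := integral_mono iH
      ((integrable_finsetSum (Finset.range M) fun m _ => hi m).const_mul (1 / (M : ℝ))) h1
    refine h2.trans ?_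
    rw [integral_const_mul, integral_finsetSum _ fun m _ => hi m]
    have h3 : ∀ m ∈ Finset.range M, ∫ t, (ii T (t + b m * dl T) + (-1) * ii T t) ^ 2 ≤ 4 * L := by
      intro m hm
      have h4 := ii_shift T (b m * dl T)
      have e : ∫ t, (ii T (t + b m * dl T) + (-1) * ii T t) ^ 2 =
          ∫ t, (ii T (t + b m * dl T) - ii T t) ^ 2 := by
        refine integral_congr_ae (Eventually.of_forall fun t => ?_)
        show (ii T (t + b m * dl T) + (-1) * ii T t) ^ 2 = (ii T (t + b m * dl T) - ii T t) ^ 2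
        ring
      rw [e]
      refine h4.trans ?_
      rw [abs_mul, abs_of_pos hd]
      have h5 : |b m| * dl T ≤ L * 1 := mul_le_mul (hbL m hm) g2 hd.le hL0
      linarith
    have h4 := Finset.sum_le_sum h3
    rw [Finset.sum_const, Finset.card_range, nsmul_eq_mul] at h4
    rw [one_div, inv_mul_eq_div, div_le_iff₀ hMr]
    linarith
  have h2 := integral_mono_of_nonneg (μ := volume) (Eventually.of_forall fun t =>
    mul_nonneg (show 0 ≤ ii T t by
      unfold ii; exact Set.indicator_nonneg (fun _ _ => zero_le_one) _)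
    (sq_nonneg (AV T w b M t - w))) ((iE.const_mul 2).add (iH.const_mul (2 * w ^ 2)))
    (Eventually.of_forall hpt)
  refine h2.trans ?_
  have e : ∫ t, ((fun t => 2 * E t ^ 2) + (fun t => 2 * w ^ 2 * H t ^ 2) : ℝ → ℝ) t =
      2 * (∫ t, E t ^ 2) + 2 * w ^ 2 * ∫ t, H t ^ 2 := by
    show ∫ t, (2 * E t ^ 2 + 2 * w ^ 2 * H t ^ 2) = _
    rw [integral_add (iE.const_mul 2) (iH.const_mul _), integral_const_mul, integral_const_mul]
  refine (le_of_eq e).trans ?_
  have hE2 : ∫ t, E t ^ 2 ≤ ε / 4 * T := by rw [hE]; exact g1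
  have h3 := mul_le_mul_of_nonneg_left hH2 (show 0 ≤ 2 * w ^ 2 by positivity)
  linarith

lemma prod_sq_le {ι : Type} (s : Finset ι) (x : ι → ℝ) (hx : ∀ i ∈ s, 0 ≤ x i) (N : ℕ)
    (hN : s.card ≤ N) : (∏ i ∈ s, x i) ^ 2 ≤ 1 + ∑ i ∈ s, x i ^ (2 * N) := by
  classical
  rcases s.eq_empty_or_nonempty with h | h
  · rw [h]
    simp
  · obtain ⟨i₀, hi₀, hmax⟩ := s.exists_max_image x h
    have h0 := hx i₀ hi₀
    have h1 : ∏ i ∈ s, x i ≤ x i₀ ^ s.card := by
      rw [← Finset.prod_const]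
      exact Finset.prod_le_prod hx hmax
    have h2 : 0 ≤ ∏ i ∈ s, x i := Finset.prod_nonneg hx
    have h3 : (∏ i ∈ s, x i) ^ 2 ≤ (x i₀ ^ s.card) ^ 2 := pow_le_pow_left₀ h2 h1 2
    have h4 : (x i₀ ^ s.card) ^ 2 ≤ 1 + x i₀ ^ (2 * N) := by
      rw [← pow_mul, mul_comm s.card]
      rcases le_total (x i₀) 1 with h5 | h5
      · have := pow_le_one₀ (n := 2 * s.card) h0 h5
        have := pow_nonneg h0 (2 * N)
        linarith
      · have := pow_le_pow_right₀ h5 (show 2 * s.card ≤ 2 * N by omega)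
        linarith
    have h5 : x i₀ ^ (2 * N) ≤ ∑ i ∈ s, x i ^ (2 * N) :=
      Finset.single_le_sum (f := fun i => x i ^ (2 * N)) (fun i hi => pow_nonneg (hx i hi) _) hi₀
    linarith

lemma ii_nonneg (T t : ℝ) : 0 ≤ ii T t := by
  unfold ii
  exact Set.indicator_nonneg (fun _ _ => zero_le_one) _

lemma ii_le (T t : ℝ) : ii T t ≤ 1 := by
  unfold ii
  by_cases h : t ∈ Set.Ioc 0 T
  · rw [Set.indicator_of_mem h]
  · rw [Set.indicator_of_notMem h]
    norm_num

lemma one_nice_prod {ι : Type} (T : ℝ) (s : Finset ι) (g : ι → ℝ → ℝ)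
    (h : ∀ i ∈ s, Nice (g i)) : Nice fun t => ii T t * ∏ i ∈ s, g i t := by
  classical
  induction s using Finset.induction_on with
  | empty =>
    simp only [Finset.prod_empty, mul_one]
    exact ii_nice T
  | insert a s ha ih =>
    have h1 := (ih fun i hi => h i (Finset.mem_insert_of_mem hi)).mul
      (h a (Finset.mem_insert_self _ _))
    have e : (fun t => ii T t * ∏ i ∈ insert a s, g i t) =
        fun t => (ii T t * ∏ i ∈ s, g i t) * g a t := by
      funext t
      rw [Finset.prod_insert ha]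
      ring
    rw [e]
    exact h1

/-- the fixed pattern -/
noncomputable def PT {j : ℕ} (lam a : Fin j → ℝ) (T t : ℝ) : ℝ :=
  ∏ l, nn T (lam l) (t + a l * dl T)

/-- **correlations on average** -/
theorem corr_avg {j : ℕ} (lam a : Fin j → ℝ) (hlam : ∀ l, 0 < lam l) : ∀ (k : ℕ)
    (κ : Fin k → ℝ) (b : Fin k → ℕ → ℝ), (∀ i, 0 < κ i) → (∀ i, Hexp (b i)) → ∀ ε : ℝ, 0 < ε →
    ∃ M₀ : ℕ, 1 ≤ M₀ ∧ ∀ M : ℕ, M₀ ≤ M → ∃ T₀ : ℝ, 10 ≤ T₀ ∧ ∀ T : ℝ, T₀ ≤ T →
      ∀ F : ℝ → ℝ, Nice F → (∀ t, 0 ≤ F t) → (∀ t, F t ≤ PT lam a T t) →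
      |(∫ t, ii T t * (F t * ∏ i, AV T (κ i) (b i) M t)) -
        (∏ i, κ i) * ∫ t, ii T t * F t| ≤ ε * T := by
  intro k
  induction k with
  | zero =>
    intro κ b _ _ ε hε
    refine ⟨1, le_rfl, fun M _ => ⟨10, le_rfl, fun T hT F _ _ _ => ?_⟩⟩
    simp only [Finset.univ_eq_empty, Finset.prod_empty, mul_one, one_mul, sub_self, abs_zero]
    have : 0 < T := by linarith
    positivity
  | succ k ih =>
    intro κ b hκ hb ε hε
    -- the bound for the product
    have hN : 1 ≤ 2 * (j + k + 1) := by omega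
    choose C1 T1 hC1 hT1 h1 using fun l => nn_moment (lam l) (hlam l) (2 * (j + k + 1)) hN
    choose C2 T2 hC2 hT2 h2 using fun i : Fin k => AV_moment (κ i.castSucc) (hκ _)
      (2 * (j + k + 1)) hN
    obtain ⟨C, hC⟩ : ∃ C : ℝ, C = 1 + ∑ l, C1 l + ∑ i, C2 i := ⟨_, rfl⟩
    have hC0 : 1 ≤ C := by
      rw [hC]
      have g1 : 0 ≤ ∑ l, C1 l := Finset.sum_nonneg fun l _ => (hC1 l).le
      have g2 : 0 ≤ ∑ i, C2 i := Finset.sum_nonneg fun i _ => (hC2 i).le
      linarith
    obtain ⟨μ, hμ⟩ : ∃ μ : ℝ, μ = ε / (4 * C) := ⟨_, rfl⟩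
    have hμ0 : 0 < μ := by rw [hμ]; positivity
    obtain ⟨κl, hκl⟩ : ∃ κl : ℝ, κl = κ (Fin.last k) := ⟨_, rfl⟩
    have hκl0 : 0 < κl := by rw [hκl]; exact hκ _
    obtain ⟨M1, hM1, hih⟩ := ih (fun i => κ i.castSucc) (fun i => b i.castSucc)
      (fun i => hκ _) (fun i => hb _) (ε / (2 * κl)) (by positivity)
    obtain ⟨M2, hM2, hcl⟩ := AV_close κl hκl0 (b (Fin.last k)) (hb _) (ε / 4 * μ) (by positivity)
    refine ⟨max M1 M2, hM1.trans (le_max_left _ _), fun M hM => ?_⟩
    obtain ⟨T3, hT3, h3⟩ := hih M ((le_max_left _ _).trans hM)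
    obtain ⟨T4, hT4, h4⟩ := hcl M ((le_max_right _ _).trans hM)
    have hMM : 1 ≤ M := hM1.trans ((le_max_left _ _).trans hM)
    obtain ⟨T5, hT5⟩ : ∃ T5 : ℝ, T5 = (∑ l, |T1 l|) + ∑ i, |T2 i| := ⟨_, rfl⟩
    refine ⟨max (max T3 T4) T5, (hT3.trans (le_max_left _ _)).trans (le_max_left _ _),
      fun T hT F hFn hF0 hFP => ?_⟩
    have g3 := h3 T (((le_max_left _ _).trans (le_max_left _ _)).trans hT) F hFn hF0 hFP
    have g4 := h4 T (((le_max_right _ _).trans (le_max_left _ _)).trans hT)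
    have g5 : T5 ≤ T := (le_max_right _ _).trans hT
    have hT10 : 10 ≤ T := hT3.trans (((le_max_left _ _).trans (le_max_left _ _)).trans hT)
    have hT0 : 0 < T := by linarith
    have gT1 : ∀ l, T1 l ≤ T := by
      intro l
      have q1 : |T1 l| ≤ ∑ l, |T1 l| :=
        Finset.single_le_sum (f := fun l => |T1 l|) (fun _ _ => abs_nonneg _) (Finset.mem_univ l)
      have q2 : 0 ≤ ∑ i, |T2 i| := Finset.sum_nonneg fun _ _ => abs_nonneg _
      have q3 := le_abs_self (T1 l)
      rw [hT5] at g5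
      linarith
    have gT2 : ∀ i, T2 i ≤ T := by
      intro i
      have q1 : |T2 i| ≤ ∑ i, |T2 i| :=
        Finset.single_le_sum (f := fun i => |T2 i|) (fun _ _ => abs_nonneg _) (Finset.mem_univ i)
      have q2 : 0 ≤ ∑ l, |T1 l| := Finset.sum_nonneg fun _ _ => abs_nonneg _
      have q3 := le_abs_self (T2 i)
      rw [hT5] at g5
      linarith
    -- the functions
    obtain ⟨g, hg⟩ : ∃ g : (Fin j ⊕ Fin k) → ℝ → ℝ, g = Sum.elim
      (fun l t => nn T (lam l) (t + a l * dl T))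
      (fun i t => AV T (κ i.castSucc) (b i.castSucc) M t) := ⟨_, rfl⟩
    have hgn : ∀ x, Nice (g x) := by
      intro x
      rw [hg]
      rcases x with l | i
      · exact (nn_nice T (lam l)).comp _
      · exact AV_nice _ _ _ _
    have hg0 : ∀ x t, 0 ≤ g x t := by
      intro x t
      rw [hg]
      rcases x with l | i
      · exact nn_nonneg _ _ _
      · exact AV_nonneg _ _ _ _ _
    obtain ⟨W, hW⟩ : ∃ W : ℝ → ℝ, W = fun t => F t *
      ∏ i : Fin k, AV T (κ i.castSucc) (b i.castSucc) M t := ⟨_, rfl⟩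
    have hWg : ∀ t, 0 ≤ W t ∧ W t ≤ ∏ x, g x t := by
      intro t
      have q0 : 0 ≤ ∏ i : Fin k, AV T (κ i.castSucc) (b i.castSucc) M t :=
        Finset.prod_nonneg fun i _ => AV_nonneg _ _ _ _ _
      rw [hW, hg, Fintype.prod_sum_type]
      exact ⟨mul_nonneg (hF0 t) q0, mul_le_mul_of_nonneg_right (hFP t) q0⟩
    have hWn : Nice fun t => ii T t * W t := by
      have := (one_nice_prod T (Finset.univ : Finset (Fin k))
        (fun i t => AV T (κ i.castSucc) (b i.castSucc) M t) fun i _ => AV_nice _ _ _ _).mul hFn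
      have e : (fun t => ii T t * W t) = fun t => (ii T t *
          ∏ i : Fin k, AV T (κ i.castSucc) (b i.castSucc) M t) * F t := by
        funext t
        rw [hW]
        ring
      rw [e]
      exact this
    obtain ⟨A, hA⟩ : ∃ A : ℝ → ℝ, A = AV T κl (b (Fin.last k)) M := ⟨_, rfl⟩
    have hAn : Nice A := by rw [hA]; exact AV_nice _ _ _ _
    rw [← hA] at g4
    -- second moment of the product
    have hgq : ∀ x, ∫ t, g x t ^ (2 * (j + k + 1)) ≤
        Sum.elim C1 C2 x * T := by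
      intro x
      rw [hg]
      rcases x with l | i
      · simp only [Sum.elim_inl]
        have q := integral_add_right_eq_self (fun t => nn T (lam l) t ^ (2 * (j + k + 1)))
          (a l * dl T) (μ := volume)
        rw [q]
        exact h1 l T (gT1 l)
      · simp only [Sum.elim_inr]
        exact h2 i T (gT2 i) _ M hMM
    have iq : ∀ x, Integrable fun t => g x t ^ (2 * (j + k + 1)) := fun x =>
      ((hgn x).pow hN).integrable
    have hW2 : ∫ t, (ii T t * W t) ^ 2 ≤ C * T := by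
      have q1 : ∀ t, (ii T t * W t) ^ 2 ≤ ii T t ^ 2 + ∑ x, g x t ^ (2 * (j + k + 1)) := by
        intro t
        have q2 := prod_sq_le Finset.univ (fun x => g x t) (fun x _ => hg0 x t) (j + k + 1)
          (by rw [Finset.card_univ, Fintype.card_sum, Fintype.card_fin, Fintype.card_fin]; omega)
        have q8 : W t ^ 2 ≤ (∏ x, g x t) ^ 2 := pow_le_pow_left₀ (hWg t).1 (hWg t).2 2
        replace q2 := q8.trans q2
        rw [mul_pow]
        have q3 : 0 ≤ ii T t ^ 2 := sq_nonneg _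
        have q4 : ii T t ^ 2 ≤ 1 := pow_le_one₀ (ii_nonneg T t) (ii_le T t)
        have q5 : 0 ≤ ∑ x, g x t ^ (2 * (j + k + 1)) :=
          Finset.sum_nonneg fun x _ => pow_nonneg (hg0 x t) _
        have q6 := mul_le_mul_of_nonneg_left q2 q3
        have q7 : ii T t ^ 2 * ∑ x, g x t ^ (2 * (j + k + 1)) ≤
            1 * ∑ x, g x t ^ (2 * (j + k + 1)) := mul_le_mul_of_nonneg_right q4 q5
        linarith
      have iI := ((ii_nice T).pow (by norm_num : 1 ≤ 2)).integrable
      have iS := integrable_finsetSum (Finset.univ : Finset (Fin j ⊕ Fin k)) fun x _ => iq x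
      have q2 := integral_mono ((hWn.pow (by norm_num : 1 ≤ 2)).integrable) (iI.add iS) q1
      refine q2.trans ?_
      have e : ∫ t, ((fun t => ii T t ^ 2) + (fun t => ∑ x, g x t ^ (2 * (j + k + 1))) :
          ℝ → ℝ) t = T + ∑ x, ∫ t, g x t ^ (2 * (j + k + 1)) := by
        show ∫ t, (ii T t ^ 2 + ∑ x, g x t ^ (2 * (j + k + 1))) = _
        rw [integral_add iI iS, ii_sq hT0.le, integral_finsetSum _ fun x _ => iq x]
      refine (le_of_eq e).trans ?_
      have q3 := Finset.sum_le_sum fun x (_ : x ∈ (Finset.univ : Finset (Fin j ⊕ Fin k))) => hgq x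
      have q4 : ∑ x, Sum.elim C1 C2 x * T = (∑ l, C1 l + ∑ i, C2 i) * T := by
        rw [← Finset.sum_mul, Fintype.sum_sum_type]
        rfl
      rw [q4] at q3
      rw [hC]
      linarith
    -- the last factor
    have hlast : |∫ t, (ii T t * W t) * (A t - κl)| ≤ ε / 2 * T := by
      have iW2 := (hWn.pow (by norm_num : 1 ≤ 2)).integrable
      have iA : Integrable fun t => ii T t * (A t - κl) ^ 2 := by
        have q1 : Nice fun t => (ii T t * A t + (-κl) * ii T t) ^ 2 :=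
          (((ii_nice T).mul hAn).add (const_nice (ii_nice T) _)).pow (by norm_num : 1 ≤ 2)
        refine q1.integrable.congr (Eventually.of_forall fun t => ?_)
        show (ii T t * A t + (-κl) * ii T t) ^ 2 = ii T t * (A t - κl) ^ 2
        unfold ii
        by_cases ht : t ∈ Set.Ioc 0 T
        · rw [Set.indicator_of_mem ht]
          ring
        · rw [Set.indicator_of_notMem ht]
          ring
      have q1 : |∫ t, (ii T t * W t) * (A t - κl)| ≤
          ∫ t, (μ * (ii T t * W t) ^ 2 + 1 / μ * (ii T t * (A t - κl) ^ 2)) := by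
        rw [← Real.norm_eq_abs]
        refine norm_integral_le_of_norm_le ((iW2.const_mul μ).add (iA.const_mul _))
          (Eventually.of_forall fun t => ?_)
        rw [Real.norm_eq_abs]
        show |(ii T t * W t) * (A t - κl)| ≤
          μ * (ii T t * W t) ^ 2 + 1 / μ * (ii T t * (A t - κl) ^ 2)
        by_cases ht : t ∈ Set.Ioc 0 T
        · have e1 : ii T t = 1 := by unfold ii; rw [Set.indicator_of_mem ht]
          rw [e1, one_mul, one_mul]
          obtain ⟨p, hp⟩ : ∃ p : ℝ, p = W t := ⟨_, rfl⟩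
          obtain ⟨q, hq⟩ : ∃ q : ℝ, q = A t - κl := ⟨_, rfl⟩
          rw [← hp, ← hq, abs_mul]
          have h5 : μ * p ^ 2 + 1 / μ * q ^ 2 - |p| * |q| =
              (μ ^ 2 * |p| ^ 2 + |q| ^ 2 - μ * |p| * |q|) / μ := by
            rw [sq_abs, sq_abs]
            field_simp
          have h6 : 0 ≤ (μ ^ 2 * |p| ^ 2 + |q| ^ 2 - μ * |p| * |q|) / μ := by
            apply div_nonneg _ hμ0.le
            nlinarith [sq_nonneg (μ * |p| - |q|), mul_nonneg (mul_nonneg hμ0.le (abs_nonneg p))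
              (abs_nonneg q)]
          linarith
        · have e1 : ii T t = 0 := by unfold ii; rw [Set.indicator_of_notMem ht]
          rw [e1]
          simp
      refine q1.trans ?_
      rw [integral_add (iW2.const_mul μ) (iA.const_mul _), integral_const_mul, integral_const_mul]
      have q2 := mul_le_mul_of_nonneg_left hW2 hμ0.le
      have q3 := mul_le_mul_of_nonneg_left g4 (show 0 ≤ 1 / μ by positivity)
      have e1 : μ * (C * T) = ε / 4 * T := by
        rw [hμ]
        field_simp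
      have e2 : 1 / μ * (ε / 4 * μ * T) = ε / 4 * T := by
        field_simp
      rw [e1] at q2
      rw [e2] at q3
      linarith
    -- conclusion
    have iWi : Integrable fun t => ii T t * W t := hWn.integrable
    have iWA : Integrable fun t => (ii T t * W t) * (A t - κl) := by
      have q1 : Nice fun t => (ii T t * W t) * A t + (-κl) * (ii T t * W t) :=
        (hWn.mul hAn).add (const_nice hWn _)
      refine q1.integrable.congr (Eventually.of_forall fun t => ?_)
      show (ii T t * W t) * A t + (-κl) * (ii T t * W t) = _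
      ring
    have e1 : ∫ t, ii T t * (F t * ∏ i, AV T (κ i) (b i) M t) =
        (∫ t, (ii T t * W t) * (A t - κl)) + κl * ∫ t, ii T t * W t := by
      rw [← integral_const_mul, ← integral_add iWA (iWi.const_mul κl)]
      refine integral_congr_ae (Eventually.of_forall fun t => ?_)
      show ii T t * (F t * ∏ i, AV T (κ i) (b i) M t) =
        (ii T t * W t) * (A t - κl) + κl * (ii T t * W t)
      rw [Fin.prod_univ_castSucc, hW, hA, hκl]
      ring
    have e2 : (∏ i, κ i) = (∏ i : Fin k, κ i.castSucc) * κl := by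
      rw [Fin.prod_univ_castSucc, hκl]
    have e3 : ∫ t, ii T t * W t = ∫ t, ii T t * (F t *
        ∏ i : Fin k, AV T (κ i.castSucc) (b i.castSucc) M t) := by rw [hW]
    rw [← e3] at g3
    rw [e1, e2]
    obtain ⟨X1, hX1⟩ : ∃ X1 : ℝ, X1 = ∫ t, (ii T t * W t) * (A t - κl) := ⟨_, rfl⟩
    obtain ⟨X2, hX2⟩ : ∃ X2 : ℝ, X2 = ∫ t, ii T t * W t := ⟨_, rfl⟩
    obtain ⟨X3, hX3⟩ : ∃ X3 : ℝ, X3 = ∫ t, ii T t * F t := ⟨_, rfl⟩
    rw [← hX1] at hlast ⊢
    rw [← hX2] at g3 ⊢
    rw [← hX3] at g3 ⊢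
    have e4 : X1 + κl * X2 - (∏ i : Fin k, κ i.castSucc) * κl * X3 =
        X1 + κl * (X2 - (∏ i : Fin k, κ i.castSucc) * X3) := by ring
    rw [e4]
    refine (abs_add_le _ _).trans ?_
    rw [abs_mul, abs_of_pos hκl0]
    have q1 := mul_le_mul_of_nonneg_left g3 hκl0.le
    have e5 : κl * (ε / (2 * κl) * T) = ε / 2 * T := by field_simp
    rw [e5] at q1
    linarith

end Pool.Agent.V1161.CM
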