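import Pool.Agent.V1161.CM.Tri

set_option autoImplicit false

/-!
# Averages of the correlations of the counts along sequences
-/

namespace Pool.Agent.V1161.CM

open MeasureTheory Filter Topology
open Pool.Agent.TH850.UV (NS mS mS_nonneg NS_nonneg NS_mono NS_le)
open Pool.Agent.V11270.KC (Z0 mem_Z0 Z0_mono Nice count_all)

/-- sequences whose exponential sums are small, uniformly on compact sets of frequencies -/
def Hexp (b : ℕ → ℝ) : Prop := ∀ η R ε : ℝ, 0 < η → 0 < ε → ∃ M₀ : ℕ, ∀ M : ℕ, M₀ ≤ M →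
  ∀ β : ℝ, η ≤ β → β ≤ R →
    ‖∑ m ∈ Finset.range M, Complex.exp (2 * Real.pi * Complex.I * ((β * b m : ℝ) : ℂ))‖ ≤ ε * M

lemma cos_sum_le (b : ℕ → ℝ) (M : ℕ) (β y : ℝ) :
    |∑ m ∈ Finset.range M, Real.cos (2 * Real.pi * (β * (b m + y)))| ≤
      ‖∑ m ∈ Finset.range M, Complex.exp (2 * Real.pi * Complex.I * ((β * b m : ℝ) : ℂ))‖ := by
  have h1 : ∑ m ∈ Finset.range M, Real.cos (2 * Real.pi * (β * (b m + y))) =
      (Complex.exp (((2 * Real.pi * (β * y) : ℝ) : ℂ) * Complex.I) * ∑ m ∈ Finset.range M,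
        Complex.exp (2 * Real.pi * Complex.I * ((β * b m : ℝ) : ℂ))).re := by
    rw [Finset.mul_sum, Complex.re_sum]
    refine Finset.sum_congr rfl fun m _ => ?_
    rw [← Complex.exp_add]
    have : ((2 * Real.pi * (β * y) : ℝ) : ℂ) * Complex.I +
        2 * Real.pi * Complex.I * ((β * b m : ℝ) : ℂ) =
        ((2 * Real.pi * (β * (b m + y)) : ℝ) : ℂ) * Complex.I := by
      push_cast
      ring
    rw [this, Complex.exp_ofReal_mul_I_re]
  rw [h1]
  refine (Complex.abs_re_le_norm _).trans ?_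
  rw [norm_mul, Complex.norm_exp_ofReal_mul_I, one_mul]

/-- averages of the correlations of the counts -/
theorem avg_ff (w : ℝ) (hw : 0 < w) (b : ℕ → ℝ) (hb : Hexp b) (ε : ℝ) (hε : 0 < ε) :
    ∃ (M₀ : ℕ) (T₀ : ℝ), 1 ≤ M₀ ∧ 10 ≤ T₀ ∧ ∀ M : ℕ, M₀ ≤ M → ∀ T : ℝ, T₀ ≤ T → ∀ y : ℝ,
      |1 / (M : ℝ) * ∑ m ∈ Finset.range M, GG (ff T w) ((b m + y) * dl T)| ≤ ε * T := by
  obtain ⟨K, hK, T1, hT1, hbas⟩ := basic w hw
  obtain ⟨Y0, hY0, hsm⟩ := smooth w hw (ε / 16) (by positivity)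
  have hpi := Real.pi_pos
  have hK0 : 0 < K := by linarith
  -- parameters
  obtain ⟨ε1, hε1⟩ : ∃ ε1 : ℝ, ε1 = ε / (8 * K) := ⟨_, rfl⟩
  have hε10 : 0 < ε1 := by rw [hε1]; positivity
  obtain ⟨κ, hκ⟩ : ∃ κ : ℝ, κ = min 1 (ε / (8 * K)) := ⟨_, rfl⟩
  have hκ0 : 0 < κ := by rw [hκ]; positivity
  have hκ1 : κ ≤ 1 := by rw [hκ]; exact min_le_left _ _
  have hκ2 : κ * K ≤ ε / 8 := by
    have h1 : κ ≤ ε / (8 * K) := by rw [hκ]; exact min_le_right _ _
    rw [le_div_iff₀ (by positivity)] at h1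
    linarith
  obtain ⟨R, hR⟩ : ∃ R : ℝ, R = 2 / κ := ⟨_, rfl⟩
  have hR0 : 0 < R := by rw [hR]; positivity
  obtain ⟨ρm, hρm⟩ : ∃ ρm : ℝ, ρm = min (κ / 2) (min (ε ^ 2 / (64 * K ^ 2))
    (ε1 / (4 * Real.pi * R))) := ⟨_, rfl⟩
  have hρm0 : 0 < ρm := by rw [hρm]; positivity
  obtain ⟨n, hn⟩ := exists_nat_gt (w / ρm)
  have hn0 : (0 : ℝ) < n := lt_trans (by positivity) hn
  obtain ⟨ρ, hρ⟩ : ∃ ρ : ℝ, ρ = w / n := ⟨_, rfl⟩
  have hρ0 : 0 < ρ := by rw [hρ]; positivity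
  have hnρ : (n : ℝ) * ρ = w := by rw [hρ]; field_simp
  have hρle : ρ ≤ ρm := by
    rw [hρ, div_le_iff₀ hn0]
    rw [div_lt_iff₀ hρm0] at hn
    linarith
  have hρ1 : ρ ≤ κ / 2 := hρle.trans (by rw [hρm]; exact min_le_left _ _)
  have hρ2 : ρ ≤ ε ^ 2 / (64 * K ^ 2) :=
    hρle.trans (by rw [hρm]; exact (min_le_right _ _).trans (min_le_left _ _))
  have hρ3 : ρ ≤ ε1 / (4 * Real.pi * R) :=
    hρle.trans (by rw [hρm]; exact (min_le_right _ _).trans (min_le_right _ _))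
  obtain ⟨S, hS⟩ : ∃ S : ℕ, S = ⌊κ / ρ⌋₊ := ⟨_, rfl⟩
  have hS1 : (S : ℝ) ≤ κ / ρ := by rw [hS]; exact Nat.floor_le (by positivity)
  have hS2 : κ / ρ < S + 1 := by rw [hS]; exact Nat.lt_floor_add_one _
  rw [le_div_iff₀ hρ0] at hS1
  rw [div_lt_iff₀ hρ0] at hS2
  have hS3 : κ / 2 ≤ S * ρ := by linarith
  have hS0 : (0 : ℝ) < S := by
    by_contra hc
    have : (S : ℝ) = 0 := le_antisymm (not_lt.1 hc) (Nat.cast_nonneg _)
    rw [this, zero_mul] at hS3
    linarith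
  have hRS : 1 ≤ (R * ρ) * S := by
    have : R * (κ / 2) = 1 := by rw [hR]; field_simp
    rw [← this, mul_assoc, mul_comm ρ]
    exact mul_le_mul_of_nonneg_left hS3 hR0.le
  obtain ⟨Q, hQ⟩ : ∃ Q : ℕ, Q = ⌈Y0 / ρ⌉₊ := ⟨_, rfl⟩
  have hQ1 : Y0 ≤ Q * ρ := by
    have h1 : Y0 / ρ ≤ Q := by rw [hQ]; exact Nat.le_ceil _
    rwa [div_le_iff₀ hρ0] at h1
  have hQ0 : (0 : ℝ) < Q := by
    by_contra hc
    have : (Q : ℝ) = 0 := le_antisymm (not_lt.1 hc) (Nat.cast_nonneg _)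
    rw [this, zero_mul] at hQ1
    linarith
  have hQ2 : 1 ≤ Q := by
    have : 0 < Q := by exact_mod_cast hQ0
    exact this
  obtain ⟨T2, hT2, hsm2⟩ := hsm ρ n Q hρ0 hnρ hQ1
  obtain ⟨M0, hM0⟩ := hb (1 / (6 * Q) / ρ) R (ε1 / 2) (by positivity) (by positivity)
  refine ⟨max 1 M0, max T1 T2, le_max_left _ _, hT1.trans (le_max_left _ _),
    fun M hM T hT y => ?_⟩
  have hM1 : 1 ≤ M := (le_max_left _ _).trans hM
  have hMM0 : M0 ≤ M := (le_max_right _ _).trans hM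
  have hMr : (0 : ℝ) < M := by exact_mod_cast hM1
  obtain ⟨k0, k1, k2⟩ := hbas T ((le_max_left _ _).trans hT)
  have k3 := hsm2 T ((le_max_right _ _).trans hT)
  have hT10 : 10 ≤ T := hT1.trans ((le_max_left _ _).trans hT)
  have hT0 : 0 < T := by linarith
  have hd := dl_pos hT10
  obtain ⟨B, hB⟩ : ∃ B : ℕ → ℕ, B = fun m => ⌊|b m + y| / ρ⌋₊ := ⟨_, rfl⟩
  have hB1 : ∀ m, 0 ≤ |b m + y| - ρ * B m ∧ |b m + y| - ρ * B m ≤ ρ := by
    intro m
    have h1 : ((B m : ℕ) : ℝ) ≤ |b m + y| / ρ := by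
      rw [hB]
      exact Nat.floor_le (by positivity)
    have h2 : |b m + y| / ρ < (B m : ℝ) + 1 := by
      rw [hB]
      exact Nat.lt_floor_add_one _
    rw [le_div_iff₀ hρ0] at h1
    rw [div_lt_iff₀ hρ0] at h2
    constructor <;> linarith
  -- frequencies
  have hfreq : ∀ α : ℝ, 1 / (6 * Q) ≤ α → α ≤ R * ρ →
      |1 / (M : ℝ) * ∑ m ∈ Finset.range M, Real.cos (2 * Real.pi * (α * B m))| ≤ ε1 := by
    intro α hα1 hα2
    have hα0 : 0 < α := lt_of_lt_of_le (by positivity) hα1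
    have h1 := hM0 M hMM0 (α / ρ) (div_le_div_of_nonneg_right hα1 hρ0.le)
      (by rw [div_le_iff₀ hρ0]; exact hα2)
    have h2 := (cos_sum_le b M (α / ρ) y).trans h1
    have h3 : ∀ m ∈ Finset.range M, |Real.cos (2 * Real.pi * (α * B m)) -
        Real.cos (2 * Real.pi * (α / ρ * (b m + y)))| ≤ ε1 / 2 := by
      intro m _
      have h4 : Real.cos (2 * Real.pi * (α / ρ * (b m + y))) =
          Real.cos (2 * Real.pi * (α / ρ * |b m + y|)) := by
        rcases abs_choice (b m + y) with h | h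
        · rw [h]
        · rw [h]
          have : 2 * Real.pi * (α / ρ * -(b m + y)) = -(2 * Real.pi * (α / ρ * (b m + y))) := by
            ring
          rw [this, Real.cos_neg]
      rw [h4]
      refine (Real.abs_cos_sub_cos_le _ _).trans ?_
      have h5 : 2 * Real.pi * (α * B m) - 2 * Real.pi * (α / ρ * |b m + y|) =
          -(2 * Real.pi * (α / ρ) * (|b m + y| - ρ * B m)) := by
        field_simp
        ring
      rw [h5, abs_neg, abs_mul, abs_of_pos (show 0 < 2 * Real.pi * (α / ρ) by positivity),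
        abs_of_nonneg (hB1 m).1]
      have h6 : α / ρ ≤ R := by rw [div_le_iff₀ hρ0]; exact hα2
      have h7 : 2 * Real.pi * (α / ρ) * (|b m + y| - ρ * B m) ≤ 2 * Real.pi * R * ρ :=
        mul_le_mul (mul_le_mul_of_nonneg_left h6 (by positivity)) (hB1 m).2 (hB1 m).1
          (by positivity)
      rw [le_div_iff₀ (by positivity)] at hρ3
      linarith
    have h8 : |(∑ m ∈ Finset.range M, Real.cos (2 * Real.pi * (α * B m))) -
        ∑ m ∈ Finset.range M, Real.cos (2 * Real.pi * (α / ρ * (b m + y)))| ≤ M * (ε1 / 2) := by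
      rw [← Finset.sum_sub_distrib]
      refine (Finset.abs_sum_le_sum_abs _ _).trans ((Finset.sum_le_sum h3).trans (le_of_eq ?_))
      rw [Finset.sum_const, Finset.card_range, nsmul_eq_mul]
    rw [abs_mul, abs_of_pos (show 0 < 1 / (M : ℝ) by positivity), one_div, inv_mul_eq_div,
      div_le_iff₀ hMr]
    have h9 := abs_le.1 h8
    have h10 := abs_le.1 h2
    rw [abs_le]
    constructor
    · linarith [h9.1, h10.1]
    · linarith [h9.2, h10.2]
  have hmain := avg_corr (S := S) hQ2 hM1 B hε10.le (η := 1 / (6 * Q)) (R := R * ρ)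
    (by
      have : 1 / (6 * (Q : ℝ)) * Q = 1 / 6 := by field_simp
      rw [this]) hRS (by positivity) hfreq (ff_nice T w) (r := ρ * dl T) (by positivity)
  -- the terms
  have t1 : ε1 * GG (ff T w) 0 ≤ ε / 8 * T := by
    have h1 := mul_le_mul_of_nonneg_left k1 hε10.le
    have e1 : ε1 * (K * T) = ε / 8 * T := by
      rw [hε1]
      field_simp
    rw [e1] at h1
    exact h1
  have t3 : 1 / (S : ℝ) * ∑ k ∈ Finset.range S, (GG (ff T w) 0 - GG (ff T w) (ρ * dl T * k)) ≤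
      ε / 8 * T := by
    have h1 : ∀ k ∈ Finset.range S, GG (ff T w) 0 - GG (ff T w) (ρ * dl T * k) ≤ ε / 8 * T := by
      intro k hk
      have hk1 : (k : ℝ) * ρ ≤ κ := by
        have : (k : ℝ) ≤ S := by exact_mod_cast (Finset.mem_range.1 hk).le
        exact (mul_le_mul_of_nonneg_right this hρ0.le).trans hS1
      have hk0 : 0 ≤ (k : ℝ) * ρ := by positivity
      have h2 := k2 (k * ρ) hk0 (hk1.trans hκ1)
      have e1 : (k : ℝ) * ρ * dl T = ρ * dl T * k := by ring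
      rw [e1] at h2
      refine h2.trans ?_
      have h3 : (k : ℝ) * ρ * (K * T) ≤ κ * (K * T) :=
        mul_le_mul_of_nonneg_right hk1 (by positivity)
      have h4 : κ * (K * T) = (κ * K) * T := by ring
      rw [h4] at h3
      exact h3.trans (mul_le_mul_of_nonneg_right hκ2 hT0.le)
    have h2 := Finset.sum_le_sum h1
    rw [Finset.sum_const, Finset.card_range, nsmul_eq_mul] at h2
    rw [one_div, inv_mul_eq_div, div_le_iff₀ hS0]
    linarith
  have t4 : ∀ m ∈ Finset.range M, |GG (ff T w) ((b m + y) * dl T) -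
      GG (ff T w) (ρ * dl T * B m)| ≤ ε / 4 * T := by
    intro m _
    have h1 : GG (ff T w) ((b m + y) * dl T) = GG (ff T w) (|b m + y| * dl T) := by
      rcases abs_choice (b m + y) with h | h
      · rw [h]
      · rw [h, neg_mul, GG_neg]
    rw [h1]
    refine (GG_change (ff_nice T w) _ _ hε10).trans ?_
    have h2 : |b m + y| * dl T - ρ * dl T * B m = (|b m + y| - ρ * B m) * dl T := by ring
    rw [h2]
    have hρκ : ρ ≤ 1 := by linarith
    have h3 := k2 (|b m + y| - ρ * B m) (hB1 m).1 ((hB1 m).2.trans hρκ)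
    have h4 : (|b m + y| - ρ * B m) * (K * T) ≤ ρ * (K * T) :=
      mul_le_mul_of_nonneg_right (hB1 m).2 (by positivity)
    have h5 : 1 / ε1 * (GG (ff T w) 0 - GG (ff T w) ((|b m + y| - ρ * B m) * dl T)) ≤
        1 / ε1 * (ρ * (K * T)) := mul_le_mul_of_nonneg_left (h3.trans h4) (by positivity)
    have h6 : 1 / ε1 * (ρ * (K * T)) ≤ ε / 8 * T := by
      rw [le_div_iff₀ (by positivity)] at hρ2
      have e1 : 1 / ε1 * (ρ * (K * T)) = (ρ * (64 * K ^ 2)) * T / (8 * ε) := by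
        rw [hε1]
        field_simp
        ring
      rw [e1, div_le_iff₀ (by positivity)]
      have : ρ * (64 * K ^ 2) * T ≤ ε ^ 2 * T := mul_le_mul_of_nonneg_right hρ2 hT0.le
      linarith
    linarith
  have t5 : |(∑ m ∈ Finset.range M, GG (ff T w) ((b m + y) * dl T)) -
      ∑ m ∈ Finset.range M, GG (ff T w) (ρ * dl T * B m)| ≤ M * (ε / 4 * T) := by
    rw [← Finset.sum_sub_distrib]
    refine (Finset.abs_sum_le_sum_abs _ _).trans ((Finset.sum_le_sum t4).trans (le_of_eq ?_))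
    rw [Finset.sum_const, Finset.card_range, nsmul_eq_mul]
  have t6 : |∑ m ∈ Finset.range M, GG (ff T w) (ρ * dl T * B m)| ≤ M * (ε * 5 / 8 * T) := by
    rw [abs_mul, abs_of_pos (show 0 < 1 / (M : ℝ) by positivity), one_div, inv_mul_eq_div,
      div_le_iff₀ hMr] at hmain
    refine hmain.trans ?_
    rw [mul_comm (M : ℝ)]
    refine mul_le_mul_of_nonneg_right ?_ hMr.le
    have h9 : 0 ≤ ε * T := by positivity
    linarith
  rw [abs_mul, abs_of_pos (show 0 < 1 / (M : ℝ) by positivity), one_div, inv_mul_eq_div,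
    div_le_iff₀ hMr]
  have t7 := abs_le.1 t5
  have t8 := abs_le.1 t6
  have t9 : 0 ≤ (M : ℝ) * (ε * T) := by positivity
  rw [abs_le]
  constructor
  · nlinarith
  · nlinarith

end Pool.Agent.V1161.CM
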