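import Pool.Agent.V1161.CM.Id

set_option autoImplicit false

/-!
# The second moment in dyadic blocks
-/

namespace Pool.Agent.V1161.CM

open MeasureTheory Set Filter Topology
open Pool.Agent.TH850.UV (NS mS mS_nonneg NS_nonneg NS_mono NS_le cnt cnt_eq nv2)
open Pool.Agent.V11270.KC (Z0 mem_Z0 Z0_mono)
open H370 (Zf mem_Zf good_zeta NN NN_eq_sum NN_add NN_mono nn_asymp zcount mult zset)

lemma NS_congr {S S' : Finset ℂ} {h t : ℝ} (h1 : S ⊆ S')
    (h2 : ∀ s ∈ S', s ∉ S → ¬ (t < s.im ∧ s.im ≤ t + h)) : NS S h t = NS S' h t := by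
  unfold NS
  refine Finset.sum_subset h1 fun s hs hs' => ?_
  rw [if_neg (h2 s hs hs'), mul_zero]

lemma NS_subset {S S' : Finset ℂ} (h1 : S ⊆ S') (h t : ℝ) : NS S h t ≤ NS S' h t := by
  unfold NS
  refine Finset.sum_le_sum_of_subset_of_nonneg h1 fun s _ _ => mul_nonneg (mS_nonneg s) ?_
  split_ifs <;> norm_num

lemma cnt_Z0 {T t h : ℝ} (h1 : 1 ≤ t) (h2 : t + h ≤ T) : (cnt t h : ℝ) = NS (Z0 T) h t := by
  rw [cnt_eq (A := 1) (B := T) le_rfl h1 h2]
  refine NS_congr ?_ ?_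
  · intro s hs
    rw [mem_Zf good_zeta le_rfl] at hs
    exact mem_Z0.2 ⟨hs.1, hs.2.1, by linarith [hs.2.2.1], hs.2.2.2.1, hs.2.2.2.2⟩
  · intro s hs hs' hc
    rw [mem_Z0] at hs
    exact hs' ((mem_Zf good_zeta le_rfl).2 ⟨hs.1, hs.2.1, by linarith [hc.1], hs.2.2.2.1,
      hs.2.2.2.2⟩)

lemma NN_mS {A B : ℝ} (hA : 1 ≤ A) : (NN riemannZeta A B : ℝ) = ∑ s ∈ Zf riemannZeta A B, mS s := by
  rw [H370.NN_eq good_zeta hA, Nat.cast_sum]
  rfl

/-- the first moment -/
lemma first_moment : ∃ C U0 : ℝ, 1 ≤ C ∧ 10 ≤ U0 ∧ ∀ U : ℝ, U0 ≤ U → ∀ h : ℝ, 0 ≤ h → h ≤ 1 →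
    |(∫ t in U..(2 * U), (cnt t h : ℝ)) - h * (U * Real.log U / (2 * Real.pi))| ≤ C * h * U := by
  obtain ⟨C2, U2, hC2, hU2, hnn⟩ := nn_asymp good_zeta
  obtain ⟨C0, hC0, hz⟩ := zcount good_zeta
  refine ⟨C2 + 2 * C0 + 1, U2, by linarith, hU2, fun U hU h hh hh1 => ?_⟩
  have hU10 : 10 ≤ U := hU2.trans hU
  have hcnt : ∀ t ∈ Icc U (2 * U), (cnt t h : ℝ) = NS (Zf riemannZeta U (2 * U + 1)) h t :=
    fun t ht => cnt_eq (by linarith) ht.1 (by linarith [ht.2])
  have e : ∫ t in U..(2 * U), (cnt t h : ℝ) =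
      ∫ t in U..(2 * U), NS (Zf riemannZeta U (2 * U + 1)) h t := by
    refine intervalIntegral.integral_congr fun t ht => ?_
    rw [uIcc_of_le (by linarith)] at ht
    exact hcnt t ht
  rw [e, intervalIntegral.integral_of_le (by linarith)]
  have hup : ∫ t in Ioc U (2 * U), NS (Zf riemannZeta U (2 * U + 1)) h t ≤
      h * (NN riemannZeta U (2 * U + 1) : ℝ) := by
    rw [NN_mS (by linarith), ← NS_integral _ hh]
    exact setIntegral_le_integral (NS_int _ _) (Eventually.of_forall fun t => NS_nonneg _ _ _)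
  have hlo : h * (NN riemannZeta (U + h) (2 * U) : ℝ) ≤
      ∫ t in Ioc U (2 * U), NS (Zf riemannZeta U (2 * U + 1)) h t := by
    rw [NN_mS (by linarith), ← NS_integral _ hh]
    have h1 : ∫ t, NS (Zf riemannZeta (U + h) (2 * U)) h t =
        ∫ t in Ioc U (2 * U), NS (Zf riemannZeta (U + h) (2 * U)) h t := by
      rw [setIntegral_eq_integral_of_forall_compl_eq_zero]
      intro t ht
      unfold NS
      refine Finset.sum_eq_zero fun s hs => ?_
      rw [mem_Zf good_zeta (by linarith)] at hs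
      rw [if_neg, mul_zero]
      rintro ⟨h2, h3⟩
      exact ht ⟨by linarith [hs.2.2.1], by linarith [hs.2.2.2.1]⟩
    rw [h1]
    refine integral_mono (NS_int _ _).integrableOn (NS_int _ _).integrableOn fun t => ?_
    refine NS_subset ?_ h t
    intro s hs
    rw [mem_Zf good_zeta (by linarith)] at hs ⊢
    exact ⟨hs.1, hs.2.1, by linarith [hs.2.2.1], by linarith [hs.2.2.2.1], hs.2.2.2.2⟩
  have h1 := abs_le.1 (hnn U hU (U + h) (2 * U) (by linarith) (by linarith) (by linarith) le_rfl)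
  have h2 := abs_le.1 (hnn U hU U (2 * U) le_rfl (by linarith) (by linarith) le_rfl)
  have h3 : (NN riemannZeta U (2 * U + 1) : ℝ) ≤ NN riemannZeta U (2 * U) + C0 * (2 * U) := by
    have h4 : NN riemannZeta U (2 * U + 1) = NN riemannZeta U (2 * U) +
        NN riemannZeta (2 * U) (2 * U + 1) := NN_add good_zeta (by linarith) (by linarith)
      (by linarith)
    have h5 : NN riemannZeta (2 * U) (2 * U + 1) ≤
        NN riemannZeta (2 * U + 1 - 1) (2 * U + 1 + 1) :=
      NN_mono good_zeta (by linarith) (by linarith) (by linarith)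
    have h6 := hz (2 * U + 1) (by linarith)
    have h7 : (NN riemannZeta (2 * U) (2 * U + 1) : ℝ) ≤
        NN riemannZeta (2 * U + 1 - 1) (2 * U + 1 + 1) := by exact_mod_cast h5
    have h8 := Real.log_le_sub_one_of_pos (show 0 < 2 * U + 1 by linarith)
    rw [h4]
    push_cast
    nlinarith
  have hU0 : 0 ≤ h * U := by positivity
  rw [abs_le]
  constructor
  · nlinarith
  · have h9 : h * (NN riemannZeta U (2 * U + 1) : ℝ) ≤
        h * (U * Real.log U / (2 * Real.pi) + C2 * U + C0 * (2 * U)) :=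
      mul_le_mul_of_nonneg_left (by linarith) hh
    nlinarith

/-- the second moment in a block -/
lemma block : ∃ C U0 : ℝ, 1 ≤ C ∧ 10 ≤ U0 ∧ ∀ U : ℝ, U0 ≤ U → ∀ a h : ℝ, 0 < a →
    a * Real.log a ≤ Real.log U → h = 2 * Real.pi * a / Real.log U → h ≤ 1 → a * h ≤ 7 →
    |(∫ t in U..(2 * U), (cnt t h : ℝ) ^ 2) -
      U * (a ^ 2 + Real.log (1 + a) / Real.pi ^ 2)| ≤ C * U := by
  obtain ⟨C1, U1, hC1, hU1, hnv⟩ := nv2 1 le_rfl
  obtain ⟨C2, U2, hC2, hU2, hfm⟩ := first_moment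
  refine ⟨C1 + 14 * C2, max U1 U2, by linarith, hU1.trans (le_max_left _ _),
    fun U hU a h ha hal hh hh1 hah => ?_⟩
  have hUU1 : U1 ≤ U := (le_max_left _ _).trans hU
  have hUU2 : U2 ≤ U := (le_max_right _ _).trans hU
  have hU10 : 10 ≤ U := hU1.trans hUU1
  have hL : 0 < Real.log U := Real.log_pos (by linarith)
  have hpi := Real.pi_pos
  have hh0 : 0 ≤ h := by rw [hh]; positivity
  obtain ⟨h1, h2⟩ := hnv U hUU1 a ha (by rw [one_mul]; exact hal)
  rw [← hh] at h1 h2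
  have h3 := hfm U hUU2 h hh0 hh1
  have e1 : h * (U * Real.log U / (2 * Real.pi)) = a * U := by
    rw [hh]
    field_simp
  rw [e1] at h3
  have hci : IntervalIntegrable (fun t => (cnt t h : ℝ)) volume U (2 * U) := by
    have h4 : IntervalIntegrable (NS (Zf riemannZeta U (2 * U + 1)) h) volume U (2 * U) :=
      (NS_int _ _).intervalIntegrable
    refine h4.congr fun t ht => ?_
    rw [uIoc_of_le (by linarith)] at ht
    exact (cnt_eq (by linarith) ht.1.le (by linarith [ht.2])).symm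
  have e2 : ∫ t in U..(2 * U), (cnt t h : ℝ) ^ 2 =
      (∫ t in U..(2 * U), ((cnt t h : ℝ) - a) ^ 2) + 2 * a * (∫ t in U..(2 * U), (cnt t h : ℝ)) -
        a ^ 2 * U := by
    have e3 : ∀ t : ℝ, (cnt t h : ℝ) ^ 2 =
        ((cnt t h : ℝ) - a) ^ 2 + 2 * a * (cnt t h : ℝ) - a ^ 2 := fun t => by ring
    simp_rw [e3]
    rw [intervalIntegral.integral_sub (h1.add (hci.const_mul (2 * a)))
      (continuous_const.intervalIntegrable _ _), intervalIntegral.integral_add h1
      (hci.const_mul (2 * a)), intervalIntegral.integral_const_mul,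
      intervalIntegral.integral_const, smul_eq_mul]
    ring
  rw [e2]
  have h4 := abs_le.1 h2
  have h5 := abs_le.1 h3
  have h6 : a * (C2 * h * U) ≤ 7 * C2 * U := by
    have : 0 ≤ C2 * U := by positivity
    nlinarith
  have e4 : U * (a ^ 2 + Real.log (1 + a) / Real.pi ^ 2) =
      a ^ 2 * U + U / Real.pi ^ 2 * Real.log (1 + a) := by
    field_simp
  rw [e4]
  have h7 := mul_le_mul_of_nonneg_left h5.1 ha.le
  have h8 := mul_le_mul_of_nonneg_left h5.2 ha.le
  rw [abs_le]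
  constructor
  · nlinarith
  · nlinarith

end Pool.Agent.V1161.CM
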