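import Pool.Agent.V1161.CM.Avg

set_option autoImplicit false

/-!
# The pair correlation on average along sequences
-/

namespace Pool.Agent.V1161.CM

open MeasureTheory Filter Topology
open Pool.Agent.TH850.UV (NS mS mS_nonneg NS_nonneg NS_mono NS_le)
open Pool.Agent.V11270.KC (Z0 mem_Z0 Z0_mono Nice count_all)

lemma ii_shift (T y : ℝ) : ∫ t, (ii T (t + y) - ii T t) ^ 2 ≤ 4 * |y| := by
  have hpos : ∀ v : ℝ, 0 ≤ v → ∫ t, (ii T (t + v) - ii T t) ^ 2 ≤ 4 * v := by
    intro v hv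
    refine le_trans ?_ (edge_sq T hv)
    refine integral_mono_of_nonneg (Eventually.of_forall fun t => sq_nonneg _)
      ((edge_nice T v).pow (by norm_num : 1 ≤ 2)).integrable (Eventually.of_forall fun t => ?_)
    show (ii T (t + v) - ii T t) ^ 2 ≤ edge T v t ^ 2
    rw [← sq_abs]
    exact pow_le_pow_left₀ (abs_nonneg _) (ii_edge T hv le_rfl t) 2
  rcases le_total 0 y with h | h
  · rw [abs_of_nonneg h]
    exact hpos y h
  · rw [abs_of_nonpos h]
    have h1 := integral_add_right_eq_self (fun t => (ii T (t + y) - ii T t) ^ 2) (-y)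
      (μ := volume)
    rw [← h1]
    refine le_trans (le_of_eq ?_) (hpos (-y) (by linarith))
    refine integral_congr_ae (Eventually.of_forall fun t => ?_)
    show (ii T (t + -y + y) - ii T (t + -y)) ^ 2 = (ii T (t + -y) - ii T t) ^ 2
    rw [neg_add_cancel_right]
    ring

lemma BB_change {f g : ℝ → ℝ} (hf : Nice f) (hg : Nice g) (y : ℝ) {lam : ℝ} (hl : 0 < lam) :
    |(∫ t, f t * g (t + y)) - ∫ t, f t * g t| ≤
      lam * (∫ t, f t ^ 2) + 1 / lam * ∫ t, (g (t + y) - g t) ^ 2 := by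
  have i1 : Integrable fun t => f t * g (t + y) := (hf.mul (hg.comp y)).integrable
  have i2 : Integrable fun t => f t * g t := (hf.mul hg).integrable
  have i3 : Integrable fun t => f t ^ 2 := (hf.pow (by norm_num : 1 ≤ 2)).integrable
  have i4 : Integrable fun t => (g (t + y) - g t) ^ 2 := by
    have : Nice fun t => (g (t + y) + (-1) * g t) ^ 2 :=
      ((hg.comp y).add (const_nice hg (-1))).pow (by norm_num : 1 ≤ 2)
    refine this.integrable.congr (Eventually.of_forall fun t => ?_)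
    show (g (t + y) + (-1) * g t) ^ 2 = _
    ring
  rw [← integral_sub i1 i2, ← integral_const_mul, ← integral_const_mul,
    ← integral_add (i3.const_mul _) (i4.const_mul _), ← Real.norm_eq_abs]
  refine norm_integral_le_of_norm_le ((i3.const_mul _).add (i4.const_mul _))
    (Eventually.of_forall fun t => ?_)
  rw [Real.norm_eq_abs]
  show |f t * g (t + y) - f t * g t| ≤ lam * f t ^ 2 + 1 / lam * (g (t + y) - g t) ^ 2
  obtain ⟨p, hp⟩ : ∃ p : ℝ, p = f t := ⟨_, rfl⟩
  obtain ⟨q, hq⟩ : ∃ q : ℝ, q = g (t + y) - g t := ⟨_, rfl⟩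
  have e : f t * g (t + y) - f t * g t = p * q := by rw [hp, hq]; ring
  rw [e, ← hp, ← hq, abs_mul]
  have h5 : lam * p ^ 2 + 1 / lam * q ^ 2 - |p| * |q| =
      (lam ^ 2 * |p| ^ 2 + |q| ^ 2 - lam * |p| * |q|) / lam := by
    rw [sq_abs, sq_abs]
    field_simp
  have h6 : 0 ≤ (lam ^ 2 * |p| ^ 2 + |q| ^ 2 - lam * |p| * |q|) / lam := by
    apply div_nonneg _ hl.le
    nlinarith [sq_nonneg (lam * |p| - |q|), mul_nonneg (mul_nonneg hl.le (abs_nonneg p))
      (abs_nonneg q)]
  linarith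

/-- from the counts minus their mean to the counts -/
lemma GG_V (w : ℝ) (hw : 0 < w) (L ε : ℝ) (hL : 0 ≤ L) (hε : 0 < ε) : ∃ T₀ : ℝ, 10 ≤ T₀ ∧
    ∀ T : ℝ, T₀ ≤ T → ∀ x : ℝ, |x| ≤ L →
    |GG (NS (Z0 T) (w * dl T)) (x * dl T) - GG (ff T w) (x * dl T) - w ^ 2 * T| ≤ ε * T := by
  obtain ⟨K, hK, T1, hT1, hsq⟩ := sq_bound w
  obtain ⟨T2, hT2, hcnt⟩ := dl_count (ε := ε / (8 * w ^ 2)) (by positivity)
  obtain ⟨K1, hK1⟩ : ∃ K1 : ℝ, K1 = ∑ s ∈ Z0 1, mS s := ⟨_, rfl⟩
  obtain ⟨lam, hlam⟩ : ∃ lam : ℝ, lam = min (ε / (16 * w * K)) (ε / (8 * w ^ 2)) := ⟨_, rfl⟩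
  have hlam0 : 0 < lam := by rw [hlam]; positivity
  have hlam1 : w * lam * K ≤ ε / 16 := by
    have : lam ≤ ε / (16 * w * K) := by rw [hlam]; exact min_le_left _ _
    rw [le_div_iff₀ (by positivity)] at this
    linarith
  have hlam2 : w ^ 2 * lam ≤ ε / 8 := by
    have : lam ≤ ε / (8 * w ^ 2) := by rw [hlam]; exact min_le_right _ _
    rw [le_div_iff₀ (by positivity)] at this
    linarith
  have hpi := Real.pi_pos
  -- thresholds
  obtain ⟨T3, hT3⟩ := eventually_atTop.1
    ((Real.tendsto_log_atTop.eventually_ge_atTop (2 * Real.pi * w)))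
  obtain ⟨c1, hc1⟩ : ∃ c1 : ℝ, c1 = (2 * w + w ^ 2) * (1 / lam * (4 * L)) + 2 * w * K1 := ⟨_, rfl⟩
  refine ⟨max (max T1 T2) (max T3 (4 * c1 / ε)), (hT1.trans (le_max_left _ _)).trans
    (le_max_left _ _), fun T hT x hx => ?_⟩
  have g1 : T1 ≤ T := ((le_max_left _ _).trans (le_max_left _ _)).trans hT
  have g2 := hcnt T (((le_max_right _ _).trans (le_max_left _ _)).trans hT)
  have g3 := hT3 T (((le_max_left _ _).trans (le_max_right _ _)).trans hT)
  have g4 : 4 * c1 / ε ≤ T := ((le_max_right _ _).trans (le_max_right _ _)).trans hT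
  rw [div_le_iff₀ hε] at g4
  obtain ⟨k0, k1, _⟩ := hsq T g1
  have hT10 : 10 ≤ T := hT1.trans g1
  have hT0 : 0 < T := by linarith
  have hd := dl_pos hT10
  have hLp : 0 < Real.log T := Real.log_pos (by linarith)
  have hwd : w * dl T ≤ 1 := by
    have : w * dl T = 2 * Real.pi * w / Real.log T := by unfold dl; ring
    rw [this, div_le_one hLp]
    exact g3
  obtain ⟨V, hV⟩ : ∃ V : ℝ → ℝ, V = NS (Z0 T) (w * dl T) := ⟨_, rfl⟩
  have hVn : Nice V := by rw [hV]; exact NS_nice _ _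
  rw [← hV]
  have k1' : ∫ t, V t ^ 2 ≤ K * T := by rw [hV]; exact k1
  obtain ⟨y, hy⟩ : ∃ y : ℝ, y = x * dl T := ⟨_, rfl⟩
  rw [← hy]
  have hyL : |y| ≤ L := by
    rw [hy, abs_mul, abs_of_pos hd]
    have := abs_nonneg x
    nlinarith
  have hI := ii_nice T
  -- expansion
  have i1 : Integrable fun t => V t * V (t + y) := (hVn.mul (hVn.comp y)).integrable
  have i2 : Integrable fun t => V t * ii T (t + y) := (hVn.mul (hI.comp y)).integrable
  have i3 : Integrable fun t => ii T t * V (t + y) := (hI.mul (hVn.comp y)).integrable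
  have i4 : Integrable fun t => ii T t * ii T (t + y) := (hI.mul (hI.comp y)).integrable
  have hexp : GG (ff T w) y = GG V y - w * (∫ t, V t * ii T (t + y)) -
      w * (∫ t, ii T t * V (t + y)) + w ^ 2 * ∫ t, ii T t * ii T (t + y) := by
    unfold GG
    have e : ∀ t, ff T w t * ff T w (t + y) = (V t * V (t + y) - w * (V t * ii T (t + y)) -
        w * (ii T t * V (t + y))) + w ^ 2 * (ii T t * ii T (t + y)) := by
      intro t
      unfold ff
      rw [hV]
      ring
    simp_rw [e]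
    have j1 : Integrable fun t => V t * V (t + y) - w * (V t * ii T (t + y)) :=
      i1.sub (i2.const_mul w)
    have j2 : Integrable fun t => V t * V (t + y) - w * (V t * ii T (t + y)) -
        w * (ii T t * V (t + y)) := j1.sub (i3.const_mul w)
    rw [integral_add j2 (i4.const_mul _), integral_sub j1 (i3.const_mul w),
      integral_sub i1 (i2.const_mul w), integral_const_mul, integral_const_mul,
      integral_const_mul]
  -- the shifted integral
  have hsh : ∫ t, ii T t * V (t + y) = ∫ t, V t * ii T (t + -y) := by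
    have h1 := integral_add_right_eq_self (fun t => V t * ii T (t + -y)) y (μ := volume)
    rw [← h1]
    refine integral_congr_ae (Eventually.of_forall fun t => ?_)
    show ii T t * V (t + y) = V (t + y) * ii T (t + y + -y)
    rw [add_neg_cancel_right]
    ring
  have b2 := BB_change hVn hI y hlam0
  have b3 := BB_change hVn hI (-y) hlam0
  have b4 := BB_change hI hI y hlam0
  have s2 := ii_shift T y
  have s3 := ii_shift T (-y)
  rw [abs_neg] at s3
  have e4 : ∫ t, ii T t * ii T t = T := by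
    refine (integral_congr_ae (Eventually.of_forall fun t => ?_)).trans (ii_sq hT0.le)
    show ii T t * ii T t = ii T t ^ 2
    ring
  rw [e4, ii_sq hT0.le] at b4
  obtain ⟨P, hP⟩ : ∃ P : ℝ, P = ∫ t, V t * ii T t := ⟨_, rfl⟩
  rw [← hP] at b2 b3
  have hPb := int_in T (h := w * dl T) (by linarith) (by positivity) hwd
  rw [← hV, ← hP, ← hK1] at hPb
  have e5 : w * dl T * (∑ s ∈ Z0 T, mS s) = w * (dl T * ∑ s ∈ Z0 T, mS s) := by ring
  rw [e5] at hPb
  have g5 := abs_le.1 g2
  have g6 : w * (w * (dl T * ∑ s ∈ Z0 T, mS s)) ≤ w ^ 2 * T + ε / 8 * T := by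
    have h1 := mul_le_mul_of_nonneg_left g5.2 (show 0 ≤ w ^ 2 by positivity)
    have e6 : w ^ 2 * (ε / (8 * w ^ 2) * T) = ε / 8 * T := by field_simp
    rw [e6] at h1
    linarith
  have g7 : w ^ 2 * T - ε / 8 * T ≤ w * (w * (dl T * ∑ s ∈ Z0 T, mS s)) := by
    have h1 := mul_le_mul_of_nonneg_left g5.1 (show 0 ≤ w ^ 2 by positivity)
    have e6 : w ^ 2 * -(ε / (8 * w ^ 2) * T) = -(ε / 8 * T) := by field_simp
    rw [e6] at h1
    linarith
  have hwP1 : w * P ≤ w ^ 2 * T + ε / 8 * T :=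
    (mul_le_mul_of_nonneg_left hPb.2 hw.le).trans g6
  have hwP2 : w ^ 2 * T - ε / 8 * T - w * K1 ≤ w * P := by
    have := mul_le_mul_of_nonneg_left hPb.1 hw.le
    linarith
  -- the errors
  have hlin : 0 ≤ 1 / lam := by positivity
  have r2 : |(∫ t, V t * ii T (t + y)) - P| ≤ lam * (K * T) + 1 / lam * (4 * L) := by
    refine b2.trans (add_le_add (mul_le_mul_of_nonneg_left k1' hlam0.le)
      (mul_le_mul_of_nonneg_left (s2.trans (by linarith)) hlin))
  have r3 : |(∫ t, V t * ii T (t + -y)) - P| ≤ lam * (K * T) + 1 / lam * (4 * L) := by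
    refine b3.trans (add_le_add (mul_le_mul_of_nonneg_left k1' hlam0.le)
      (mul_le_mul_of_nonneg_left (s3.trans (by linarith)) hlin))
  have r4 : |(∫ t, ii T t * ii T (t + y)) - T| ≤ lam * T + 1 / lam * (4 * L) := by
    refine b4.trans (add_le_add le_rfl (mul_le_mul_of_nonneg_left (s2.trans (by linarith)) hlin))
  rw [hexp, hsh]
  obtain ⟨G, hG⟩ : ∃ G : ℝ, G = GG V y := ⟨_, rfl⟩
  obtain ⟨A2, hA2⟩ : ∃ A2 : ℝ, A2 = ∫ t, V t * ii T (t + y) := ⟨_, rfl⟩
  obtain ⟨A3, hA3⟩ : ∃ A3 : ℝ, A3 = ∫ t, V t * ii T (t + -y) := ⟨_, rfl⟩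
  obtain ⟨A4, hA4⟩ : ∃ A4 : ℝ, A4 = ∫ t, ii T t * ii T (t + y) := ⟨_, rfl⟩
  obtain ⟨e0, he0⟩ : ∃ e0 : ℝ, e0 = 1 / lam * (4 * L) := ⟨_, rfl⟩
  rw [← hG, ← hA2, ← hA3, ← hA4]
  rw [← hA2, ← he0] at r2
  rw [← hA3, ← he0] at r3
  rw [← hA4, ← he0] at r4
  rw [← he0] at hc1
  have q2 := abs_le.1 r2
  have q3 := abs_le.1 r3
  have q4 := abs_le.1 r4
  have w2a := mul_le_mul_of_nonneg_left q2.1 hw.le
  have w2b := mul_le_mul_of_nonneg_left q2.2 hw.le
  have w3a := mul_le_mul_of_nonneg_left q3.1 hw.le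
  have w3b := mul_le_mul_of_nonneg_left q3.2 hw.le
  have w4a := mul_le_mul_of_nonneg_left q4.1 (show 0 ≤ w ^ 2 by positivity)
  have w4b := mul_le_mul_of_nonneg_left q4.2 (show 0 ≤ w ^ 2 by positivity)
  have l1 : w * (lam * (K * T) + e0) ≤ ε / 16 * T + w * e0 := by
    have := mul_le_mul_of_nonneg_right hlam1 hT0.le
    linarith
  have l2 : w ^ 2 * (lam * T + e0) ≤ ε / 8 * T + w ^ 2 * e0 := by
    have := mul_le_mul_of_nonneg_right hlam2 hT0.le
    linarith
  have hεT : 0 ≤ ε * T := by positivity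
  have hc1' : (2 * w + w ^ 2) * e0 + 2 * w * K1 ≤ ε * T / 4 := by
    rw [← hc1]
    linarith
  have hK10 : 0 ≤ w * K1 := by
    rw [hK1]
    exact mul_nonneg hw.le (Finset.sum_nonneg fun s _ => mS_nonneg s)
  rw [abs_le]
  constructor
  · linarith
  · linarith

/-- the correlations of the counts and the pairs of zeros -/
lemma GG_pairs (S : Finset ℂ) (h y : ℝ) : GG (NS S h) y = ∑ s ∈ S, ∑ s' ∈ S, mS s * mS s' *
    max (h - |s.im - s'.im - y|) 0 := by
  have hsym : GG (NS S h) y = GG (NS S h) (-y) := (GG_neg _ _).symm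
  rw [hsym]
  unfold GG
  have e : ∀ t, NS S h t * NS S h (t + -y) = ∑ s ∈ S, ∑ s' ∈ S,
      (Set.Ico (max (s.im - h) (s'.im + y - h)) (min s.im (s'.im + y))).indicator
        (fun _ => mS s * mS s') t := by
    intro t
    rw [NS_ind, NS_ind, Finset.sum_mul_sum]
    refine Finset.sum_congr rfl fun s _ => Finset.sum_congr rfl fun s' _ => ?_
    have h1 : (Set.Ico (s'.im - h) s'.im).indicator (fun _ => mS s') (t + -y) =
        (Set.Ico (s'.im + y - h) (s'.im + y)).indicator (fun _ => mS s') t := by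
      rw [Set.indicator_apply, Set.indicator_apply]
      refine if_congr ?_ rfl rfl
      rw [Set.mem_Ico, Set.mem_Ico]
      constructor
      · rintro ⟨h2, h3⟩
        constructor <;> linarith
      · rintro ⟨h2, h3⟩
        constructor <;> linarith
    rw [h1, ← Set.inter_indicator_mul, Set.Ico_inter_Ico]
  simp_rw [e]
  rw [integral_finsetSum _ fun s _ => integrable_finsetSum _ fun s' _ => ind_int _ _ _]
  refine Finset.sum_congr rfl fun s _ => ?_
  rw [integral_finsetSum _ fun s' _ => ind_int _ _ _]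
  refine Finset.sum_congr rfl fun s' _ => ?_
  rw [ind_val]
  have : min s.im (s'.im + y) - max (s.im - h) (s'.im + y - h) = h - |s.im - s'.im - y| := by
    rcases le_total s.im (s'.im + y) with h1 | h1
    · rw [min_eq_left h1, max_eq_right (by linarith), abs_of_nonpos (by linarith)]
      ring
    · rw [min_eq_right h1, max_eq_left (by linarith), abs_of_nonneg (by linarith)]
      ring
  rw [this]
  ring

/-- triangle and clamp functions -/
lemma tri_clamp (w y : ℝ) (hw : 0 < w) : max (w - |y|) 0 =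
    min (max (y + w) 0) w - min (max (y - w + w) 0) w := by
  rcases le_total y 0 with h | h
  · rw [abs_of_nonpos h]
    rcases le_total (y + w) 0 with h1 | h1
    · rw [max_eq_right (by linarith), max_eq_right h1, max_eq_right (by linarith),
        min_eq_left hw.le]
      ring
    · rw [max_eq_left (by linarith), max_eq_left h1, max_eq_right (by linarith : y - w + w ≤ 0),
        min_eq_left (by linarith), min_eq_left hw.le]
      ring
  · rw [abs_of_nonneg h]
    rcases le_total y w with h1 | h1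
    · rw [max_eq_left (by linarith), max_eq_left (by linarith), max_eq_left (by linarith),
        min_eq_right (by linarith), min_eq_left (by linarith)]
      ring
    · rw [max_eq_right (by linarith), max_eq_left (by linarith), max_eq_left (by linarith),
        min_eq_right (by linarith), min_eq_right (by linarith)]
      ring

lemma tri_sum (w x c : ℝ) (hw : 0 < w) (n : ℕ) :
    ∑ i ∈ Finset.range n, max (w - |x - ((i : ℝ) - c) * w|) 0 =
      min (max (x + c * w + w) 0) w - min (max (x + c * w - n * w + w) 0) w := by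
  induction n with
  | zero => simp
  | succ n ih =>
    rw [Finset.sum_range_succ, ih, tri_clamp _ _ hw]
    have e1 : x - ((n : ℝ) - c) * w + w = x + c * w - n * w + w := by ring
    have e2 : x - ((n : ℝ) - c) * w - w + w = x + c * w - ((n + 1 : ℕ) : ℝ) * w + w := by
      push_cast
      ring
    rw [e1, e2]
    ring

lemma tri_upper (w x : ℝ) (hw : 0 < w) (J : ℕ) (h1 : -(J * w) ≤ x) (h2 : x ≤ J * w) :
    ∑ i ∈ Finset.range (2 * J + 1), max (w - |x - ((i : ℝ) - J) * w|) 0 = w := by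
  rw [tri_sum _ _ _ hw]
  have e : x + J * w - ((2 * J + 1 : ℕ) : ℝ) * w + w = x - J * w := by push_cast; ring
  rw [e, max_eq_left (by linarith), min_eq_right (by linarith), max_eq_right (by linarith),
    min_eq_left hw.le, sub_zero]

lemma tri_lower (w x : ℝ) (hw : 0 < w) (J : ℕ) :
    ∑ i ∈ Finset.range (2 * J + 1), max (w - |x - ((i : ℝ) - J) * w|) 0 ≤
      if -((J + 1 : ℕ) * w) ≤ x ∧ x ≤ (J + 1 : ℕ) * w then w else 0 := by
  rw [tri_sum _ _ _ hw]
  have e : x + J * w - ((2 * J + 1 : ℕ) : ℝ) * w + w = x - J * w := by push_cast; ring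
  rw [e]
  have h0 : 0 ≤ min (max (x - J * w) 0) w := le_min (le_max_right _ _) hw.le
  have h1 : min (max (x + J * w + w) 0) w ≤ w := min_le_right _ _
  split_ifs with h
  · linarith
  · rw [not_and_or] at h
    push_cast at h
    rcases h with h | h
    · rw [not_le] at h
      rw [max_eq_right (by linarith : x + J * w + w ≤ 0), min_eq_left hw.le]
      linarith
    · rw [not_le] at h
      have h2 : w ≤ x - J * w := by linarith
      rw [max_eq_left (by linarith : (0 : ℝ) ≤ x - J * w), min_eq_right h2]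
      linarith

/-- the number of pairs of ordinates in `(0, T]` at distance in `[b - κ, b + κ]` mean spacings -/
noncomputable def PC (T b κ : ℝ) : ℝ := ∑ s ∈ Z0 T, ∑ s' ∈ Z0 T, mS s * mS s' *
  (if (b - κ) * dl T ≤ s.im - s'.im ∧ s.im - s'.im ≤ (b + κ) * dl T then 1 else 0)

lemma max_scale (w x d : ℝ) (hd : 0 < d) : max (w * d - |x|) 0 = d * max (w - |x / d|) 0 := by
  rw [mul_max_of_nonneg _ _ hd.le, mul_zero, abs_div, abs_of_pos hd]
  congr 1
  field_simp

/-- sandwich -/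
lemma PC_bounds {T w : ℝ} (hd : 0 < dl T) (hw : 0 < w) (J : ℕ) (b : ℝ) :
    w * dl T * PC T b (J * w) ≤
      ∑ i ∈ Finset.range (2 * J + 1), GG (NS (Z0 T) (w * dl T)) ((b + ((i : ℝ) - J) * w) * dl T) ∧
    ∑ i ∈ Finset.range (2 * J + 1), GG (NS (Z0 T) (w * dl T)) ((b + ((i : ℝ) - J) * w) * dl T) ≤
      w * dl T * PC T b ((J + 1 : ℕ) * w) := by
  have hkey : ∑ i ∈ Finset.range (2 * J + 1),
      GG (NS (Z0 T) (w * dl T)) ((b + ((i : ℝ) - J) * w) * dl T) =
      ∑ s ∈ Z0 T, ∑ s' ∈ Z0 T, mS s * mS s' * (dl T * ∑ i ∈ Finset.range (2 * J + 1),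
        max (w - |((s.im - s'.im) / dl T - b) - ((i : ℝ) - J) * w|) 0) := by
    simp_rw [GG_pairs]
    rw [Finset.sum_comm]
    refine Finset.sum_congr rfl fun s _ => ?_
    rw [Finset.sum_comm]
    refine Finset.sum_congr rfl fun s' _ => ?_
    rw [Finset.mul_sum, Finset.mul_sum]
    refine Finset.sum_congr rfl fun i _ => ?_
    rw [max_scale _ _ _ hd]
    have : (s.im - s'.im - (b + ((i : ℝ) - J) * w) * dl T) / dl T =
        (s.im - s'.im) / dl T - b - ((i : ℝ) - J) * w := by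
      field_simp
      ring
    rw [this]
  rw [hkey]
  unfold PC
  have hdist : ∀ (s s' : ℂ) (κ : ℝ), ((b - κ) * dl T ≤ s.im - s'.im ∧
      s.im - s'.im ≤ (b + κ) * dl T) ↔
      (-κ ≤ (s.im - s'.im) / dl T - b ∧ (s.im - s'.im) / dl T - b ≤ κ) := by
    intro s s' κ
    rw [← le_div_iff₀ hd, ← div_le_iff₀ hd]
    constructor
    · rintro ⟨h1, h2⟩
      constructor <;> linarith
    · rintro ⟨h1, h2⟩
      constructor <;> linarith
  constructor
  · rw [Finset.mul_sum]
    refine Finset.sum_le_sum fun s _ => ?_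
    rw [Finset.mul_sum]
    refine Finset.sum_le_sum fun s' _ => ?_
    have hm := mul_nonneg (mS_nonneg s) (mS_nonneg s')
    have h0 : 0 ≤ ∑ i ∈ Finset.range (2 * J + 1),
        max (w - |((s.im - s'.im) / dl T - b) - ((i : ℝ) - J) * w|) 0 :=
      Finset.sum_nonneg fun i _ => le_max_right _ _
    split_ifs with h
    · rw [hdist] at h
      rw [tri_upper w _ hw J h.1 h.2]
      refine le_of_eq ?_
      ring
    · rw [mul_zero, mul_zero]
      positivity
  · rw [Finset.mul_sum]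
    refine Finset.sum_le_sum fun s _ => ?_
    rw [Finset.mul_sum]
    refine Finset.sum_le_sum fun s' _ => ?_
    have hm := mul_nonneg (mS_nonneg s) (mS_nonneg s')
    have h1 := tri_lower w ((s.im - s'.im) / dl T - b) hw J
    have h2 : mS s * mS s' * (dl T * ∑ i ∈ Finset.range (2 * J + 1),
        max (w - |((s.im - s'.im) / dl T - b) - ((i : ℝ) - J) * w|) 0) ≤
        mS s * mS s' * (dl T * if -((J + 1 : ℕ) * w) ≤ (s.im - s'.im) / dl T - b ∧
          (s.im - s'.im) / dl T - b ≤ (J + 1 : ℕ) * w then w else 0) :=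
      mul_le_mul_of_nonneg_left (mul_le_mul_of_nonneg_left h1 hd.le) hm
    refine h2.trans (le_of_eq ?_)
    by_cases h : -((J + 1 : ℕ) * w) ≤ (s.im - s'.im) / dl T - b ∧
          (s.im - s'.im) / dl T - b ≤ (J + 1 : ℕ) * w
    · rw [if_pos h, if_pos ((hdist s s' _).2 h)]
      ring
    · rw [if_neg h, if_neg (fun h3 => h ((hdist s s' _).1 h3))]
      ring

/-- the pair correlation on average -/
theorem main_avg (b : ℕ → ℝ) (hb : Hexp b) (κ : ℝ) (hκ : 0 < κ) (ε : ℝ) (hε : 0 < ε) :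
    ∃ M₀ : ℕ, ∀ M : ℕ, M₀ ≤ M → ∃ T₀ : ℝ, ∀ T : ℝ, T₀ ≤ T →
      |1 / (M : ℝ) * ∑ m ∈ Finset.range M, PC T (b m) κ -
        2 * κ * (T * Real.log T / (2 * Real.pi))| ≤ ε * (T * Real.log T) := by
  have hpi := Real.pi_pos
  have hpi3 := Real.pi_gt_three
  -- the width
  obtain ⟨J, hJ⟩ := exists_nat_gt (max 1 (κ / (ε / 2)))
  have hJ1 : (1 : ℝ) < J := (le_max_left _ _).trans_lt hJ
  have hJ0 : (0 : ℝ) < J := by linarith
  have hJn : 1 ≤ J := by
    have : 1 < J := by exact_mod_cast hJ1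
    omega
  obtain ⟨w, hw⟩ : ∃ w : ℝ, w = κ / J := ⟨_, rfl⟩
  have hw0 : 0 < w := by rw [hw]; positivity
  have hJw : (J : ℝ) * w = κ := by rw [hw]; field_simp
  have hwε : w ≤ ε / 2 := by
    have h1 : κ / (ε / 2) < J := (le_max_right _ _).trans_lt hJ
    rw [div_lt_iff₀ (by positivity)] at h1
    rw [hw, div_le_iff₀ hJ0]
    linarith
  obtain ⟨δ, hδ⟩ : ∃ δ : ℝ, δ = ε * w / (4 * (2 * J + 1)) := ⟨_, rfl⟩
  have hδ0 : 0 < δ := by rw [hδ]; positivity
  obtain ⟨M0, T1, hM0, hT1, havg⟩ := avg_ff w hw0 b hb δ hδ0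
  refine ⟨M0, fun M hM => ?_⟩
  have hM1 : 1 ≤ M := hM0.trans hM
  have hMr : (0 : ℝ) < M := by exact_mod_cast hM1
  -- the size of the distances
  obtain ⟨L, hL⟩ : ∃ L : ℝ, L = ∑ m ∈ Finset.range M, |b m| + κ + w := ⟨_, rfl⟩
  have hbL : ∀ m ∈ Finset.range M, |b m| ≤ ∑ m ∈ Finset.range M, |b m| := fun m hm =>
    Finset.single_le_sum (f := fun m => |b m|) (fun i _ => abs_nonneg _) hm
  have hL0 : 0 ≤ L := by
    rw [hL]
    have : 0 ≤ ∑ m ∈ Finset.range M, |b m| := Finset.sum_nonneg fun _ _ => abs_nonneg _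
    linarith
  obtain ⟨T2, hT2, hGG⟩ := GG_V w hw0 L δ hL0 hδ0
  refine ⟨max T1 T2, fun T hT => ?_⟩
  have hTT1 : T1 ≤ T := (le_max_left _ _).trans hT
  have hTT2 : T2 ≤ T := (le_max_right _ _).trans hT
  have hT10 : 10 ≤ T := hT1.trans hTT1
  have hd := dl_pos hT10
  have hLp : 0 < Real.log T := Real.log_pos (by linarith)
  obtain ⟨X, hX⟩ : ∃ X : ℝ, X = T * Real.log T / (2 * Real.pi) := ⟨_, rfl⟩
  have hX0 : 0 < X := by rw [hX]; positivity
  have hdX : dl T * X = T := by
    rw [hX]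
    unfold dl
    field_simp
  have hXle : X ≤ T * Real.log T := by
    rw [hX]
    exact div_le_self (by positivity) (by linarith)
  -- one shift
  have hone : ∀ z : ℝ, |z| ≤ κ + w → |1 / (M : ℝ) * ∑ m ∈ Finset.range M,
      GG (NS (Z0 T) (w * dl T)) ((b m + z) * dl T) - w ^ 2 * T| ≤ 2 * δ * T := by
    intro z hz
    have h1 := havg M hM T hTT1 z
    have h2 : ∀ m ∈ Finset.range M, |GG (NS (Z0 T) (w * dl T)) ((b m + z) * dl T) -
        GG (ff T w) ((b m + z) * dl T) - w ^ 2 * T| ≤ δ * T := by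
      intro m hm
      refine hGG T hTT2 _ ?_
      refine (abs_add_le _ _).trans ?_
      have := hbL m hm
      rw [hL]
      linarith
    have h3 : |∑ m ∈ Finset.range M, (GG (NS (Z0 T) (w * dl T)) ((b m + z) * dl T) -
        GG (ff T w) ((b m + z) * dl T) - w ^ 2 * T)| ≤ M * (δ * T) := by
      refine (Finset.abs_sum_le_sum_abs _ _).trans ((Finset.sum_le_sum h2).trans (le_of_eq ?_))
      rw [Finset.sum_const, Finset.card_range, nsmul_eq_mul]
    rw [Finset.sum_sub_distrib, Finset.sum_sub_distrib, Finset.sum_const, Finset.card_range,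
      nsmul_eq_mul] at h3
    have e1 : 1 / (M : ℝ) * ∑ m ∈ Finset.range M,
        GG (NS (Z0 T) (w * dl T)) ((b m + z) * dl T) - w ^ 2 * T =
        1 / (M : ℝ) * ((∑ m ∈ Finset.range M, GG (NS (Z0 T) (w * dl T)) ((b m + z) * dl T)) -
          (∑ m ∈ Finset.range M, GG (ff T w) ((b m + z) * dl T)) - M * (w ^ 2 * T)) +
        1 / (M : ℝ) * ∑ m ∈ Finset.range M, GG (ff T w) ((b m + z) * dl T) := by
      field_simp
      ring
    rw [e1]
    refine (abs_add_le _ _).trans ?_
    have h4 : |1 / (M : ℝ) * ((∑ m ∈ Finset.range M,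
        GG (NS (Z0 T) (w * dl T)) ((b m + z) * dl T)) -
          (∑ m ∈ Finset.range M, GG (ff T w) ((b m + z) * dl T)) - M * (w ^ 2 * T))| ≤ δ * T := by
      rw [abs_mul, abs_of_pos (show 0 < 1 / (M : ℝ) by positivity), one_div, inv_mul_eq_div,
        div_le_iff₀ hMr]
      linarith
    linarith
  -- sums over the shifts
  have hsum : ∀ I : ℕ, (I : ℝ) ≤ J → |1 / (M : ℝ) * ∑ m ∈ Finset.range M,
      (∑ i ∈ Finset.range (2 * I + 1),
        GG (NS (Z0 T) (w * dl T)) ((b m + ((i : ℝ) - I) * w) * dl T)) -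
      (2 * I + 1) * (w ^ 2 * T)| ≤ (2 * J + 1) * (2 * δ * T) := by
    intro I hI
    rw [Finset.sum_comm, Finset.mul_sum]
    have e1 : (2 * (I : ℝ) + 1) * (w ^ 2 * T) =
        ∑ _i ∈ Finset.range (2 * I + 1), w ^ 2 * T := by
      rw [Finset.sum_const, Finset.card_range, nsmul_eq_mul]
      push_cast
      ring
    rw [e1, ← Finset.sum_sub_distrib]
    refine (Finset.abs_sum_le_sum_abs _ _).trans ?_
    have h1 : ∀ i ∈ Finset.range (2 * I + 1), |1 / (M : ℝ) * ∑ m ∈ Finset.range M,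
        GG (NS (Z0 T) (w * dl T)) ((b m + ((i : ℝ) - I) * w) * dl T) - w ^ 2 * T| ≤
        2 * δ * T := by
      intro i hi
      refine hone _ ?_
      rw [abs_mul, abs_of_pos hw0]
      have h2 : |(i : ℝ) - I| ≤ I := by
        have h3 : (i : ℝ) ≤ 2 * I := by
          have := Finset.mem_range.1 hi
          exact_mod_cast (by omega : i ≤ 2 * I)
        have h4 : (0 : ℝ) ≤ i := Nat.cast_nonneg _
        rw [abs_le]
        constructor <;> linarith
      have h3 : |(i : ℝ) - I| * w ≤ J * w := mul_le_mul_of_nonneg_right (h2.trans hI) hw0.le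
      linarith
    refine (Finset.sum_le_sum h1).trans ?_
    rw [Finset.sum_const, Finset.card_range, nsmul_eq_mul]
    refine mul_le_mul_of_nonneg_right ?_ (by positivity)
    push_cast
    linarith
  have hwd : 0 < w * dl T := by positivity
  have e2 : (2 * (J : ℝ) + 1) * (2 * δ * T) = ε / 2 * w * T := by
    rw [hδ]
    field_simp
    ring
  -- the upper bound
  have hup : 1 / (M : ℝ) * ∑ m ∈ Finset.range M, PC T (b m) κ ≤ (2 * κ + w + ε / 2) * X := by
    have h1 := (abs_le.1 (hsum J le_rfl)).2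
    rw [e2] at h1
    have h2 : ∑ m ∈ Finset.range M, w * dl T * PC T (b m) κ ≤ ∑ m ∈ Finset.range M,
        (∑ i ∈ Finset.range (2 * J + 1),
          GG (NS (Z0 T) (w * dl T)) ((b m + ((i : ℝ) - J) * w) * dl T)) := by
      refine Finset.sum_le_sum fun m _ => ?_
      have := (PC_bounds hd hw0 J (b m)).1
      rwa [hJw] at this
    rw [← Finset.mul_sum] at h2
    have h3 : w * dl T * (1 / (M : ℝ) * ∑ m ∈ Finset.range M, PC T (b m) κ) ≤
        (2 * J + 1) * (w ^ 2 * T) + ε / 2 * w * T := by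
      have h4 := mul_le_mul_of_nonneg_left h2 (show 0 ≤ 1 / (M : ℝ) by positivity)
      have e3 : 1 / (M : ℝ) * (w * dl T * ∑ m ∈ Finset.range M, PC T (b m) κ) =
          w * dl T * (1 / (M : ℝ) * ∑ m ∈ Finset.range M, PC T (b m) κ) := by ring
      rw [e3] at h4
      linarith
    have e4 : (2 * (J : ℝ) + 1) * (w ^ 2 * T) + ε / 2 * w * T =
        w * dl T * ((2 * κ + w + ε / 2) * X) := by
      have : w * dl T * ((2 * κ + w + ε / 2) * X) = w * (2 * κ + w + ε / 2) * (dl T * X) := by ring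
      rw [this, hdX, ← hJw]
      ring
    rw [e4] at h3
    exact le_of_mul_le_mul_left h3 hwd
  -- the lower bound
  have hlow : (2 * κ - w - ε / 2) * X ≤ 1 / (M : ℝ) * ∑ m ∈ Finset.range M, PC T (b m) κ := by
    obtain ⟨I, hI⟩ : ∃ I : ℕ, J = I + 1 := ⟨J - 1, by omega⟩
    have hIJ : (J : ℝ) = I + 1 := by rw [hI]; push_cast; ring
    have h1 := (abs_le.1 (hsum I (by rw [hIJ]; linarith))).1
    rw [e2] at h1
    have h2 : ∑ m ∈ Finset.range M,
        (∑ i ∈ Finset.range (2 * I + 1),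
          GG (NS (Z0 T) (w * dl T)) ((b m + ((i : ℝ) - I) * w) * dl T)) ≤
        ∑ m ∈ Finset.range M, w * dl T * PC T (b m) κ := by
      refine Finset.sum_le_sum fun m _ => ?_
      have := (PC_bounds hd hw0 I (b m)).2
      have e5 : ((I + 1 : ℕ) : ℝ) * w = κ := by rw [← hJw, hI]
      rwa [e5] at this
    rw [← Finset.mul_sum] at h2
    have h3 : (2 * I + 1) * (w ^ 2 * T) - ε / 2 * w * T ≤
        w * dl T * (1 / (M : ℝ) * ∑ m ∈ Finset.range M, PC T (b m) κ) := by
      have h4 := mul_le_mul_of_nonneg_left h2 (show 0 ≤ 1 / (M : ℝ) by positivity)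
      have e3 : 1 / (M : ℝ) * (w * dl T * ∑ m ∈ Finset.range M, PC T (b m) κ) =
          w * dl T * (1 / (M : ℝ) * ∑ m ∈ Finset.range M, PC T (b m) κ) := by ring
      rw [e3] at h4
      linarith
    have e4 : (2 * (I : ℝ) + 1) * (w ^ 2 * T) - ε / 2 * w * T =
        w * dl T * ((2 * κ - w - ε / 2) * X) := by
      have : w * dl T * ((2 * κ - w - ε / 2) * X) = w * (2 * κ - w - ε / 2) * (dl T * X) := by ring
      rw [this, hdX, ← hJw, hIJ]
      ring
    rw [e4] at h3
    exact le_of_mul_le_mul_left h3 hwd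
  rw [← hX]
  have h5 : (w + ε / 2) * X ≤ ε * (T * Real.log T) := by
    have h6 : (w + ε / 2) * X ≤ ε * X := mul_le_mul_of_nonneg_right (by linarith) hX0.le
    have h7 : ε * X ≤ ε * (T * Real.log T) := mul_le_mul_of_nonneg_left hXle hε.le
    linarith
  rw [abs_le]
  constructor
  · linarith
  · linarith

end Pool.Agent.V1161.CM
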