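import Pool.Agent.H336R2.V.ExistsLam

set_option autoImplicit false

/-!
# The mean value of the prediction of the pair correlation conjecture
-/

namespace Pool.Agent.V1161.CM

open MeasureTheory Set

/-- the value predicted by the pair correlation conjecture -/
noncomputable def g (a : ℝ) : ℝ := ∫ u in (0 : ℝ)..a, (1 - Real.sinc (Real.pi * u) ^ 2)

lemma cont_phi : Continuous fun u : ℝ => Real.sinc (Real.pi * u) ^ 2 :=
  (Real.continuous_sinc.comp (continuous_const.mul continuous_id)).pow 2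

lemma g_cont : Continuous g := by
  unfold g
  exact intervalIntegral.continuous_primitive
    (fun a b => (continuous_const.sub cont_phi).intervalIntegrable a b) 0

lemma int_g (A : ℝ) : ∫ a in (0 : ℝ)..A, g a =
    A ^ 2 / 2 - A * (∫ u in (0 : ℝ)..A, Real.sinc (Real.pi * u) ^ 2) +
      ∫ u in (0 : ℝ)..A, u * Real.sinc (Real.pi * u) ^ 2 := by
  have hd : ∀ a : ℝ, HasDerivAt g (1 - Real.sinc (Real.pi * a) ^ 2) a := by
    intro a
    have hc : Continuous fun u : ℝ => 1 - Real.sinc (Real.pi * u) ^ 2 :=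
      continuous_const.sub cont_phi
    exact intervalIntegral.integral_hasDerivAt_right (hc.intervalIntegrable 0 a)
      (hc.stronglyMeasurableAtFilter _ _) hc.continuousAt
  have h1 := intervalIntegral.integral_mul_deriv_eq_deriv_mul (a := 0) (b := A)
    (u := fun a => a - A) (v := g) (u' := fun _ => 1)
    (v' := fun a => 1 - Real.sinc (Real.pi * a) ^ 2)
    (fun a _ => (hasDerivAt_id a).sub_const A) (fun a _ => hd a)
    (continuous_const.intervalIntegrable _ _)
    ((continuous_const.sub cont_phi).intervalIntegrable _ _)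
  have h0 : g 0 = 0 := by
    unfold g
    exact intervalIntegral.integral_same
  simp only [sub_self, zero_mul, h0, mul_zero, one_mul, zero_sub] at h1
  have i1 : IntervalIntegrable (fun u : ℝ => u) volume 0 A := continuous_id.intervalIntegrable _ _
  have i2 : IntervalIntegrable (fun u : ℝ => u * Real.sinc (Real.pi * u) ^ 2) volume 0 A :=
    (continuous_id.mul cont_phi).intervalIntegrable _ _
  have i3 : IntervalIntegrable (fun u : ℝ => A * Real.sinc (Real.pi * u) ^ 2) volume 0 A :=
    (continuous_const.mul cont_phi).intervalIntegrable _ _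
  have i4 : IntervalIntegrable (fun _ : ℝ => A) volume 0 A := continuous_const.intervalIntegrable _ _
  have h2 : ∫ a in (0 : ℝ)..A, (a - A) * (1 - Real.sinc (Real.pi * a) ^ 2) =
      ∫ a in (0 : ℝ)..A, ((a - A) - (a * Real.sinc (Real.pi * a) ^ 2 -
        A * Real.sinc (Real.pi * a) ^ 2)) := by
    refine intervalIntegral.integral_congr fun a _ => ?_
    ring
  rw [h2, intervalIntegral.integral_sub (i1.sub i4) (i2.sub i3),
    intervalIntegral.integral_sub i1 i4, intervalIntegral.integral_sub i2 i3, integral_id,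
    intervalIntegral.integral_const, intervalIntegral.integral_const_mul, smul_eq_mul] at h1
  linarith

lemma first_part {A : ℝ} (hA : 1 ≤ A) :
    |A * (∫ u in (0 : ℝ)..A, Real.sinc (Real.pi * u) ^ 2) - A / 2| ≤ 1 := by
  have hA0 : 0 < A := by linarith
  have hi := H336V.ExistsLam.sinc_sq_integrable
  have h1 := H336V.ExistsLam.integral_sinc_sq
  have h2 := intervalIntegral.integral_interval_add_Ioi (a := 0) (b := A)
    (f := fun w : ℝ => Real.sinc (Real.pi * w) ^ 2) hi.integrableOn hi.integrableOn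
  rw [h1] at h2
  have h3 : 0 ≤ ∫ w in Ioi A, Real.sinc (Real.pi * w) ^ 2 :=
    setIntegral_nonneg measurableSet_Ioi fun _ _ => sq_nonneg _
  have h4 : ∫ w in Ioi A, Real.sinc (Real.pi * w) ^ 2 ≤ 1 / A := by
    have h5 : ∫ w in Ioi A, Real.sinc (Real.pi * w) ^ 2 ≤ ∫ w in Ioi A, w ^ (-2 : ℝ) := by
      refine setIntegral_mono_on hi.integrableOn
        (integrableOn_Ioi_rpow_of_lt (by norm_num) hA0) measurableSet_Ioi fun w hw => ?_
      exact H336V.ExistsLam.sinc_sq_le_inv (hA0.trans hw)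
    refine h5.trans (le_of_eq ?_)
    rw [integral_Ioi_rpow_of_lt (by norm_num) hA0]
    have : (-2 : ℝ) + 1 = -1 := by norm_num
    rw [this, Real.rpow_neg_one]
    field_simp
  have h6 : ∫ u in (0 : ℝ)..A, Real.sinc (Real.pi * u) ^ 2 =
      1 / 2 - ∫ w in Ioi A, Real.sinc (Real.pi * w) ^ 2 := by linarith
  rw [h6]
  have h7 : A * (∫ w in Ioi A, Real.sinc (Real.pi * w) ^ 2) ≤ 1 := by
    have := mul_le_mul_of_nonneg_left h4 hA0.le
    rwa [mul_one_div_cancel hA0.ne'] at this
  have h8 : 0 ≤ A * (∫ w in Ioi A, Real.sinc (Real.pi * w) ^ 2) := mul_nonneg hA0.le h3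
  rw [abs_le]
  constructor
  · linarith
  · linarith

lemma cos_part {A : ℝ} (hA : 1 ≤ A) :
    |∫ u in (1 : ℝ)..A, Real.cos (2 * Real.pi * u) * u⁻¹| ≤ 1 := by
  have hpi := Real.pi_pos
  have hpi3 := Real.pi_gt_three
  have hA0 : 0 < A := by linarith
  have hne : ∀ x ∈ uIcc (1 : ℝ) A, x ≠ 0 := by
    intro x hx
    rw [uIcc_of_le hA] at hx
    have := hx.1
    linarith
  have hcos : Continuous fun x : ℝ => Real.cos (2 * Real.pi * x) := by fun_prop
  have hinv : ContinuousOn (fun x : ℝ => -(x ^ 2)⁻¹) (uIcc 1 A) :=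
    (ContinuousOn.inv₀ (by fun_prop) fun x hx => pow_ne_zero 2 (hne x hx)).neg
  have h1 := intervalIntegral.integral_deriv_mul_eq_sub (a := 1) (b := A)
    (u := fun x => Real.sin (2 * Real.pi * x) / (2 * Real.pi)) (v := fun x => x⁻¹)
    (u' := fun x => Real.cos (2 * Real.pi * x)) (v' := fun x => -(x ^ 2)⁻¹)
    (fun x _ => by
      have := ((hasDerivAt_id x).const_mul (2 * Real.pi)).sin.div_const (2 * Real.pi)
      refine this.congr_deriv ?_
      simp only [id]
      field_simp)
    (fun x hx => hasDerivAt_inv (hne x hx))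
    (hcos.intervalIntegrable _ _) (hinv.intervalIntegrable)
  have i1 : IntervalIntegrable (fun x : ℝ => Real.cos (2 * Real.pi * x) * x⁻¹) volume 1 A :=
    (hcos.continuousOn.mul (ContinuousOn.inv₀ continuousOn_id hne)).intervalIntegrable
  have i2 : IntervalIntegrable (fun x : ℝ => Real.sin (2 * Real.pi * x) / (2 * Real.pi) *
      -(x ^ 2)⁻¹) volume 1 A := by
    refine ContinuousOn.intervalIntegrable (ContinuousOn.mul ?_ hinv)
    exact Continuous.continuousOn (by fun_prop)
  rw [intervalIntegral.integral_add i1 i2] at h1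
  have h2 : |∫ x in (1 : ℝ)..A, Real.sin (2 * Real.pi * x) / (2 * Real.pi) * -(x ^ 2)⁻¹| ≤
      ∫ x in (1 : ℝ)..A, 1 / 4 * (x ^ 2)⁻¹ := by
    rw [← Real.norm_eq_abs]
    refine intervalIntegral.norm_integral_le_of_norm_le hA ?_ ?_
    · refine Filter.Eventually.of_forall fun x hx => ?_
      rw [norm_mul, norm_neg, Real.norm_eq_abs, Real.norm_eq_abs, abs_of_nonneg
        (show 0 ≤ (x ^ 2)⁻¹ by positivity)]
      refine mul_le_mul_of_nonneg_right ?_ (by positivity)
      rw [abs_div, abs_of_pos (show 0 < 2 * Real.pi by positivity), div_le_div_iff₀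
        (by positivity) (by norm_num)]
      have := Real.abs_sin_le_one (2 * Real.pi * x)
      linarith
    · refine (ContinuousOn.mul continuousOn_const ?_).intervalIntegrable
      exact ContinuousOn.inv₀ (by fun_prop) fun x hx => pow_ne_zero 2 (hne x hx)
  have h3 : ∫ x in (1 : ℝ)..A, 1 / 4 * (x ^ 2)⁻¹ ≤ 1 / 4 := by
    rw [intervalIntegral.integral_const_mul]
    have h4 : ∫ x in (1 : ℝ)..A, (x ^ 2)⁻¹ = 1 - A⁻¹ := by
      have h5 := intervalIntegral.integral_eq_sub_of_hasDerivAt (a := 1) (b := A)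
        (f := fun x : ℝ => -x⁻¹) (f' := fun x => (x ^ 2)⁻¹)
        (fun x hx => by
          have := (hasDerivAt_inv (hne x hx)).fun_neg
          simpa using this)
        (ContinuousOn.intervalIntegrable
          (ContinuousOn.inv₀ (by fun_prop) fun x hx => pow_ne_zero 2 (hne x hx)))
      rw [h5]
      simp
      ring
    rw [h4]
    have : 0 ≤ A⁻¹ := by positivity
    linarith
  have h6 : |Real.sin (2 * Real.pi * A) / (2 * Real.pi) * A⁻¹| ≤ 1 / 4 := by
    rw [abs_mul, abs_div, abs_of_pos (show 0 < 2 * Real.pi by positivity), abs_of_pos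
      (show 0 < A⁻¹ by positivity)]
    have h7 := Real.abs_sin_le_one (2 * Real.pi * A)
    have h8 : A⁻¹ ≤ 1 := inv_le_one_of_one_le₀ hA
    have h9 : |Real.sin (2 * Real.pi * A)| / (2 * Real.pi) ≤ 1 / 4 := by
      rw [div_le_div_iff₀ (by positivity) (by norm_num)]
      linarith
    have h10 : 0 ≤ A⁻¹ := by positivity
    nlinarith
  have h11 : Real.sin (2 * Real.pi * 1) = 0 := by rw [mul_one]; exact Real.sin_two_pi
  rw [h11, zero_div, zero_mul, sub_zero] at h1
  have e : ∫ x in (1 : ℝ)..A, Real.cos (2 * Real.pi * x) * x⁻¹ =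
      Real.sin (2 * Real.pi * A) / (2 * Real.pi) * A⁻¹ -
      ∫ x in (1 : ℝ)..A, Real.sin (2 * Real.pi * x) / (2 * Real.pi) * -(x ^ 2)⁻¹ := by linarith
  rw [e]
  refine (abs_sub _ _).trans ?_
  linarith

lemma second_part {A : ℝ} (hA : 1 ≤ A) :
    |(∫ u in (0 : ℝ)..A, u * Real.sinc (Real.pi * u) ^ 2) -
      Real.log (1 + A) / (2 * Real.pi ^ 2)| ≤ 2 := by
  have hpi := Real.pi_pos
  have hpi3 := Real.pi_gt_three
  have hA0 : 0 < A := by linarith
  have hc : Continuous fun u : ℝ => u * Real.sinc (Real.pi * u) ^ 2 := continuous_id.mul cont_phi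
  rw [← intervalIntegral.integral_add_adjacent_intervals (hc.intervalIntegrable 0 1)
    (hc.intervalIntegrable 1 A)]
  have h1 : 0 ≤ ∫ u in (0 : ℝ)..1, u * Real.sinc (Real.pi * u) ^ 2 :=
    intervalIntegral.integral_nonneg (by norm_num) fun u hu => mul_nonneg hu.1 (sq_nonneg _)
  have h2 : ∫ u in (0 : ℝ)..1, u * Real.sinc (Real.pi * u) ^ 2 ≤ 1 := by
    have h3 : ∫ u in (0 : ℝ)..1, u * Real.sinc (Real.pi * u) ^ 2 ≤ ∫ _u in (0 : ℝ)..1, (1 : ℝ) := by
      refine intervalIntegral.integral_mono_on (by norm_num) (hc.intervalIntegrable 0 1)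
        (continuous_const.intervalIntegrable _ _) fun u hu => ?_
      have h4 := H336V.ExistsLam.sinc_sq_le_one u
      have h5 := hu.1
      have h6 := hu.2
      nlinarith [sq_nonneg (Real.sinc (Real.pi * u))]
    rw [intervalIntegral.integral_const] at h3
    simpa using h3
  have hne : ∀ x ∈ uIcc (1 : ℝ) A, x ≠ 0 := by
    intro x hx
    rw [uIcc_of_le hA] at hx
    have := hx.1
    linarith
  have h7 : ∫ u in (1 : ℝ)..A, u * Real.sinc (Real.pi * u) ^ 2 =
      ∫ u in (1 : ℝ)..A, (1 / (2 * Real.pi ^ 2)) * (u⁻¹ - Real.cos (2 * Real.pi * u) * u⁻¹) := by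
    refine intervalIntegral.integral_congr fun u hu => ?_
    have hu0 := hne u hu
    rw [Real.sinc_of_ne_zero (mul_ne_zero hpi.ne' hu0)]
    have h8 : Real.cos (2 * Real.pi * u) = 1 - 2 * Real.sin (Real.pi * u) ^ 2 := by
      have h9 : 2 * Real.pi * u = 2 * (Real.pi * u) := by ring
      rw [h9, Real.cos_two_mul]
      have := Real.sin_sq_add_cos_sq (Real.pi * u)
      linarith
    rw [h8]
    field_simp
    ring
  have i1 : IntervalIntegrable (fun x : ℝ => x⁻¹) volume 1 A :=
    (ContinuousOn.inv₀ continuousOn_id hne).intervalIntegrable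
  have i2 : IntervalIntegrable (fun x : ℝ => Real.cos (2 * Real.pi * x) * x⁻¹) volume 1 A := by
    refine ContinuousOn.intervalIntegrable (ContinuousOn.mul ?_
      (ContinuousOn.inv₀ continuousOn_id hne))
    exact Continuous.continuousOn (by fun_prop)
  rw [h7, intervalIntegral.integral_const_mul, intervalIntegral.integral_sub i1 i2,
    integral_inv_of_pos one_pos hA0, div_one]
  have h10 := cos_part hA
  have h11 : 0 ≤ Real.log (1 + A) - Real.log A := by
    have := Real.log_le_log hA0 (by linarith : A ≤ 1 + A)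
    linarith
  have h12 : Real.log (1 + A) - Real.log A ≤ 1 := by
    rw [← Real.log_div (by linarith) (by linarith)]
    have h13 := Real.log_le_sub_one_of_pos (show 0 < (1 + A) / A by positivity)
    have h14 : (1 + A) / A - 1 = 1 / A := by field_simp; ring
    rw [h14] at h13
    have h15 : 1 / A ≤ 1 := by rw [div_le_one hA0]; exact hA
    linarith
  have h16 : (0 : ℝ) < 1 / (2 * Real.pi ^ 2) := by positivity
  have h17 : 1 / (2 * Real.pi ^ 2) ≤ 1 / 2 := by
    apply one_div_le_one_div_of_le (by norm_num)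
    nlinarith
  obtain ⟨c, hc'⟩ : ∃ c : ℝ, c = 1 / (2 * Real.pi ^ 2) := ⟨_, rfl⟩
  have e1 : Real.log (1 + A) / (2 * Real.pi ^ 2) = c * Real.log (1 + A) := by
    rw [hc']; ring
  rw [e1, ← hc']
  rw [← hc'] at h16 h17
  obtain ⟨X, hX⟩ : ∃ X : ℝ, X = ∫ u in (1 : ℝ)..A, Real.cos (2 * Real.pi * u) * u⁻¹ := ⟨_, rfl⟩
  rw [← hX] at h10 ⊢
  have h18 := abs_le.1 h10
  rw [abs_le]
  constructor
  · nlinarith
  · nlinarith

/-- the mean value of the prediction -/
theorem mean_g : ∀ A : ℝ, 1 ≤ A →
    |(∫ a in (0 : ℝ)..A, g a) - (A ^ 2 / 2 - A / 2 + Real.log (1 + A) / (2 * Real.pi ^ 2))| ≤ 3 := by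
  intro A hA
  rw [int_g]
  have h1 := abs_le.1 (first_part hA)
  have h2 := abs_le.1 (second_part hA)
  rw [abs_le]
  constructor <;> linarith

end Pool.Agent.V1161.CM
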