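import Pool.Agent.TH850.UV.NVh
import Pool.Agent.V11270.KC.Zeta

set_option autoImplicit false

/-!
# The second moment of the counts and the pairs of zeros
-/

namespace Pool.Agent.V1161.CM

open MeasureTheory Set
open Pool.Agent.TH850.UV (NS mS mS_nonneg NS_nonneg NS_mono NS_le cnt cnt_eq)

/-- counts as sums of indicators -/
lemma NS_ind (S : Finset ℂ) (h t : ℝ) : NS S h t =
    ∑ s ∈ S, (Ico (s.im - h) s.im).indicator (fun _ => mS s) t := by
  unfold NS
  refine Finset.sum_congr rfl fun s _ => ?_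
  rw [Set.indicator_apply]
  by_cases h1 : t < s.im ∧ s.im ≤ t + h
  · rw [if_pos h1, if_pos ⟨by linarith [h1.2], h1.1⟩, mul_one]
  · rw [if_neg h1, if_neg (fun h2 => h1 ⟨h2.2, by linarith [h2.1]⟩), mul_zero]

lemma ind_int (a b c : ℝ) : Integrable ((Ico a b).indicator fun _ : ℝ => c) := by
  rw [integrable_indicator_iff measurableSet_Ico]
  exact integrableOn_const (by rw [Real.volume_Ico]; exact ENNReal.ofReal_ne_top)

lemma ind_val (a b c : ℝ) : ∫ t, (Ico a b).indicator (fun _ : ℝ => c) t = max (b - a) 0 * c := by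
  rw [integral_indicator_const _ measurableSet_Ico, Real.volume_real_Ico, smul_eq_mul]

lemma NS_int (S : Finset ℂ) (h : ℝ) : Integrable (NS S h) := by
  have : NS S h = fun t => ∑ s ∈ S, (Ico (s.im - h) s.im).indicator (fun _ => mS s) t :=
    funext fun t => NS_ind S h t
  rw [this]
  exact integrable_finsetSum _ fun s _ => ind_int _ _ _

lemma NS_integral (S : Finset ℂ) {h : ℝ} (hh : 0 ≤ h) : ∫ t, NS S h t = h * ∑ s ∈ S, mS s := by
  simp_rw [NS_ind]
  rw [integral_finsetSum _ fun s _ => ind_int _ _ _, Finset.mul_sum]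
  refine Finset.sum_congr rfl fun s _ => ?_
  rw [ind_val, max_eq_left (by linarith)]
  ring

lemma NS_sq (S : Finset ℂ) (h t : ℝ) : NS S h t ^ 2 = ∑ s ∈ S, ∑ s' ∈ S,
    (Ico (max (s.im - h) (s'.im - h)) (min s.im s'.im)).indicator (fun _ => mS s * mS s') t := by
  rw [sq, NS_ind, Finset.sum_mul_sum]
  refine Finset.sum_congr rfl fun s _ => Finset.sum_congr rfl fun s' _ => ?_
  rw [← Set.inter_indicator_mul, Set.Ico_inter_Ico]

lemma NS_sq_int (S : Finset ℂ) (h : ℝ) : Integrable fun t => NS S h t ^ 2 := by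
  simp_rw [NS_sq]
  exact integrable_finsetSum _ fun s _ => integrable_finsetSum _ fun s' _ => ind_int _ _ _

/-- the second moment of the counts -/
theorem NS_sq_integral (S : Finset ℂ) (h : ℝ) :
    ∫ t, NS S h t ^ 2 = ∑ s ∈ S, ∑ s' ∈ S, mS s * mS s' * max (h - |s.im - s'.im|) 0 := by
  simp_rw [NS_sq]
  rw [integral_finsetSum _ fun s _ => integrable_finsetSum _ fun s' _ => ind_int _ _ _]
  refine Finset.sum_congr rfl fun s _ => ?_
  rw [integral_finsetSum _ fun s' _ => ind_int _ _ _]
  refine Finset.sum_congr rfl fun s' _ => ?_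
  rw [ind_val]
  have : min s.im s'.im - max (s.im - h) (s'.im - h) = h - |s.im - s'.im| := by
    rcases le_total s.im s'.im with h1 | h1
    · rw [min_eq_left h1, max_eq_right (by linarith), abs_of_nonpos (by linarith)]
      ring
    · rw [min_eq_right h1, max_eq_left (by linarith), abs_of_nonneg (by linarith)]
      ring
  rw [this]
  ring

/-- pairs of equal ordinates -/
noncomputable def QS (S : Finset ℂ) : ℝ :=
  ∑ s ∈ S, ∑ s' ∈ S, mS s * mS s' * (if s.im = s'.im then 1 else 0)

/-- pairs of different ordinates -/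
noncomputable def PP (S : Finset ℂ) (h : ℝ) : ℝ :=
  ∑ s ∈ S, ∑ s' ∈ S, mS s * mS s' * (if 0 < s.im - s'.im then max (h - (s.im - s'.im)) 0 else 0)

theorem sq_eq (S : Finset ℂ) {h : ℝ} (hh : 0 ≤ h) :
    ∫ t, NS S h t ^ 2 = h * QS S + 2 * PP S h := by
  classical
  rw [NS_sq_integral S h]
  have h1 : PP S h = ∑ s ∈ S, ∑ s' ∈ S,
      mS s * mS s' * (if s.im - s'.im < 0 then max (h + (s.im - s'.im)) 0 else 0) := by
    unfold PP
    rw [Finset.sum_comm]
    refine Finset.sum_congr rfl fun s _ => Finset.sum_congr rfl fun s' _ => ?_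
    rw [mul_comm (mS s') (mS s)]
    congr 1
    by_cases h2 : s.im - s'.im < 0
    · rw [if_pos h2, if_pos (by linarith)]
      congr 1
      ring
    · rw [if_neg h2, if_neg (by linarith)]
  have h3 : h * QS S + 2 * PP S h = h * QS S + (PP S h + PP S h) := by ring
  rw [h3]
  nth_rewrite 2 [h1]
  unfold QS PP
  rw [Finset.mul_sum, ← Finset.sum_add_distrib, ← Finset.sum_add_distrib]
  refine Finset.sum_congr rfl fun s _ => ?_
  rw [Finset.mul_sum, ← Finset.sum_add_distrib, ← Finset.sum_add_distrib]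
  refine Finset.sum_congr rfl fun s' _ => ?_
  rcases lt_trichotomy s.im s'.im with h4 | h4 | h4
  · rw [if_neg h4.ne, if_neg (by linarith), if_pos (by linarith), abs_of_neg (by linarith)]
    have : h - -(s.im - s'.im) = h + (s.im - s'.im) := by ring
    rw [this]
    ring
  · rw [if_pos h4, if_neg (by linarith), if_neg (by linarith), h4, sub_self, abs_zero, sub_zero,
      max_eq_left hh]
    ring
  · rw [if_neg h4.ne', if_pos (by linarith), if_neg (by linarith), abs_of_pos (by linarith)]
    ring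

/-- integration over the length of the window -/
lemma win_int {d L A : ℝ} (hL : 0 < L) (hA : 0 ≤ A) :
    ∫ a in (0 : ℝ)..A, (if 0 < d ∧ d ≤ 2 * Real.pi * a / L then (1 : ℝ) else 0) =
      L / (2 * Real.pi) * (if 0 < d then max (2 * Real.pi * A / L - d) 0 else 0) := by
  have hpi := Real.pi_pos
  by_cases hd : 0 < d
  · rw [if_pos hd, intervalIntegral.integral_of_le hA]
    have h1 : ∀ a : ℝ, (if 0 < d ∧ d ≤ 2 * Real.pi * a / L then (1 : ℝ) else 0) =
        (Ici (d * L / (2 * Real.pi))).indicator (fun _ => (1 : ℝ)) a := by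
      intro a
      rw [Set.indicator_apply]
      refine if_congr ?_ rfl rfl
      rw [Set.mem_Ici, div_le_iff₀ (by positivity), le_div_iff₀ hL]
      constructor
      · rintro ⟨_, h2⟩
        linarith
      · intro h2
        exact ⟨hd, by linarith⟩
    simp_rw [h1]
    rw [integral_indicator measurableSet_Ici, Measure.restrict_restrict measurableSet_Ici]
    have h3 : Ici (d * L / (2 * Real.pi)) ∩ Ioc 0 A = Icc (d * L / (2 * Real.pi)) A := by
      ext x
      have h4 : 0 < d * L / (2 * Real.pi) := by positivity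
      rw [Set.mem_inter_iff, Set.mem_Ici, Set.mem_Ioc, Set.mem_Icc]
      constructor
      · rintro ⟨h5, _, h6⟩
        exact ⟨h5, h6⟩
      · rintro ⟨h5, h6⟩
        exact ⟨h5, by linarith, h6⟩
    rw [h3, setIntegral_const, Real.volume_real_Icc, smul_eq_mul, mul_one,
      mul_max_of_nonneg _ _ (show 0 ≤ L / (2 * Real.pi) by positivity), mul_zero]
    congr 1
    field_simp
  · rw [if_neg hd, mul_zero]
    have h1 : ∀ a : ℝ, (if 0 < d ∧ d ≤ 2 * Real.pi * a / L then (1 : ℝ) else 0) = 0 := by
      intro a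
      rw [if_neg fun h => hd h.1]
    simp_rw [h1]
    simp

end Pool.Agent.V1161.CM
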