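import Pool.Agent.V1161.CM.PD

set_option autoImplicit false

/-!
# Averages of correlations along sequences with small exponential sums
-/

namespace Pool.Agent.V1161.CM

open MeasureTheory Finset Filter Topology
open Pool.Agent.V11270.KC (Nice)

/-- reduction of the frequency -/
lemma cos_red (α : ℝ) (k : ℕ) : Real.cos (2 * Real.pi * (α * k)) =
    Real.cos (2 * Real.pi * (|α - round α| * k)) := by
  have h1 : Real.cos (2 * Real.pi * (|α - round α| * k)) =
      Real.cos (2 * Real.pi * ((α - round α) * k)) := by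
    rcases abs_choice (α - round α) with h | h
    · rw [h]
    · rw [h]
      have : 2 * Real.pi * (-(α - round α) * k) = -(2 * Real.pi * ((α - round α) * k)) := by ring
      rw [this, Real.cos_neg]
  rw [h1]
  have h2 : 2 * Real.pi * ((α - round α) * k) =
      2 * Real.pi * (α * k) - ((round α * k : ℤ) : ℝ) * (2 * Real.pi) := by
    push_cast
    ring
  rw [h2, Real.cos_sub_int_mul_two_pi]

/-- low frequencies -/
lemma low_freq {α : ℝ} {Q : ℕ} (hQ : 1 ≤ Q) (h0 : 0 ≤ α) (h1 : α * Q ≤ 1 / 6) :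
    1 / 2 ≤ 1 / (Q : ℝ) ^ 2 * ∑ p ∈ range Q ×ˢ range Q,
      Real.cos (2 * Real.pi * (α * (Nat.dist p.1 p.2 : ℕ))) := by
  have hQ0 : (0 : ℝ) < Q := by exact_mod_cast hQ
  have h2 : ∀ p ∈ range Q ×ˢ range Q,
      1 / 2 ≤ Real.cos (2 * Real.pi * (α * (Nat.dist p.1 p.2 : ℕ))) := by
    intro p hp
    rw [mem_product, mem_range, mem_range] at hp
    have h3 : Nat.dist p.1 p.2 ≤ Q := by
      unfold Nat.dist
      omega
    have h4 : ((Nat.dist p.1 p.2 : ℕ) : ℝ) ≤ Q := by exact_mod_cast h3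
    have h5 : α * (Nat.dist p.1 p.2 : ℕ) ≤ 1 / 6 :=
      (mul_le_mul_of_nonneg_left h4 h0).trans h1
    have h6 : 0 ≤ α * (Nat.dist p.1 p.2 : ℕ) := by positivity
    have hpi := Real.pi_pos
    rw [← Real.cos_pi_div_three]
    apply Real.cos_le_cos_of_nonneg_of_le_pi
    · positivity
    · linarith
    · have := mul_le_mul_of_nonneg_left h5 (show 0 ≤ 2 * Real.pi by positivity)
      linarith
  have h3 : ∑ _p ∈ range Q ×ˢ range Q, (1 / 2 : ℝ) ≤ ∑ p ∈ range Q ×ˢ range Q,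
      Real.cos (2 * Real.pi * (α * (Nat.dist p.1 p.2 : ℕ))) := Finset.sum_le_sum h2
  rw [Finset.sum_const, card_product, card_range, nsmul_eq_mul] at h3
  push_cast at h3
  have h4 := mul_le_mul_of_nonneg_left h3 (show 0 ≤ 1 / (Q : ℝ) ^ 2 by positivity)
  refine le_trans (le_of_eq ?_) h4
  field_simp

/-- the quadratic form is nonnegative at every frequency -/
lemma dist_nonneg (α : ℝ) (Q : ℕ) : 0 ≤ ∑ p ∈ range Q ×ˢ range Q,
      Real.cos (2 * Real.pi * (α * (Nat.dist p.1 p.2 : ℕ))) := by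
  have h1 : ∑ p ∈ range Q ×ˢ range Q, Real.cos (2 * Real.pi * (α * (Nat.dist p.1 p.2 : ℕ))) =
      (∑ q ∈ range Q, Real.cos (2 * Real.pi * (α * q))) ^ 2 +
      (∑ q ∈ range Q, Real.sin (2 * Real.pi * (α * q))) ^ 2 := by
    rw [sq, sq, Finset.sum_mul_sum, Finset.sum_mul_sum, ← Finset.sum_add_distrib,
      Finset.sum_product]
    refine Finset.sum_congr rfl fun p _ => ?_
    rw [← Finset.sum_add_distrib]
    refine Finset.sum_congr rfl fun q _ => ?_
    rw [← Real.cos_sub]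
    rcases le_total p q with h | h
    · rw [Nat.dist_eq_sub_of_le h, Nat.cast_sub h]
      have : 2 * Real.pi * (α * ((q : ℝ) - p)) =
          -(2 * Real.pi * (α * p) - 2 * Real.pi * (α * q)) := by ring
      rw [this, Real.cos_neg]
    · rw [Nat.dist_eq_sub_of_le_right h, Nat.cast_sub h]
      congr 1
      ring
  rw [h1]
  positivity

/-- geometric sums -/
lemma geo_cos {α : ℝ} (h0 : 0 < α) (h1 : α ≤ 1 / 2) (S : ℕ) :
    ∑ k ∈ range S, Real.cos (2 * Real.pi * (α * k)) ≤ 1 / (2 * α) := by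
  have hpi := Real.pi_pos
  have hs : 2 * α ≤ Real.sin (Real.pi * α) := by
    have h2 := Real.mul_le_sin (x := Real.pi * α) (by positivity) (by nlinarith)
    have h3 : 2 / Real.pi * (Real.pi * α) = 2 * α := by field_simp
    rwa [h3] at h2
  have hsp : 0 < Real.sin (Real.pi * α) := by linarith
  have key : ∀ n : ℕ, 2 * Real.sin (Real.pi * α) * ∑ k ∈ range n,
      Real.cos (2 * Real.pi * (α * k)) =
      Real.sin (Real.pi * α * (2 * n - 1)) + Real.sin (Real.pi * α) := by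
    intro n
    induction n with
    | zero =>
      have : Real.pi * α * (2 * ((0 : ℕ) : ℝ) - 1) = -(Real.pi * α) := by push_cast; ring
      rw [sum_range_zero, mul_zero, this, Real.sin_neg]
      ring
    | succ n ih =>
      rw [sum_range_succ, mul_add, ih]
      have h4 : 2 * Real.sin (Real.pi * α) * Real.cos (2 * Real.pi * (α * n)) =
          Real.sin (Real.pi * α * (2 * ((n + 1 : ℕ) : ℝ) - 1)) -
          Real.sin (Real.pi * α * (2 * n - 1)) := by
        have e1 : Real.pi * α * (2 * ((n + 1 : ℕ) : ℝ) - 1) =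
            2 * Real.pi * (α * n) + Real.pi * α := by push_cast; ring
        have e2 : Real.pi * α * (2 * n - 1) = 2 * Real.pi * (α * n) - Real.pi * α := by ring
        rw [e1, e2, Real.sin_add, Real.sin_sub]
        ring
      rw [h4]
      ring
  have h5 := key S
  obtain ⟨X, hX⟩ : ∃ X : ℝ, X = ∑ k ∈ range S, Real.cos (2 * Real.pi * (α * k)) := ⟨_, rfl⟩
  rw [← hX] at h5 ⊢
  have h6 := Real.sin_le_one (Real.pi * α * (2 * S - 1))
  have h7 : 2 * Real.sin (Real.pi * α) * X ≤ 2 := by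
    rw [h5]
    linarith [Real.sin_le_one (Real.pi * α)]
  rw [le_div_iff₀ (by positivity)]
  rcases le_or_gt X 0 with h8 | h8
  · nlinarith
  · nlinarith

/-- high frequencies -/
lemma high_freq {α : ℝ} {S : ℕ} (h0 : 0 < α) (h1 : α ≤ 1 / 2) (h2 : 1 ≤ α * S) :
    1 / 2 ≤ 1 / (S : ℝ) * ∑ k ∈ range S, (1 - Real.cos (2 * Real.pi * (α * k))) := by
  have hS0 : (0 : ℝ) < S := by
    by_contra hc
    have : (S : ℝ) = 0 := le_antisymm (not_lt.1 hc) (Nat.cast_nonneg _)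
    rw [this, mul_zero] at h2
    linarith
  rw [Finset.sum_sub_distrib, Finset.sum_const, card_range, nsmul_eq_mul, mul_one]
  have h3 := geo_cos h0 h1 S
  have h4 : 1 / (2 * α) ≤ S / 2 := by
    rw [div_le_div_iff₀ (by positivity) (by norm_num)]
    linarith
  rw [one_div (S : ℝ), inv_mul_eq_div, le_div_iff₀ hS0]
  linarith

/-- the frequency inequality -/
lemma freq {M Q S : ℕ} (hQ : 1 ≤ Q) (B : ℕ → ℕ) {ε η R : ℝ} (hε : 0 ≤ ε)
    (hη : η * Q ≤ 1 / 6) (hR : 1 ≤ R * S) (hR0 : 0 < R)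
    (h : ∀ α : ℝ, η ≤ α → α ≤ R →
      |1 / (M : ℝ) * ∑ m ∈ range M, Real.cos (2 * Real.pi * (α * B m))| ≤ ε) (σ : ℝ)
    (hσ : |σ| ≤ 1) (α : ℝ) :
    0 ≤ ε + 2 * (1 / (Q : ℝ) ^ 2 * ∑ p ∈ range Q ×ˢ range Q,
        Real.cos (2 * Real.pi * (α * (Nat.dist p.1 p.2 : ℕ)))) +
      2 * (1 / (S : ℝ) * ∑ k ∈ range S, (1 - Real.cos (2 * Real.pi * (α * k)))) +
      σ * (1 / (M : ℝ) * ∑ m ∈ range M, Real.cos (2 * Real.pi * (α * B m))) := by
  have hred : ∀ k : ℕ, Real.cos (2 * Real.pi * (α * k)) =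
      Real.cos (2 * Real.pi * (|α - round α| * k)) := cos_red α
  simp_rw [hred]
  obtain ⟨β, hβ⟩ : ∃ β : ℝ, β = |α - round α| := ⟨_, rfl⟩
  rw [← hβ]
  have hβ0 : 0 ≤ β := by rw [hβ]; exact abs_nonneg _
  have hβ1 : β ≤ 1 / 2 := by rw [hβ]; exact abs_sub_round α
  have hA1 : |1 / (M : ℝ) * ∑ m ∈ range M, Real.cos (2 * Real.pi * (β * B m))| ≤ 1 := by
    rcases Nat.eq_zero_or_pos M with h0 | h0
    · subst h0
      simp
    · have hM0 : (0 : ℝ) < M := by exact_mod_cast h0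
      rw [abs_mul, abs_of_pos (show 0 < 1 / (M : ℝ) by positivity), one_div, inv_mul_eq_div,
        div_le_one hM0]
      refine (Finset.abs_sum_le_sum_abs _ _).trans ?_
      calc ∑ m ∈ range M, |Real.cos (2 * Real.pi * (β * B m))| ≤ ∑ _m ∈ range M, (1 : ℝ) :=
            Finset.sum_le_sum fun m _ => Real.abs_cos_le_one _
        _ = M := by simp
  have hD0 : 0 ≤ 2 * (1 / (Q : ℝ) ^ 2 * ∑ p ∈ range Q ×ˢ range Q,
      Real.cos (2 * Real.pi * (β * (Nat.dist p.1 p.2 : ℕ)))) := by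
    have := dist_nonneg β Q
    positivity
  have hH0 : 0 ≤ 2 * (1 / (S : ℝ) * ∑ k ∈ range S, (1 - Real.cos (2 * Real.pi * (β * k)))) := by
    have : 0 ≤ ∑ k ∈ range S, (1 - Real.cos (2 * Real.pi * (β * k))) :=
      Finset.sum_nonneg fun k _ => by linarith [Real.cos_le_one (2 * Real.pi * (β * k))]
    positivity
  obtain ⟨A, hA⟩ : ∃ A : ℝ, A = 1 / (M : ℝ) * ∑ m ∈ range M,
    Real.cos (2 * Real.pi * (β * B m)) := ⟨_, rfl⟩
  have hσA : -|A| ≤ σ * A := by
    have h1 : |σ * A| ≤ |A| := by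
      rw [abs_mul]
      have := abs_nonneg A
      nlinarith
    have h2 := neg_abs_le (σ * A)
    linarith
  have hh := h β
  rw [← hA] at hh hA1 ⊢
  rcases le_or_gt β η with h1 | h1
  · have h2 := low_freq hQ hβ0 (show β * Q ≤ 1 / 6 by
      have : (0 : ℝ) ≤ Q := Nat.cast_nonneg _
      nlinarith)
    linarith
  · rcases le_or_gt β R with h2 | h2
    · have h3 := hh h1.le h2
      linarith
    · have hS : (0 : ℝ) ≤ S := Nat.cast_nonneg _
      have h3 := high_freq (S := S) (hR0.trans h2) hβ1 (by nlinarith)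
      linarith

/-- averages of correlations -/
theorem avg_corr {M Q S : ℕ} (hQ : 1 ≤ Q) (hM : 1 ≤ M) (B : ℕ → ℕ) {ε η R : ℝ} (hε : 0 ≤ ε)
    (hη : η * Q ≤ 1 / 6) (hR : 1 ≤ R * S) (hR0 : 0 < R)
    (h : ∀ α : ℝ, η ≤ α → α ≤ R →
      |1 / (M : ℝ) * ∑ m ∈ range M, Real.cos (2 * Real.pi * (α * B m))| ≤ ε)
    {f : ℝ → ℝ} (hf : Nice f) {r : ℝ} (hr : 0 < r) :
    |1 / (M : ℝ) * ∑ m ∈ range M, GG f (r * B m)| ≤ ε * GG f 0 +
      2 * (∫ t, (1 / (Q : ℝ) * ∑ q ∈ range Q, f (t + r * q)) ^ 2) +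
      2 * (1 / (S : ℝ) * ∑ k ∈ range S, (GG f 0 - GG f (r * k))) := by
  classical
  have hQ0 : (0 : ℝ) < Q := by exact_mod_cast hQ
  have hS0 : (0 : ℝ) < S := by
    by_contra hc
    have : (S : ℝ) = 0 := le_antisymm (not_lt.1 hc) (Nat.cast_nonneg _)
    rw [this, mul_zero] at hR
    linarith
  -- the smoothed function
  have hsm : ∫ t, (1 / (Q : ℝ) * ∑ q ∈ range Q, f (t + r * q)) ^ 2 =
      1 / (Q : ℝ) ^ 2 * ∑ p ∈ range Q ×ˢ range Q, GG f (r * (Nat.dist p.1 p.2 : ℕ)) := by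
    have e1 : ∀ t, (1 / (Q : ℝ) * ∑ q ∈ range Q, f (t + r * q)) ^ 2 =
        1 / (Q : ℝ) ^ 2 * ∑ p ∈ range Q ×ˢ range Q, f (t + r * p.1) * f (t + r * p.2) := by
      intro t
      rw [mul_pow, sq (∑ q ∈ range Q, f (t + r * q)), Finset.sum_mul_sum, ← Finset.sum_product']
      ring
    simp_rw [e1]
    rw [integral_const_mul, integral_finsetSum]
    · congr 1
      refine Finset.sum_congr rfl fun p _ => ?_
      rw [GG_two]
      rcases le_total p.1 p.2 with h1 | h1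
      · rw [Nat.dist_eq_sub_of_le h1, Nat.cast_sub h1]
        congr 1
        ring
      · rw [Nat.dist_eq_sub_of_le_right h1, Nat.cast_sub h1, ← GG_neg]
        congr 1
        ring
    · intro p _
      exact ((hf.comp _).mul (hf.comp _)).integrable
  rw [hsm]
  have main : ∀ σ : ℝ, |σ| ≤ 1 → 0 ≤ ε * GG f 0 +
      2 * (1 / (Q : ℝ) ^ 2 * ∑ p ∈ range Q ×ˢ range Q, GG f (r * (Nat.dist p.1 p.2 : ℕ))) +
      2 * (1 / (S : ℝ) * ∑ k ∈ range S, (GG f 0 - GG f (r * k))) +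
      σ * (1 / (M : ℝ) * ∑ m ∈ range M, GG f (r * B m)) := by
    intro σ hσ
    -- the index set
    obtain ⟨s, hs⟩ : ∃ s : Finset ((Unit ⊕ (ℕ × ℕ)) ⊕ (ℕ ⊕ ℕ)), s =
      ((univ : Finset Unit).disjSum (range Q ×ˢ range Q)).disjSum
        ((range S).disjSum (range M)) := ⟨_, rfl⟩
    obtain ⟨ν, hν⟩ : ∃ ν : ((Unit ⊕ (ℕ × ℕ)) ⊕ (ℕ ⊕ ℕ)) → ℝ, ν =
      Sum.elim (Sum.elim (fun _ => ε + 2) (fun _ => 2 * (1 / (Q : ℝ) ^ 2)))
        (Sum.elim (fun _ => -(2 * (1 / (S : ℝ)))) (fun _ => σ * (1 / (M : ℝ)))) := ⟨_, rfl⟩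
    obtain ⟨γ, hγ⟩ : ∃ γ : ((Unit ⊕ (ℕ × ℕ)) ⊕ (ℕ ⊕ ℕ)) → ℕ, γ =
      Sum.elim (Sum.elim (fun _ => 0) (fun p => Nat.dist p.1 p.2))
        (Sum.elim (fun k => k) (fun m => B m)) := ⟨_, rfl⟩
    have hgen : ∀ F : ℕ → ℝ, ∑ x ∈ s, ν x * F (γ x) = ε * F 0 +
        2 * (1 / (Q : ℝ) ^ 2 * ∑ p ∈ range Q ×ˢ range Q, F (Nat.dist p.1 p.2)) +
        2 * (1 / (S : ℝ) * ∑ k ∈ range S, (F 0 - F k)) +
        σ * (1 / (M : ℝ) * ∑ m ∈ range M, F (B m)) := by
      intro F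
      rw [hs, hν, hγ]
      simp only [Finset.sum_disjSum, Sum.elim_inl, Sum.elim_inr, Finset.univ_unique,
        Finset.sum_singleton]
      rw [← Finset.mul_sum, ← Finset.mul_sum, ← Finset.mul_sum, Finset.sum_sub_distrib,
        Finset.sum_const, card_range, nsmul_eq_mul]
      field_simp
      ring
    have h1 := real_pd s ν γ (fun α => by
      have h2 := hgen (fun k => Real.cos (2 * Real.pi * (α * (k : ℝ))))
      rw [h2]
      have h3 := freq hQ B hε hη hR hR0 h σ hσ α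
      simp only [Nat.cast_zero, mul_zero, Real.cos_zero, mul_one]
      exact h3) hf hr
    have h4 := hgen (fun k => ∫ t, f t * f (t + r * (k : ℝ)))
    rw [h4] at h1
    refine h1.trans (le_of_eq ?_)
    unfold GG
    simp only [Nat.cast_zero, mul_zero, add_zero]
  have m1 := main 1 (by norm_num)
  have m2 := main (-1) (by norm_num)
  rw [abs_le]
  constructor <;> linarith

end Pool.Agent.V1161.CM
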