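import Pool.Agent.V1161.CM.Fin

set_option autoImplicit false

/-!
# The mean ergodic theorem for the counts of zeros along sequences
-/

namespace Pool.Agent.V1161.CM

open MeasureTheory Filter Topology
open Pool.Agent.TH850.UV (NS mS mS_nonneg NS_nonneg NS_mono NS_le)
open Pool.Agent.V11270.KC (Z0 mem_Z0 Z0_mono Nice count_all)

/-- a one-sided bound for averages of correlations -/
theorem avg_up {ι : Type} {Q S : ℕ} (hQ : 1 ≤ Q) (U : Finset ι) (hU : 1 ≤ U.card) (B : ι → ℕ)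
    {ε η R : ℝ} (hε : 0 ≤ ε)
    (hη : η * Q ≤ 1 / 6) (hR : 1 ≤ R * S) (hR0 : 0 < R)
    (h : ∀ α : ℝ, η ≤ α → α ≤ R →
      1 / (U.card : ℝ) * ∑ u ∈ U, Real.cos (2 * Real.pi * (α * B u)) ≤ ε)
    {f : ℝ → ℝ} (hf : Nice f) {r : ℝ} (hr : 0 < r) :
    1 / (U.card : ℝ) * ∑ u ∈ U, GG f (r * B u) ≤ ε * GG f 0 +
      2 * (∫ t, (1 / (Q : ℝ) * ∑ q ∈ Finset.range Q, f (t + r * q)) ^ 2) +
      2 * (1 / (S : ℝ) * ∑ k ∈ Finset.range S, (GG f 0 - GG f (r * k))) := by
  classical
  have hQ0 : (0 : ℝ) < Q := by exact_mod_cast hQ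
  have hU0 : (0 : ℝ) < U.card := by exact_mod_cast hU
  have hS0 : (0 : ℝ) < S := by
    by_contra hc
    have : (S : ℝ) = 0 := le_antisymm (not_lt.1 hc) (Nat.cast_nonneg _)
    rw [this, mul_zero] at hR
    linarith
  have hsm : ∫ t, (1 / (Q : ℝ) * ∑ q ∈ Finset.range Q, f (t + r * q)) ^ 2 =
      1 / (Q : ℝ) ^ 2 * ∑ p ∈ Finset.range Q ×ˢ Finset.range Q,
        GG f (r * (Nat.dist p.1 p.2 : ℕ)) := by
    have e1 : ∀ t, (1 / (Q : ℝ) * ∑ q ∈ Finset.range Q, f (t + r * q)) ^ 2 =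
        1 / (Q : ℝ) ^ 2 * ∑ p ∈ Finset.range Q ×ˢ Finset.range Q,
          f (t + r * p.1) * f (t + r * p.2) := by
      intro t
      rw [mul_pow, sq (∑ q ∈ Finset.range Q, f (t + r * q)), Finset.sum_mul_sum,
        ← Finset.sum_product']
      ring
    simp_rw [e1]
    rw [integral_const_mul, integral_finsetSum]
    · congr 1
      refine Finset.sum_congr rfl fun p _ => ?_
      rw [GG_two]
      rcases le_total p.1 p.2 with h1 | h1
      · rw [Nat.dist_eq_sub_of_le h1, Nat.cast_sub h1]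
        congr 1
        ring
      · rw [Nat.dist_eq_sub_of_le_right h1, Nat.cast_sub h1, ← GG_neg]
        congr 1
        ring
    · intro p _
      exact ((hf.comp _).mul (hf.comp _)).integrable
  rw [hsm]
  obtain ⟨s, hs⟩ : ∃ s : Finset ((Unit ⊕ (ℕ × ℕ)) ⊕ (ℕ ⊕ ι)), s =
    ((Finset.univ : Finset Unit).disjSum (Finset.range Q ×ˢ Finset.range Q)).disjSum
      ((Finset.range S).disjSum U) := ⟨_, rfl⟩
  obtain ⟨ν, hν⟩ : ∃ ν : ((Unit ⊕ (ℕ × ℕ)) ⊕ (ℕ ⊕ ι)) → ℝ, ν =
    Sum.elim (Sum.elim (fun _ => ε + 2) (fun _ => 2 * (1 / (Q : ℝ) ^ 2)))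
      (Sum.elim (fun _ => -(2 * (1 / (S : ℝ)))) (fun _ => -(1 / (U.card : ℝ)))) := ⟨_, rfl⟩
  obtain ⟨γ, hγ⟩ : ∃ γ : ((Unit ⊕ (ℕ × ℕ)) ⊕ (ℕ ⊕ ι)) → ℕ, γ =
    Sum.elim (Sum.elim (fun _ => 0) (fun p => Nat.dist p.1 p.2))
      (Sum.elim (fun k => k) (fun m => B m)) := ⟨_, rfl⟩
  have hgen : ∀ F : ℕ → ℝ, ∑ x ∈ s, ν x * F (γ x) = ε * F 0 +
      2 * (1 / (Q : ℝ) ^ 2 * ∑ p ∈ Finset.range Q ×ˢ Finset.range Q, F (Nat.dist p.1 p.2)) +
      2 * (1 / (S : ℝ) * ∑ k ∈ Finset.range S, (F 0 - F k)) -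
      (1 / (U.card : ℝ) * ∑ m ∈ U, F (B m)) := by
    intro F
    rw [hs, hν, hγ]
    simp only [Finset.sum_disjSum, Sum.elim_inl, Sum.elim_inr, Finset.univ_unique,
      Finset.sum_singleton]
    rw [← Finset.mul_sum, ← Finset.mul_sum, ← Finset.mul_sum, Finset.sum_sub_distrib,
      Finset.sum_const, Finset.card_range, nsmul_eq_mul]
    field_simp
    ring
  have h1 := real_pd s ν γ (fun α => by
    have h2 := hgen (fun k => Real.cos (2 * Real.pi * (α * (k : ℝ))))
    rw [h2]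
    simp only [Nat.cast_zero, mul_zero, Real.cos_zero, mul_one]
    have hred : ∀ k : ℕ, Real.cos (2 * Real.pi * (α * k)) =
        Real.cos (2 * Real.pi * (|α - round α| * k)) := cos_red α
    simp_rw [hred]
    obtain ⟨β, hβ⟩ : ∃ β : ℝ, β = |α - round α| := ⟨_, rfl⟩
    rw [← hβ]
    have hβ0 : 0 ≤ β := by rw [hβ]; exact abs_nonneg _
    have hβ1 : β ≤ 1 / 2 := by rw [hβ]; exact abs_sub_round α
    have hA1 : 1 / (U.card : ℝ) * ∑ m ∈ U, Real.cos (2 * Real.pi * (β * B m)) ≤ 1 := by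
      rw [one_div, inv_mul_eq_div, div_le_one hU0]
      calc ∑ m ∈ U, Real.cos (2 * Real.pi * (β * B m)) ≤ ∑ _m ∈ U, (1 : ℝ) :=
            Finset.sum_le_sum fun m _ => Real.cos_le_one _
        _ = U.card := by simp
    have hD0 : 0 ≤ 2 * (1 / (Q : ℝ) ^ 2 * ∑ p ∈ Finset.range Q ×ˢ Finset.range Q,
        Real.cos (2 * Real.pi * (β * (Nat.dist p.1 p.2 : ℕ)))) := by
      have := dist_nonneg β Q
      positivity
    have hH0 : 0 ≤ 2 * (1 / (S : ℝ) * ∑ k ∈ Finset.range S,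
        (1 - Real.cos (2 * Real.pi * (β * k)))) := by
      have : 0 ≤ ∑ k ∈ Finset.range S, (1 - Real.cos (2 * Real.pi * (β * k))) :=
        Finset.sum_nonneg fun k _ => by linarith [Real.cos_le_one (2 * Real.pi * (β * k))]
      positivity
    have hh := h β
    rcases le_or_gt β η with h1 | h1
    · have h2 := low_freq hQ hβ0 (show β * Q ≤ 1 / 6 by
        have : (0 : ℝ) ≤ Q := Nat.cast_nonneg _
        nlinarith)
      linarith
    · rcases le_or_gt β R with h2 | h2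
      · have h3 := hh h1.le h2
        linarith
      · have h3 := high_freq (S := S) (hR0.trans h2) hβ1 (by nlinarith)
        linarith) hf hr
  have h4 := hgen (fun k => ∫ t, f t * f (t + r * (k : ℝ)))
  rw [h4] at h1
  unfold GG
  simp only [Nat.cast_zero, mul_zero, add_zero] at h1 ⊢
  linarith

lemma dist_cos (a b : ℕ) (α : ℝ) : Real.cos (2 * Real.pi * (α * (Nat.dist a b : ℕ))) =
    Real.cos (2 * Real.pi * (α * a)) * Real.cos (2 * Real.pi * (α * b)) +
    Real.sin (2 * Real.pi * (α * a)) * Real.sin (2 * Real.pi * (α * b)) := by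
  rw [← Real.cos_sub]
  rcases le_total a b with h | h
  · rw [Nat.dist_eq_sub_of_le h, Nat.cast_sub h]
    have : 2 * Real.pi * (α * ((b : ℝ) - a)) =
        -(2 * Real.pi * (α * a) - 2 * Real.pi * (α * b)) := by ring
    rw [this, Real.cos_neg]
  · rw [Nat.dist_eq_sub_of_le_right h, Nat.cast_sub h]
    congr 1
    ring

lemma sq_sum_cos (M : ℕ) (B : ℕ → ℕ) (α : ℝ) :
    ∑ p ∈ Finset.range M ×ˢ Finset.range M,
      Real.cos (2 * Real.pi * (α * (Nat.dist (B p.1) (B p.2) : ℕ))) =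
    (∑ m ∈ Finset.range M, Real.cos (2 * Real.pi * (α * B m))) ^ 2 +
      (∑ m ∈ Finset.range M, Real.sin (2 * Real.pi * (α * B m))) ^ 2 := by
  rw [sq, sq, Finset.sum_mul_sum, Finset.sum_mul_sum, ← Finset.sum_add_distrib,
    Finset.sum_product]
  refine Finset.sum_congr rfl fun p _ => ?_
  rw [← Finset.sum_add_distrib]
  exact Finset.sum_congr rfl fun q _ => dist_cos _ _ _

/-- the mean ergodic theorem -/
theorem mean_erg (w : ℝ) (hw : 0 < w) (b : ℕ → ℝ) (hb : Hexp b) (ε : ℝ) (hε : 0 < ε) :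
    ∃ (M₀ : ℕ) (T₀ : ℝ), 1 ≤ M₀ ∧ 10 ≤ T₀ ∧ ∀ M : ℕ, M₀ ≤ M → ∀ T : ℝ, T₀ ≤ T →
      (∫ t, (1 / (M : ℝ) * ∑ m ∈ Finset.range M, ff T w (t + b m * dl T)) ^ 2) ≤ ε * T := by
  obtain ⟨K, hK, T1, hT1, hbas⟩ := basic w hw
  obtain ⟨Y0, hY0, hsm⟩ := smooth w hw (ε / 32) (by positivity)
  have hpi := Real.pi_pos
  have hK0 : 0 < K := by linarith
  -- parameters
  obtain ⟨ε1, hε1⟩ : ∃ ε1 : ℝ, ε1 = min 1 (ε / (16 * K)) := ⟨_, rfl⟩
  have hε10 : 0 < ε1 := by rw [hε1]; positivity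
  have hε11 : ε1 ≤ 1 := by rw [hε1]; exact min_le_left _ _
  have hε12 : ε1 * K ≤ ε / 16 := by
    have h1 : ε1 ≤ ε / (16 * K) := by rw [hε1]; exact min_le_right _ _
    rw [le_div_iff₀ (by positivity)] at h1
    linarith
  obtain ⟨κ, hκ⟩ : ∃ κ : ℝ, κ = min 1 (ε / (32 * K)) := ⟨_, rfl⟩
  have hκ0 : 0 < κ := by rw [hκ]; positivity
  have hκ1 : κ ≤ 1 := by rw [hκ]; exact min_le_left _ _
  have hκ2 : κ * K ≤ ε / 32 := by
    have h1 : κ ≤ ε / (32 * K) := by rw [hκ]; exact min_le_right _ _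
    rw [le_div_iff₀ (by positivity)] at h1
    linarith
  obtain ⟨R, hR⟩ : ∃ R : ℝ, R = 2 / κ := ⟨_, rfl⟩
  have hR0 : 0 < R := by rw [hR]; positivity
  obtain ⟨ρm, hρm⟩ : ∃ ρm : ℝ, ρm = min (κ / 2) (min (ε / (16 * K))
    (ε1 / (8 * Real.pi * R))) := ⟨_, rfl⟩
  have hρm0 : 0 < ρm := by rw [hρm]; positivity
  obtain ⟨n, hn⟩ := exists_nat_gt (w / ρm)
  have hn0 : (0 : ℝ) < n := lt_trans (by positivity) hn
  obtain ⟨ρ, hρ⟩ : ∃ ρ : ℝ, ρ = w / n := ⟨_, rfl⟩
  have hρ0 : 0 < ρ := by rw [hρ]; positivity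
  have hnρ : (n : ℝ) * ρ = w := by rw [hρ]; field_simp
  have hρle : ρ ≤ ρm := by
    rw [hρ, div_le_iff₀ hn0]
    rw [div_lt_iff₀ hρm0] at hn
    linarith
  have hρ1 : ρ ≤ κ / 2 := hρle.trans (by rw [hρm]; exact min_le_left _ _)
  have hρ2 : ρ ≤ ε / (16 * K) :=
    hρle.trans (by rw [hρm]; exact (min_le_right _ _).trans (min_le_left _ _))
  have hρ3 : ρ ≤ ε1 / (8 * Real.pi * R) :=
    hρle.trans (by rw [hρm]; exact (min_le_right _ _).trans (min_le_right _ _))
  obtain ⟨S, hS⟩ : ∃ S : ℕ, S = ⌊κ / ρ⌋₊ := ⟨_, rfl⟩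
  have hS1 : (S : ℝ) ≤ κ / ρ := by rw [hS]; exact Nat.floor_le (by positivity)
  have hS2 : κ / ρ < S + 1 := by rw [hS]; exact Nat.lt_floor_add_one _
  rw [le_div_iff₀ hρ0] at hS1
  rw [div_lt_iff₀ hρ0] at hS2
  have hS3 : κ / 2 ≤ S * ρ := by linarith
  have hS0 : (0 : ℝ) < S := by
    by_contra hc
    have : (S : ℝ) = 0 := le_antisymm (not_lt.1 hc) (Nat.cast_nonneg _)
    rw [this, zero_mul] at hS3
    linarith
  have hRS : 1 ≤ (R * ρ) * S := by
    have : R * (κ / 2) = 1 := by rw [hR]; field_simp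
    rw [← this, mul_assoc, mul_comm ρ]
    exact mul_le_mul_of_nonneg_left hS3 hR0.le
  obtain ⟨Q, hQ⟩ : ∃ Q : ℕ, Q = ⌈Y0 / ρ⌉₊ := ⟨_, rfl⟩
  have hQ1 : Y0 ≤ Q * ρ := by
    have h1 : Y0 / ρ ≤ Q := by rw [hQ]; exact Nat.le_ceil _
    rwa [div_le_iff₀ hρ0] at h1
  have hQ0 : (0 : ℝ) < Q := by
    by_contra hc
    have : (Q : ℝ) = 0 := le_antisymm (not_lt.1 hc) (Nat.cast_nonneg _)
    rw [this, zero_mul] at hQ1
    linarith
  have hQ2 : 1 ≤ Q := by
    have : 0 < Q := by exact_mod_cast hQ0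
    exact this
  obtain ⟨T2, hT2, hsm2⟩ := hsm ρ n Q hρ0 hnρ hQ1
  obtain ⟨M0, hM0⟩ := hb (1 / (6 * Q) / ρ) R (ε1 / 4) (by positivity) (by positivity)
  refine ⟨max 1 M0, max T1 T2, le_max_left _ _, hT1.trans (le_max_left _ _),
    fun M hM T hT => ?_⟩
  have hM1 : 1 ≤ M := (le_max_left _ _).trans hM
  have hMM0 : M0 ≤ M := (le_max_right _ _).trans hM
  have hMr : (0 : ℝ) < M := by exact_mod_cast hM1
  obtain ⟨k0, k1, k2⟩ := hbas T ((le_max_left _ _).trans hT)
  have k3 := hsm2 T ((le_max_right _ _).trans hT)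
  have hT10 : 10 ≤ T := hT1.trans ((le_max_left _ _).trans hT)
  have hT0 : 0 < T := by linarith
  have hd := dl_pos hT10
  -- a shift that makes the distances nonnegative
  obtain ⟨y, hy⟩ : ∃ y : ℝ, y = ∑ m ∈ Finset.range M, |b m| := ⟨_, rfl⟩
  have hby : ∀ m ∈ Finset.range M, 0 ≤ b m + y := by
    intro m hm
    have h1 : |b m| ≤ y := by
      rw [hy]
      exact Finset.single_le_sum (f := fun m => |b m|) (fun i _ => abs_nonneg _) hm
    linarith [neg_abs_le (b m)]
  obtain ⟨B, hB⟩ : ∃ B : ℕ → ℕ, B = fun m => ⌊(b m + y) / ρ⌋₊ := ⟨_, rfl⟩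
  have hB1 : ∀ m ∈ Finset.range M, 0 ≤ (b m + y) - ρ * B m ∧ (b m + y) - ρ * B m ≤ ρ := by
    intro m hm
    have h0 := hby m hm
    have h1 : ((B m : ℕ) : ℝ) ≤ (b m + y) / ρ := by
      rw [hB]
      exact Nat.floor_le (by positivity)
    have h2 : (b m + y) / ρ < (B m : ℝ) + 1 := by
      rw [hB]
      exact Nat.lt_floor_add_one _
    rw [le_div_iff₀ hρ0] at h1
    rw [div_lt_iff₀ hρ0] at h2
    constructor <;> linarith
  -- frequencies
  have hfreq : ∀ α : ℝ, 1 / (6 * Q) ≤ α → α ≤ R * ρ →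
      1 / ((Finset.range M ×ˢ Finset.range M).card : ℝ) *
        ∑ p ∈ Finset.range M ×ˢ Finset.range M,
          Real.cos (2 * Real.pi * (α * (Nat.dist (B p.1) (B p.2) : ℕ))) ≤ ε1 := by
    intro α hα1 hα2
    have hα0 : 0 < α := lt_of_lt_of_le (by positivity) hα1
    have h1 := hM0 M hMM0 (α / ρ) (div_le_div_of_nonneg_right hα1 hρ0.le)
      (by rw [div_le_iff₀ hρ0]; exact hα2)
    have h2 := (cos_sum_le b M (α / ρ) y).trans h1
    have h2' := (cos_sum_le b M (α / ρ) (y - 1 / (4 * (α / ρ)))).trans h1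
    have hsin : ∀ m : ℕ, Real.cos (2 * Real.pi * (α / ρ * (b m + (y - 1 / (4 * (α / ρ)))))) =
        Real.sin (2 * Real.pi * (α / ρ * (b m + y))) := by
      intro m
      rw [← Real.cos_sub_pi_div_two]
      congr 1
      field_simp
      ring
    simp_rw [hsin] at h2'
    have hclose : ∀ m ∈ Finset.range M, |2 * Real.pi * (α * B m) -
        2 * Real.pi * (α / ρ * (b m + y))| ≤ ε1 / 4 := by
      intro m hm
      have h5 : 2 * Real.pi * (α * B m) - 2 * Real.pi * (α / ρ * (b m + y)) =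
          -(2 * Real.pi * (α / ρ) * ((b m + y) - ρ * B m)) := by
        field_simp
        ring
      rw [h5, abs_neg, abs_mul, abs_of_pos (show 0 < 2 * Real.pi * (α / ρ) by positivity),
        abs_of_nonneg (hB1 m hm).1]
      have h6 : α / ρ ≤ R := by rw [div_le_iff₀ hρ0]; exact hα2
      have h7 : 2 * Real.pi * (α / ρ) * ((b m + y) - ρ * B m) ≤ 2 * Real.pi * R * ρ :=
        mul_le_mul (mul_le_mul_of_nonneg_left h6 (by positivity)) (hB1 m hm).2 (hB1 m hm).1
          (by positivity)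
      rw [le_div_iff₀ (by positivity)] at hρ3
      linarith
    have hc : |∑ m ∈ Finset.range M, Real.cos (2 * Real.pi * (α * B m))| ≤ ε1 / 2 * M := by
      have h8 : |(∑ m ∈ Finset.range M, Real.cos (2 * Real.pi * (α * B m))) -
          ∑ m ∈ Finset.range M, Real.cos (2 * Real.pi * (α / ρ * (b m + y)))| ≤ M * (ε1 / 4) := by
        rw [← Finset.sum_sub_distrib]
        refine (Finset.abs_sum_le_sum_abs _ _).trans ((Finset.sum_le_sum fun m hm =>
          (Real.abs_cos_sub_cos_le _ _).trans (hclose m hm)).trans (le_of_eq ?_))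
        rw [Finset.sum_const, Finset.card_range, nsmul_eq_mul]
      have h9 := abs_le.1 h8
      have h10 := abs_le.1 h2
      rw [abs_le]
      constructor
      · linarith [h9.1, h10.1]
      · linarith [h9.2, h10.2]
    have hs : |∑ m ∈ Finset.range M, Real.sin (2 * Real.pi * (α * B m))| ≤ ε1 / 2 * M := by
      have h8 : |(∑ m ∈ Finset.range M, Real.sin (2 * Real.pi * (α * B m))) -
          ∑ m ∈ Finset.range M, Real.sin (2 * Real.pi * (α / ρ * (b m + y)))| ≤ M * (ε1 / 4) := by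
        rw [← Finset.sum_sub_distrib]
        refine (Finset.abs_sum_le_sum_abs _ _).trans ((Finset.sum_le_sum fun m hm =>
          (Real.abs_sin_sub_sin_le _ _).trans (hclose m hm)).trans (le_of_eq ?_))
        rw [Finset.sum_const, Finset.card_range, nsmul_eq_mul]
      have h9 := abs_le.1 h8
      have h10 := abs_le.1 h2'
      rw [abs_le]
      constructor
      · linarith [h9.1, h10.1]
      · linarith [h9.2, h10.2]
    rw [sq_sum_cos, Finset.card_product, Finset.card_range, one_div, inv_mul_eq_div]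
    push_cast
    rw [div_le_iff₀ (by positivity)]
    have q1 : (∑ m ∈ Finset.range M, Real.cos (2 * Real.pi * (α * B m))) ^ 2 ≤
        (ε1 / 2 * M) ^ 2 := by
      rw [← sq_abs]
      exact pow_le_pow_left₀ (abs_nonneg _) hc 2
    have q2 : (∑ m ∈ Finset.range M, Real.sin (2 * Real.pi * (α * B m))) ^ 2 ≤
        (ε1 / 2 * M) ^ 2 := by
      rw [← sq_abs]
      exact pow_le_pow_left₀ (abs_nonneg _) hs 2
    have q3 : 2 * (ε1 / 2 * M) ^ 2 ≤ ε1 * (M * M) := by
      have : ε1 ^ 2 ≤ ε1 := by nlinarith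
      have h9 : (0 : ℝ) ≤ M * M := by positivity
      nlinarith
    linarith
  have hcard : 1 ≤ (Finset.range M ×ˢ Finset.range M).card := by
    rw [Finset.card_product, Finset.card_range]
    exact Nat.mul_pos hM1 hM1
  have hmain := avg_up (S := S) hQ2 (Finset.range M ×ˢ Finset.range M) hcard
    (fun p => Nat.dist (B p.1) (B p.2)) hε10.le (η := 1 / (6 * Q)) (R := R * ρ)
    (by
      have : 1 / (6 * (Q : ℝ)) * Q = 1 / 6 := by field_simp
      rw [this]) hRS (by positivity) hfreq (ff_nice T w) (r := ρ * dl T) (by positivity)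
  -- the terms
  have t1 : ε1 * GG (ff T w) 0 ≤ ε / 16 * T := by
    have h1 := mul_le_mul_of_nonneg_left k1 hε10.le
    have h2 := mul_le_mul_of_nonneg_right hε12 hT0.le
    linarith
  have t3 : 1 / (S : ℝ) * ∑ k ∈ Finset.range S, (GG (ff T w) 0 - GG (ff T w) (ρ * dl T * k)) ≤
      ε / 32 * T := by
    have h1 : ∀ k ∈ Finset.range S, GG (ff T w) 0 - GG (ff T w) (ρ * dl T * k) ≤ ε / 32 * T := by
      intro k hk
      have hk1 : (k : ℝ) * ρ ≤ κ := by
        have : (k : ℝ) ≤ S := by exact_mod_cast (Finset.mem_range.1 hk).le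
        exact (mul_le_mul_of_nonneg_right this hρ0.le).trans hS1
      have hk0 : 0 ≤ (k : ℝ) * ρ := by positivity
      have h2 := k2 (k * ρ) hk0 (hk1.trans hκ1)
      have e1 : (k : ℝ) * ρ * dl T = ρ * dl T * k := by ring
      rw [e1] at h2
      refine h2.trans ?_
      have h3 : (k : ℝ) * ρ * (K * T) ≤ κ * (K * T) :=
        mul_le_mul_of_nonneg_right hk1 (by positivity)
      have h4 : κ * (K * T) = (κ * K) * T := by ring
      rw [h4] at h3
      exact h3.trans (mul_le_mul_of_nonneg_right hκ2 hT0.le)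
    have h2 := Finset.sum_le_sum h1
    rw [Finset.sum_const, Finset.card_range, nsmul_eq_mul] at h2
    rw [one_div, inv_mul_eq_div, div_le_iff₀ hS0]
    linarith
  -- the rounded average
  obtain ⟨F, hF⟩ : ∃ F : ℝ → ℝ, F = fun t => 1 / (M : ℝ) * ∑ m ∈ Finset.range M,
    ff T w (t + ρ * dl T * B m) := ⟨_, rfl⟩
  have hFn : Nice F := by
    rw [hF]
    exact const_nice (Nice.sum (Finset.range M) (fun m t => ff T w (t + ρ * dl T * B m))
      fun m _ => (ff_nice T w).comp _) _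
  have hF2 : ∫ t, F t ^ 2 ≤ ε / 4 * T := by
    have e1 : ∀ t, F t ^ 2 = 1 / ((Finset.range M ×ˢ Finset.range M).card : ℝ) *
        ∑ p ∈ Finset.range M ×ˢ Finset.range M,
          ff T w (t + ρ * dl T * B p.1) * ff T w (t + ρ * dl T * B p.2) := by
      intro t
      rw [hF]
      simp only
      rw [mul_pow, sq (∑ m ∈ Finset.range M, ff T w (t + ρ * dl T * B m)), Finset.sum_mul_sum,
        ← Finset.sum_product', Finset.card_product, Finset.card_range]
      push_cast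
      field_simp
    simp_rw [e1]
    rw [integral_const_mul, integral_finsetSum _ fun p _ =>
      (((ff_nice T w).comp _).mul ((ff_nice T w).comp _)).integrable]
    have e2 : ∀ p ∈ Finset.range M ×ˢ Finset.range M,
        ∫ t, ff T w (t + ρ * dl T * B p.1) * ff T w (t + ρ * dl T * B p.2) =
        GG (ff T w) (ρ * dl T * ((Nat.dist (B p.1) (B p.2) : ℕ) : ℝ)) := by
      intro p _
      rw [GG_two]
      rcases le_total (B p.1) (B p.2) with h1 | h1
      · rw [Nat.dist_eq_sub_of_le h1, Nat.cast_sub h1]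
        congr 1
        ring
      · rw [Nat.dist_eq_sub_of_le_right h1, Nat.cast_sub h1, ← GG_neg]
        congr 1
        ring
    rw [Finset.sum_congr rfl e2]
    refine hmain.trans ?_
    have h9 : 0 ≤ ε * T := by positivity
    linarith
  -- the difference
  obtain ⟨D, hD⟩ : ∃ D : ℝ → ℝ, D = fun t => 1 / (M : ℝ) * ∑ m ∈ Finset.range M,
    (ff T w (t + (b m + y) * dl T) - ff T w (t + ρ * dl T * B m)) := ⟨_, rfl⟩
  have hDi : ∀ m, Integrable fun t =>
      (ff T w (t + (b m + y) * dl T) - ff T w (t + ρ * dl T * B m)) ^ 2 := by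
    intro m
    have : Nice fun t => (ff T w (t + (b m + y) * dl T) +
        (-1) * ff T w (t + ρ * dl T * B m)) ^ 2 :=
      (((ff_nice T w).comp _).add (const_nice ((ff_nice T w).comp _) (-1))).pow
        (by norm_num : 1 ≤ 2)
    refine this.integrable.congr (Eventually.of_forall fun t => ?_)
    show (ff T w (t + (b m + y) * dl T) + (-1) * ff T w (t + ρ * dl T * B m)) ^ 2 = _
    ring
  have hDm : ∀ m ∈ Finset.range M, ∫ t,
      (ff T w (t + (b m + y) * dl T) - ff T w (t + ρ * dl T * B m)) ^ 2 ≤ ε / 8 * T := by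
    intro m hm
    have h1 := GG_diff (ff_nice T w) (((b m + y) - ρ * B m) * dl T)
    have h2 := integral_add_right_eq_self (fun t =>
      (ff T w (t + ((b m + y) - ρ * B m) * dl T) - ff T w t) ^ 2) (ρ * dl T * B m) (μ := volume)
    have h3 : ∫ t, (ff T w (t + (b m + y) * dl T) - ff T w (t + ρ * dl T * B m)) ^ 2 =
        2 * (GG (ff T w) 0 - GG (ff T w) (((b m + y) - ρ * B m) * dl T)) := by
      rw [← h1, ← h2]
      refine integral_congr_ae (Eventually.of_forall fun t => ?_)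
      show (ff T w (t + (b m + y) * dl T) - ff T w (t + ρ * dl T * B m)) ^ 2 =
        (ff T w (t + ρ * dl T * B m + ((b m + y) - ρ * B m) * dl T) -
          ff T w (t + ρ * dl T * B m)) ^ 2
      have : t + ρ * dl T * B m + ((b m + y) - ρ * B m) * dl T = t + (b m + y) * dl T := by ring
      rw [this]
    rw [h3]
    have hρκ : ρ ≤ 1 := by linarith
    have h4 := k2 ((b m + y) - ρ * B m) (hB1 m hm).1 ((hB1 m hm).2.trans hρκ)
    have h5 : ((b m + y) - ρ * B m) * (K * T) ≤ ρ * (K * T) :=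
      mul_le_mul_of_nonneg_right (hB1 m hm).2 (by positivity)
    have h6 : ρ * (K * T) ≤ ε / 16 * T := by
      rw [le_div_iff₀ (by positivity)] at hρ2
      have := mul_le_mul_of_nonneg_right hρ2 hT0.le
      linarith
    linarith
  have hD2 : ∫ t, D t ^ 2 ≤ ε / 8 * T := by
    have h1 : ∀ t, D t ^ 2 ≤ 1 / (M : ℝ) * ∑ m ∈ Finset.range M,
        (ff T w (t + (b m + y) * dl T) - ff T w (t + ρ * dl T * B m)) ^ 2 := by
      intro t
      rw [hD]
      simp only
      have h3 := sq_sum_le_card_mul_sum_sq (s := Finset.range M)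
        (f := fun m => ff T w (t + (b m + y) * dl T) - ff T w (t + ρ * dl T * B m))
      rw [Finset.card_range] at h3
      rw [mul_pow]
      have h4 : (1 / (M : ℝ)) ^ 2 * (∑ m ∈ Finset.range M,
          (ff T w (t + (b m + y) * dl T) - ff T w (t + ρ * dl T * B m))) ^ 2 ≤
          (1 / (M : ℝ)) ^ 2 * (M * ∑ m ∈ Finset.range M,
          (ff T w (t + (b m + y) * dl T) - ff T w (t + ρ * dl T * B m)) ^ 2) :=
        mul_le_mul_of_nonneg_left h3 (by positivity)
      obtain ⟨Z, hZ⟩ : ∃ Z : ℝ, Z = ∑ m ∈ Finset.range M,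
        (ff T w (t + (b m + y) * dl T) - ff T w (t + ρ * dl T * B m)) ^ 2 := ⟨_, rfl⟩
      rw [← hZ] at h4 ⊢
      refine h4.trans (le_of_eq ?_)
      field_simp
    have h2 := integral_mono_of_nonneg (μ := volume)
      (Eventually.of_forall fun t => sq_nonneg (D t))
      ((integrable_finsetSum (Finset.range M) fun m _ => hDi m).const_mul (1 / (M : ℝ)))
      (Eventually.of_forall h1)
    refine h2.trans ?_
    rw [integral_const_mul, integral_finsetSum _ fun m _ => hDi m]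
    have h3 := Finset.sum_le_sum hDm
    rw [Finset.sum_const, Finset.card_range, nsmul_eq_mul] at h3
    rw [one_div, inv_mul_eq_div, div_le_iff₀ hMr]
    linarith
  -- conclusion
  have hshift := integral_add_right_eq_self (fun t => (1 / (M : ℝ) * ∑ m ∈ Finset.range M,
    ff T w (t + b m * dl T)) ^ 2) (y * dl T) (μ := volume)
  rw [← hshift]
  have iF : Integrable fun t => F t ^ 2 := (hFn.pow (by norm_num : 1 ≤ 2)).integrable
  have hDn : Nice D := by
    have : Nice fun t => 1 / (M : ℝ) * ∑ m ∈ Finset.range M,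
        (ff T w (t + (b m + y) * dl T) + (-1) * ff T w (t + ρ * dl T * B m)) :=
      const_nice (Nice.sum (Finset.range M) (fun m t =>
        ff T w (t + (b m + y) * dl T) + (-1) * ff T w (t + ρ * dl T * B m))
        fun m _ => ((ff_nice T w).comp _).add (const_nice ((ff_nice T w).comp _) (-1))) _
    have e : D = fun t => 1 / (M : ℝ) * ∑ m ∈ Finset.range M,
        (ff T w (t + (b m + y) * dl T) + (-1) * ff T w (t + ρ * dl T * B m)) := by
      rw [hD]
      funext t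
      congr 1
      refine Finset.sum_congr rfl fun m _ => ?_
      ring
    rw [e]
    exact this
  have iD : Integrable fun t => D t ^ 2 := (hDn.pow (by norm_num : 1 ≤ 2)).integrable
  have hpt : ∀ t, (1 / (M : ℝ) * ∑ m ∈ Finset.range M,
      ff T w (t + y * dl T + b m * dl T)) ^ 2 ≤ 2 * F t ^ 2 + 2 * D t ^ 2 := by
    intro t
    have e : 1 / (M : ℝ) * ∑ m ∈ Finset.range M, ff T w (t + y * dl T + b m * dl T) =
        F t + D t := by
      rw [hF, hD]
      simp only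
      rw [← mul_add, ← Finset.sum_add_distrib]
      congr 1
      refine Finset.sum_congr rfl fun m _ => ?_
      have : t + y * dl T + b m * dl T = t + (b m + y) * dl T := by ring
      rw [this]
      ring
    rw [e]
    nlinarith [sq_nonneg (F t - D t)]
  have hfin := integral_mono_of_nonneg (μ := volume)
    (Eventually.of_forall fun t => sq_nonneg (1 / (M : ℝ) * ∑ m ∈ Finset.range M,
      ff T w (t + y * dl T + b m * dl T)))
    ((iF.const_mul 2).add (iD.const_mul 2)) (Eventually.of_forall hpt)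
  refine hfin.trans ?_
  have e : ∫ t, (2 * F t ^ 2 + 2 * D t ^ 2) = 2 * (∫ t, F t ^ 2) + 2 * ∫ t, D t ^ 2 := by
    rw [integral_add (iF.const_mul 2) (iD.const_mul 2), integral_const_mul, integral_const_mul]
  have e' : ∫ t, ((fun t => 2 * F t ^ 2) + (fun t => 2 * D t ^ 2) : ℝ → ℝ) t =
      2 * (∫ t, F t ^ 2) + 2 * ∫ t, D t ^ 2 := e
  refine (le_of_eq e').trans ?_
  have : 0 ≤ ε * T := by positivity
  linarith

end Pool.Agent.V1161.CM
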