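import Pool.Agent.V1161.VC.Pos
import Pool.Agent.V11270.KC.Avg

set_option autoImplicit false

/-!
# Positive definiteness on the real line and averages of correlations
-/

namespace Pool.Agent.V1161.CM

open MeasureTheory Finset Filter Topology
open Pool.Agent.V11270.KC (Nice)
open Pool.Agent.V1161.VC (posdef box)

lemma sum_box1 (V : ℕ) (F : (Fin 1 → ℕ) → ℝ) :
    ∑ v ∈ box 1 V, F v = ∑ n ∈ range V, F (fun _ => n) := by
  refine Finset.sum_nbij' (fun v => v 0) (fun n _ => n) ?_ ?_ ?_ ?_ ?_
  · intro v hv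
    rw [Fintype.mem_piFinset] at hv
    exact hv 0
  · intro n hn
    rw [Fintype.mem_piFinset]
    exact fun _ => hn
  · intro v _
    funext r
    rw [Subsingleton.elim r 0]
  · intro n _
    rfl
  · intro v _
    congr 1
    funext r
    rw [Subsingleton.elim r 0]

/-- positive definiteness on `ℕ` -/
lemma posdef1 {ι : Type*} (s : Finset ι) (ν : ι → ℝ) (γ : ι → ℕ)
    (h : ∀ α : ℝ, 0 ≤ ∑ x ∈ s, ν x * Real.cos (2 * Real.pi * (α * (γ x : ℝ))))
    (V : ℕ) (y : ℕ → ℝ) (hy : ∀ v, V ≤ v → y v = 0) :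
    0 ≤ ∑ x ∈ s, ν x * ∑ v ∈ range V, y v * y (v + γ x) := by
  have h1 := posdef (d := 1) s ν (fun x _ => γ x) (ε := 0) (fun α => by
    have := h (α 0)
    simpa using this) V (fun v => y (v 0)) (fun v hv => by
      apply hy
      by_contra hc
      push Not at hc
      apply hv
      rw [Fintype.mem_piFinset]
      intro r
      rw [Subsingleton.elim r 0]
      exact mem_range.2 hc)
  rw [neg_zero, zero_mul] at h1
  refine h1.trans (le_of_eq ?_)
  refine Finset.sum_congr rfl fun x _ => ?_
  rw [sum_box1]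
  rfl

/-- folding an integral -/
lemma fold_int {F : ℝ → ℝ} (hF : Integrable F) {a r : ℝ} (hr : 0 < r) (V : ℕ)
    (hs : ∀ t, t ∉ Set.Icc a (a + r * V) → F t = 0) :
    ∫ t, F t = ∫ t in (0 : ℝ)..r, ∑ v ∈ range V, F (a + t + r * v) := by
  have hint : ∀ p q : ℝ, IntervalIntegrable F volume p q := fun p q => hF.intervalIntegrable
  have h1 : ∫ t, F t = ∫ t in a..(a + r * V), F t := by
    have hV : 0 ≤ r * V := by positivity
    rw [intervalIntegral.integral_of_le (by linarith), ← integral_Icc_eq_integral_Ioc,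
      setIntegral_eq_integral_of_forall_compl_eq_zero]
    exact hs
  have h2 := intervalIntegral.sum_integral_adjacent_intervals (a := fun v : ℕ => a + r * (v : ℝ))
    (n := V) (fun k _ => hint (a + r * (k : ℝ)) (a + r * ((k + 1 : ℕ) : ℝ)))
  rw [h1]
  simp only [Nat.cast_zero, mul_zero, add_zero] at h2
  rw [← h2, intervalIntegral.integral_finsetSum]
  · refine Finset.sum_congr rfl fun v _ => ?_
    have h3 : ∀ t : ℝ, F (a + t + r * v) = F (t + (a + r * v)) := by
      intro t
      congr 1
      ring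
    simp_rw [h3]
    rw [intervalIntegral.integral_comp_add_right, zero_add]
    congr 1
    push_cast
    ring
  · intro v _
    have h3 : (fun t : ℝ => F (a + t + r * v)) = fun t => F (t + (a + r * v)) := by
      funext t
      congr 1
      ring
    rw [h3]
    exact (hF.comp_add_right _).intervalIntegrable

/-- positive definiteness on the real line -/
theorem real_pd {ι : Type*} (s : Finset ι) (ν : ι → ℝ) (γ : ι → ℕ)
    (h : ∀ α : ℝ, 0 ≤ ∑ x ∈ s, ν x * Real.cos (2 * Real.pi * (α * (γ x : ℝ))))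
    {f : ℝ → ℝ} (hf : Nice f) {r : ℝ} (hr : 0 < r) :
    0 ≤ ∑ x ∈ s, ν x * ∫ t, f t * f (t + r * γ x) := by
  obtain ⟨a, b, hs⟩ := hf.supp
  obtain ⟨V, hV⟩ := exists_nat_gt ((b - a) / r)
  rw [div_lt_iff₀ hr] at hV
  have hN : ∀ x, Nice fun t => f t * f (t + r * γ x) := fun x => hf.mul (hf.comp _)
  have h1 : ∀ x ∈ s, ∫ t, f t * f (t + r * γ x) = ∫ t in (0 : ℝ)..r,
      ∑ v ∈ range V, f (a + t + r * v) * f (a + t + r * v + r * γ x) := by
    intro x _
    refine fold_int (hN x).integrable hr V fun t ht => ?_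
    rw [hs t, zero_mul]
    intro hc
    exact ht ⟨hc.1, by linarith [hc.2]⟩
  have hint : ∀ x ∈ s, IntervalIntegrable (fun t => ν x *
      ∑ v ∈ range V, f (a + t + r * v) * f (a + t + r * v + r * γ x)) volume 0 r := by
    intro x _
    have h2 : (fun t => ν x * ∑ v ∈ range V, f (a + t + r * v) * f (a + t + r * v + r * γ x)) =
        fun t => ν x * ∑ v ∈ range V, f (t + (a + r * v)) * f (t + (a + r * v + r * γ x)) := by
      funext t
      congr 1
      refine Finset.sum_congr rfl fun v _ => ?_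
      congr 2 <;> ring
    rw [h2]
    exact ((Nice.sum (range V) (fun v t => f (t + (a + r * v)) * f (t + (a + r * v + r * γ x)))
      fun v _ => (hf.comp _).mul (hf.comp _)).integrable.const_mul _).intervalIntegrable
  have h3 : ∑ x ∈ s, ν x * ∫ t, f t * f (t + r * γ x) = ∫ t in (0 : ℝ)..r, ∑ x ∈ s, ν x *
      ∑ v ∈ range V, f (a + t + r * v) * f (a + t + r * v + r * γ x) := by
    rw [intervalIntegral.integral_finsetSum hint]
    refine Finset.sum_congr rfl fun x hx => ?_
    rw [h1 x hx, intervalIntegral.integral_const_mul]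
  rw [h3]
  refine intervalIntegral.integral_nonneg hr.le fun t ht => ?_
  have h4 := posdef1 s ν γ h V (fun v => f (a + t + r * v)) (fun v hv => by
    apply hs
    intro hc
    have h5 : (V : ℝ) ≤ v := by exact_mod_cast hv
    have h6 : r * V ≤ r * v := mul_le_mul_of_nonneg_left h5 hr.le
    linarith [hc.2, ht.1])
  refine h4.trans (le_of_eq ?_)
  refine Finset.sum_congr rfl fun x _ => ?_
  congr 1
  refine Finset.sum_congr rfl fun v _ => ?_
  push_cast
  congr 2
  ring

/-- the correlations -/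
noncomputable def GG (f : ℝ → ℝ) (y : ℝ) : ℝ := ∫ t, f t * f (t + y)

lemma GG_neg (f : ℝ → ℝ) (y : ℝ) : GG f (-y) = GG f y := by
  unfold GG
  have h1 := integral_add_right_eq_self (fun t => f t * f (t + -y)) y (μ := volume)
  rw [← h1]
  refine integral_congr_ae (Eventually.of_forall fun t => ?_)
  show f (t + y) * f (t + y + -y) = f t * f (t + y)
  rw [add_neg_cancel_right]
  ring

lemma GG_two {f : ℝ → ℝ} (p q : ℝ) : ∫ t, f (t + p) * f (t + q) = GG f (q - p) := by
  unfold GG
  have h1 := integral_add_right_eq_self (fun t => f t * f (t + (q - p))) p (μ := volume)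
  rw [← h1]
  refine integral_congr_ae (Eventually.of_forall fun t => ?_)
  show f (t + p) * f (t + q) = f (t + p) * f (t + p + (q - p))
  congr 2
  ring

lemma GG_diff {f : ℝ → ℝ} (hf : Nice f) (y : ℝ) :
    ∫ t, (f (t + y) - f t) ^ 2 = 2 * (GG f 0 - GG f y) := by
  have h1 : Integrable fun t => f (t + y) * f (t + y) := ((hf.comp y).mul (hf.comp y)).integrable
  have h2 : Integrable fun t => f t * f t := (hf.mul hf).integrable
  have h3 : Integrable fun t => f t * f (t + y) := (hf.mul (hf.comp y)).integrable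
  have e : ∀ t, (f (t + y) - f t) ^ 2 = (f (t + y) * f (t + y) + f t * f t) -
      2 * (f t * f (t + y)) := fun t => by ring
  simp_rw [e]
  have h12 : Integrable fun t => f (t + y) * f (t + y) + f t * f t := h1.add h2
  rw [integral_sub h12 (h3.const_mul 2), integral_add h1 h2, integral_const_mul,
    GG_two, sub_self]
  unfold GG
  simp only [add_zero]
  ring

/-- a bound for the change of the correlations -/
lemma GG_change {f : ℝ → ℝ} (hf : Nice f) (y z : ℝ) {lam : ℝ} (hl : 0 < lam) :
    |GG f y - GG f z| ≤ lam * GG f 0 + 1 / lam * (GG f 0 - GG f (y - z)) := by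
  have hy : Integrable fun t => f t * f (t + y) := (hf.mul (hf.comp y)).integrable
  have hz : Integrable fun t => f t * f (t + z) := (hf.mul (hf.comp z)).integrable
  have h1 : Integrable fun t => f t ^ 2 := (hf.pow (by norm_num : 1 ≤ 2)).integrable
  have hneg : Nice fun t => (-1 : ℝ) * f t := by
    obtain ⟨B, hB⟩ := hf.bdd
    obtain ⟨a, b, hs⟩ := hf.supp
    refine ⟨hf.meas.const_mul _, ⟨B, fun x => ?_⟩, a, b, fun x hx => ?_⟩
    · rw [neg_one_mul, abs_neg]
      exact hB x
    · rw [hs x hx, mul_zero]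
  have h2 : Integrable fun t => (f (t + y) + (-1) * f (t + z)) ^ 2 :=
    (((hf.comp y).add (hneg.comp z)).pow (by norm_num : 1 ≤ 2)).integrable
  have e1 : GG f y - GG f z = ∫ t, (f t * f (t + y) - f t * f (t + z)) := by
    unfold GG
    rw [integral_sub hy hz]
  have e2 : ∫ t, (f (t + y) + (-1) * f (t + z)) ^ 2 = 2 * (GG f 0 - GG f (y - z)) := by
    rw [← GG_diff hf (y - z)]
    have h3 := integral_add_right_eq_self (fun t => (f (t + (y - z)) - f t) ^ 2) z (μ := volume)
    rw [← h3]
    refine integral_congr_ae (Eventually.of_forall fun t => ?_)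
    show (f (t + y) + (-1) * f (t + z)) ^ 2 = (f (t + z + (y - z)) - f (t + z)) ^ 2
    have : t + z + (y - z) = t + y := by ring
    rw [this]
    ring
  rw [e1]
  have h3 : |∫ t, (f t * f (t + y) - f t * f (t + z))| ≤
      ∫ t, (lam * f t ^ 2 + 1 / (2 * lam) * (f (t + y) + (-1) * f (t + z)) ^ 2) := by
    rw [← Real.norm_eq_abs]
    refine norm_integral_le_of_norm_le ((h1.const_mul lam).add (h2.const_mul _))
      (Eventually.of_forall fun t => ?_)
    rw [Real.norm_eq_abs]
    have h4 : f t * f (t + y) - f t * f (t + z) = f t * (f (t + y) + (-1) * f (t + z)) := by ring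
    rw [h4]
    show _ ≤ lam * f t ^ 2 + 1 / (2 * lam) * (f (t + y) + (-1) * f (t + z)) ^ 2
    obtain ⟨p, hp⟩ : ∃ p : ℝ, p = f t := ⟨_, rfl⟩
    obtain ⟨q, hq⟩ : ∃ q : ℝ, q = f (t + y) + (-1) * f (t + z) := ⟨_, rfl⟩
    rw [← hp, ← hq]
    have h5 : lam * p ^ 2 + 1 / (2 * lam) * q ^ 2 - |p * q| =
        (2 * lam ^ 2 * p ^ 2 + q ^ 2 - 2 * lam * |p * q|) / (2 * lam) := by
      field_simp
    have h6 : 0 ≤ (2 * lam ^ 2 * p ^ 2 + q ^ 2 - 2 * lam * |p * q|) / (2 * lam) := by
      apply div_nonneg _ (by positivity)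
      rw [abs_mul]
      have h7 : p ^ 2 = |p| ^ 2 := (sq_abs p).symm
      have h8 : q ^ 2 = |q| ^ 2 := (sq_abs q).symm
      rw [h7, h8]
      nlinarith [sq_nonneg (lam * |p| - |q|), sq_nonneg (lam * |p|)]
    linarith
  refine h3.trans (le_of_eq ?_)
  rw [integral_add (h1.const_mul lam) (h2.const_mul _), integral_const_mul, integral_const_mul, e2]
  have e3 : ∫ t, f t ^ 2 = GG f 0 := by
    unfold GG
    refine integral_congr_ae (Eventually.of_forall fun t => ?_)
    show f t ^ 2 = f t * f (t + 0)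
    rw [add_zero, sq]
  rw [e3]
  field_simp

end Pool.Agent.V1161.CM
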