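import Pool.Agent.V1161.CM.Second
import Pool.Agent.V1161.CM.G2

set_option autoImplicit false

/-!
# Counting zeros, multiple zeros and pairs
-/

namespace Pool.Agent.V1161.CM

open MeasureTheory Set Filter Topology
open Pool.Agent.TH850.UV (NS mS mS_nonneg NS_nonneg NS_mono NS_le)
open Pool.Agent.V11270.KC (Z0 mem_Z0 Z0_mono V nice_V V_nonneg mom_kap count_all)
open H370 (Zf mem_Zf good_zeta NN NN_eq_sum NN_add NN_mono nn_asymp mult zset)

/-- upper bound for the number of zeros -/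
lemma NN_upper : ∃ C U0 : ℝ, 0 < C ∧ 10 ≤ U0 ∧ ∀ T : ℝ, U0 ≤ T → ∀ J : ℕ, U0 ≤ T / 2 ^ J →
    (NN riemannZeta (T / 2 ^ J) T : ℝ) ≤ (T - T / 2 ^ J) * (Real.log T / (2 * Real.pi) + C) := by
  obtain ⟨C, U0, hC, hU0, hnn⟩ := nn_asymp good_zeta
  refine ⟨C, U0, hC, hU0, fun T hT => ?_⟩
  have hT10 : 10 ≤ T := hU0.trans hT
  have hpi := Real.pi_pos
  intro J
  induction J with
  | zero =>
    intro _
    rw [pow_zero, div_one, sub_self, zero_mul]
    rw [NN_eq_sum good_zeta _ _ (by linarith)]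
    have : (H370.zset_finite good_zeta T T (by linarith)).toFinset = ∅ := by
      rw [Set.Finite.toFinset_eq_empty]
      ext s
      simp only [Set.mem_empty_iff_false, iff_false]
      intro hs
      have h1 := hs.2.2.1
      have h2 := hs.2.2.2.1
      linarith
    rw [this]
    simp
  | succ J ih =>
    intro hJ
    have hp : (0 : ℝ) < 2 ^ J := by positivity
    have hp1 : (1 : ℝ) ≤ 2 ^ J := one_le_pow₀ (by norm_num)
    obtain ⟨U, hU⟩ : ∃ U : ℝ, U = T / 2 ^ (J + 1) := ⟨_, rfl⟩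
    have hU2 : T / 2 ^ J = 2 * U := by
      rw [hU, pow_succ]
      field_simp
    rw [← hU] at hJ ⊢
    have hU10 : 10 ≤ U := hU0.trans hJ
    have hUT : 2 * U ≤ T := by
      rw [← hU2]
      exact div_le_self (by linarith) hp1
    have ih' := ih (by rw [hU2]; linarith)
    rw [hU2] at ih'
    have h1 := (abs_le.1 (hnn U hJ U (2 * U) le_rfl (by linarith) (by linarith) le_rfl)).2
    have h2 : NN riemannZeta U T = NN riemannZeta U (2 * U) + NN riemannZeta (2 * U) T :=
      NN_add good_zeta (by linarith) (by linarith) hUT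
    have h3 : Real.log U ≤ Real.log T := Real.log_le_log (by linarith) (by linarith)
    have h4 : U * Real.log U / (2 * Real.pi) ≤ U * (Real.log T / (2 * Real.pi)) := by
      rw [mul_div_assoc]
      refine mul_le_mul_of_nonneg_left ?_ (by linarith)
      exact div_le_div_of_nonneg_right h3 (by positivity)
    rw [h2]
    push_cast
    have e : (T - U) * (Real.log T / (2 * Real.pi) + C) =
        U * (Real.log T / (2 * Real.pi)) + C * U +
        (T - 2 * U) * (Real.log T / (2 * Real.pi) + C) := by ring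
    rw [e]
    linarith

lemma count_upper (ε : ℝ) (hε : 0 < ε) : ∃ T0 : ℝ, 10 ≤ T0 ∧ ∀ T : ℝ, T0 ≤ T →
    ∑ s ∈ Z0 T, mS s ≤ (1 + ε) * (T * Real.log T / (2 * Real.pi)) := by
  obtain ⟨C, U0, hC, hU0, hup⟩ := NN_upper
  obtain ⟨K, hK⟩ : ∃ K : ℝ, K = ∑ s ∈ Z0 (2 * U0), mS s := ⟨_, rfl⟩
  have hpi := Real.pi_pos
  have hev : ∀ᶠ T : ℝ in atTop, 2 * Real.pi * (C + 1) / ε ≤ Real.log T ∧ K ≤ T := by
    filter_upwards [Real.tendsto_log_atTop.eventually_ge_atTop (2 * Real.pi * (C + 1) / ε),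
      eventually_ge_atTop K] with T h1 h2
    exact ⟨h1, h2⟩
  obtain ⟨T1, hT1⟩ := eventually_atTop.1 hev
  refine ⟨max U0 T1, hU0.trans (le_max_left _ _), fun T hT => ?_⟩
  have hTU : U0 ≤ T := (le_max_left _ _).trans hT
  obtain ⟨g1, g2⟩ := hT1 T ((le_max_right _ _).trans hT)
  have hT10 : 10 ≤ T := hU0.trans hTU
  obtain ⟨J, hJ1, hJ2⟩ := exists_nat_pow_near (x := T / U0) (y := 2)
    (by rw [le_div_iff₀ (by linarith)]; linarith) (by norm_num)
  have hJ3 : U0 ≤ T / 2 ^ J := by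
    rw [le_div_iff₀ (by linarith)] at hJ1
    rw [le_div_iff₀ (by positivity)]
    linarith
  have hJ4 : T / 2 ^ J ≤ 2 * U0 := by
    rw [div_lt_iff₀ (by linarith), pow_succ] at hJ2
    rw [div_le_iff₀ (by positivity)]
    linarith
  have h1 := hup T hTU J hJ3
  obtain ⟨W, hW⟩ : ∃ W : ℝ, W = T / 2 ^ J := ⟨_, rfl⟩
  rw [← hW] at h1 hJ3 hJ4
  have h2 : ∑ s ∈ Z0 T, mS s ≤ K + (NN riemannZeta W T : ℝ) := by
    classical
    rw [NN_mS (by linarith), hK]
    calc ∑ s ∈ Z0 T, mS s ≤ ∑ s ∈ Z0 (2 * U0) ∪ Zf riemannZeta W T, mS s := by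
          refine Finset.sum_le_sum_of_subset_of_nonneg ?_ fun s _ _ => mS_nonneg s
          intro s hs
          rw [mem_Z0] at hs
          rw [Finset.mem_union]
          rcases le_or_gt s.im W with h3 | h3
          · exact Or.inl (mem_Z0.2 ⟨hs.1, hs.2.1, hs.2.2.1, h3.trans hJ4, hs.2.2.2.2⟩)
          · exact Or.inr ((mem_Zf good_zeta (by linarith)).2
              ⟨hs.1, hs.2.1, h3, hs.2.2.2.1, hs.2.2.2.2⟩)
      _ ≤ _ := by
          rw [← Finset.sum_union_inter]
          exact le_add_of_nonneg_right (Finset.sum_nonneg fun s _ => mS_nonneg s)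
  have hL : 0 < Real.log T := Real.log_pos (by linarith)
  have h3 : (T - W) * (Real.log T / (2 * Real.pi) + C) ≤ T * (Real.log T / (2 * Real.pi) + C) := by
    refine mul_le_mul_of_nonneg_right (by linarith) (by positivity)
  rw [div_le_iff₀ hε] at g1
  have h4 : (C + 1) * T ≤ ε * (T * Real.log T / (2 * Real.pi)) := by
    have e : ε * (T * Real.log T / (2 * Real.pi)) = (Real.log T * ε) * T / (2 * Real.pi) := by ring
    rw [e, le_div_iff₀ (by positivity)]
    nlinarith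
  have e2 : T * (Real.log T / (2 * Real.pi) + C) = T * Real.log T / (2 * Real.pi) + C * T := by ring
  rw [e2] at h3
  linarith

/-- the total multiplicity at the ordinate of `s` -/
noncomputable def ML (S : Finset ℂ) (s : ℂ) : ℝ := ∑ s' ∈ S, if s.im = s'.im then mS s' else 0

lemma QS_ML (S : Finset ℂ) : QS S = ∑ s ∈ S, mS s * ML S s := by
  unfold QS ML
  refine Finset.sum_congr rfl fun s _ => ?_
  rw [Finset.mul_sum]
  refine Finset.sum_congr rfl fun s' _ => ?_
  split_ifs <;> ring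

lemma ML_ge {S : Finset ℂ} {s : ℂ} (hs : s ∈ S) : mS s ≤ ML S s := by
  unfold ML
  have h1 : ∀ s' ∈ S, 0 ≤ (if s.im = s'.im then mS s' else 0) := by
    intro s' _
    split_ifs
    · exact mS_nonneg s'
    · exact le_rfl
  have h2 := Finset.single_le_sum h1 hs
  rwa [if_pos rfl] at h2

lemma ML_ge2 {S : Finset ℂ} {s s' : ℂ} (hs : s ∈ S) (hs' : s' ∈ S) (hne : s' ≠ s)
    (him : s.im = s'.im) : mS s + mS s' ≤ ML S s := by
  classical
  unfold ML
  have h1 : ∑ u ∈ ({s, s'} : Finset ℂ), (if s.im = u.im then mS u else 0) ≤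
      ∑ u ∈ S, (if s.im = u.im then mS u else 0) := by
    refine Finset.sum_le_sum_of_subset_of_nonneg ?_ ?_
    · intro u hu
      rw [Finset.mem_insert, Finset.mem_singleton] at hu
      rcases hu with rfl | rfl
      · exact hs
      · exact hs'
    · intro u _ _
      split_ifs
      · exact mS_nonneg u
      · exact le_rfl
  rw [Finset.sum_pair hne.symm, if_pos rfl, if_pos him] at h1
  exact h1

/-- third moment -/
lemma third : ∃ C T0 : ℝ, 0 < C ∧ 10 ≤ T0 ∧ ∀ T : ℝ, T0 ≤ T →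
    ∑ s ∈ Z0 T, mS s * ML (Z0 T) s ^ 2 ≤ C * (T * Real.log T) := by
  obtain ⟨C, T0, hC, hT0, hm⟩ := mom_kap 3 (by norm_num) 1 one_pos
  refine ⟨C, T0, hC, hT0, fun T hT => ?_⟩
  have h1 := hm T hT
  have hL : 0 < Real.log T := Real.log_pos (by linarith)
  obtain ⟨ρ, hρ⟩ : ∃ ρ : ℝ, ρ = 1 / Real.log T := ⟨_, rfl⟩
  have hρ0 : 0 < ρ := by rw [hρ]; positivity
  rw [← hρ] at h1
  have h2 : 2 * ρ * ∑ s ∈ Z0 T, mS s * ML (Z0 T) s ^ 2 ≤ ∫ t, V (Z0 T) ρ t ^ 3 := by
    have h3 : ∀ t, ∑ s ∈ Z0 T, (Ioo (s.im - ρ) (s.im + ρ)).indicator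
        (fun _ => mS s * ML (Z0 T) s ^ 2) t ≤ V (Z0 T) ρ t ^ 3 := by
      intro t
      have e1 : V (Z0 T) ρ t ^ 3 = ∑ s ∈ Z0 T,
          (Ioo (s.im - ρ) (s.im + ρ)).indicator (fun _ => mS s) t * V (Z0 T) ρ t ^ 2 := by
        rw [← Finset.sum_mul, pow_succ' (V (Z0 T) ρ t) 2]
        congr 1
        rw [Pool.Agent.V11270.KC.V_eq]
        rfl
      rw [e1]
      refine Finset.sum_le_sum fun s hs => ?_
      rw [Set.indicator_apply, Set.indicator_apply]
      by_cases h4 : t ∈ Ioo (s.im - ρ) (s.im + ρ)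
      · rw [if_pos h4, if_pos h4]
        refine mul_le_mul_of_nonneg_left ?_ (mS_nonneg s)
        refine pow_le_pow_left₀ ?_ ?_ 2
        · exact (mS_nonneg s).trans (ML_ge hs)
        · unfold ML V
          rw [← Finset.sum_filter]
          refine Finset.sum_le_sum_of_subset_of_nonneg ?_ fun u _ _ => Nat.cast_nonneg _
          intro u hu
          rw [Finset.mem_filter] at hu ⊢
          refine ⟨hu.1, ?_⟩
          rw [← hu.2, abs_lt]
          constructor <;> linarith [h4.1, h4.2]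
      · rw [if_neg h4, if_neg h4, zero_mul]
    have hi : ∀ s ∈ Z0 T, Integrable ((Ioo (s.im - ρ) (s.im + ρ)).indicator
        (fun _ => mS s * ML (Z0 T) s ^ 2)) := by
      intro s _
      rw [integrable_indicator_iff measurableSet_Ioo]
      exact integrableOn_const (by rw [Real.volume_Ioo]; exact ENNReal.ofReal_ne_top)
    have h5 := integral_mono (integrable_finsetSum _ hi)
      ((nice_V (Z0 T) ρ).pow (by norm_num : 1 ≤ 3)).integrable h3
    rw [integral_finsetSum _ hi] at h5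
    refine le_trans (le_of_eq ?_) h5
    rw [Finset.mul_sum]
    refine Finset.sum_congr rfl fun s _ => ?_
    rw [integral_indicator_const _ measurableSet_Ioo, measureReal_def, Real.volume_Ioo,
      ENNReal.toReal_ofReal (by linarith), smul_eq_mul]
    ring
  have h6 : 2 * ρ * ∑ s ∈ Z0 T, mS s * ML (Z0 T) s ^ 2 ≤ C * T := h2.trans h1
  obtain ⟨X, hX⟩ : ∃ X : ℝ, X = ∑ s ∈ Z0 T, mS s * ML (Z0 T) s ^ 2 := ⟨_, rfl⟩
  have hX0 : 0 ≤ X := by
    rw [hX]
    exact Finset.sum_nonneg fun s _ => mul_nonneg (mS_nonneg s) (sq_nonneg _)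
  rw [← hX] at h6 ⊢
  have h7 : 2 * ρ * X = 2 * X / Real.log T := by rw [hρ]; ring
  rw [h7, div_le_iff₀ hL] at h6
  linarith

end Pool.Agent.V1161.CM
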