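import Pool.Agent.V1161.CM.Fin
import Pool.Agent.TH915.PW.Exp

set_option autoImplicit false

/-!
# Exponential sums with real powers
-/

namespace Pool.Agent.V1161.CM

open Finset Filter Topology
open Pool.Agent.H469R2.NK (e norm_e Cq Cq_pos)
open Pool.Agent.TH915.PW (Hy exp_bound)

/-- the derivatives of `t ^ c` -/
noncomputable def pw (c : ℝ) (m : ℕ) (t : ℝ) : ℝ := (∏ j ∈ range m, (c - j)) * t ^ (c - m)

lemma pw_der (c : ℝ) (m : ℕ) (t : ℝ) (ht : 0 < t) : HasDerivAt (pw c m) (pw c (m + 1) t) t := by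
  have h1 : HasDerivAt (fun t : ℝ => t ^ (c - m)) ((c - m) * t ^ (c - m - 1)) t :=
    Real.hasDerivAt_rpow_const (Or.inl ht.ne')
  have h2 := h1.const_mul (∏ j ∈ range m, (c - j))
  have e1 : pw c (m + 1) t = (∏ j ∈ range m, (c - j)) * ((c - m) * t ^ (c - m - 1)) := by
    unfold pw
    rw [prod_range_succ]
    push_cast
    rw [show c - (m + 1 : ℝ) = c - m - 1 by ring]
    ring
  rw [e1]
  exact h2

/-- block sums -/
lemma block_sum (c : ℝ) (hc : 0 < c) (hcn : ∀ m : ℕ, c ≠ m) (η R ε : ℝ) (hη : 0 < η)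
    (hε : 0 < ε) : ∃ N₀ : ℕ, 1 ≤ N₀ ∧ ∀ N : ℕ, N₀ ≤ N → ∀ L : ℕ, L ≤ N → ∀ θ : ℝ, η ≤ θ → θ ≤ R →
    ‖∑ n ∈ range L, e (θ * ((N + n : ℕ) : ℝ) ^ c)‖ ≤ ε * N := by
  obtain ⟨k, hk⟩ : ∃ k : ℕ, k = ⌊c⌋₊ := ⟨_, rfl⟩
  have hk1 : (k : ℝ) ≤ c := by rw [hk]; exact Nat.floor_le hc.le
  have hk1' : (k : ℝ) < c := lt_of_le_of_ne hk1 (hcn k).symm
  have hk2 : c < k + 1 := by rw [hk]; exact Nat.lt_floor_add_one _
  obtain ⟨C, hC⟩ : ∃ C : ℝ, C = ∏ j ∈ range (k + 1), (c - j) := ⟨_, rfl⟩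
  have hC0 : 0 < C := by
    rw [hC]
    apply prod_pos
    intro j hj
    have h1 : j ≤ k := Nat.lt_succ_iff.mp (mem_range.mp hj)
    have h2 : (j : ℝ) ≤ k := by exact_mod_cast h1
    linarith
  obtain ⟨ε1, hε1⟩ : ∃ ε1 : ℝ, ε1 = ε ^ (2 ^ k) / (2 * Cq k) := ⟨_, rfl⟩
  have hCq := Cq_pos k
  have hε10 : 0 < ε1 := by rw [hε1]; positivity
  obtain ⟨H, hH⟩ := exists_nat_gt (1 / ε1)
  have hHr : (0 : ℝ) < H := lt_trans (by positivity) hH
  have hH1 : 1 ≤ H := by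
    have : 0 < H := by exact_mod_cast hHr
    exact this
  have hHε : 1 / (H : ℝ) ≤ ε1 := by
    rw [div_lt_iff₀ hε10] at hH
    rw [div_le_iff₀ hHr]
    linarith
  -- thresholds
  have ht1 : Tendsto (fun x : ℝ => x ^ (-(k + 1 - c))) atTop (𝓝 0) :=
    tendsto_rpow_neg_atTop (by linarith)
  have ht2 : Tendsto (fun x : ℝ => x ^ (c - k)) atTop atTop := tendsto_rpow_atTop (by linarith)
  have hev : ∀ᶠ N : ℕ in atTop, 2 * (|R| * (C * (N : ℝ) ^ (-(k + 1 - c)) * (H : ℝ) ^ k)) ≤ 1 ∧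
      6 / (η * C * ε1) ≤ (3 * (N : ℝ)) ^ (c - k) ∧ H ≤ N := by
    have h1 : ∀ᶠ N : ℕ in atTop, (N : ℝ) ^ (-(k + 1 - c)) < 1 / (2 * (|R| + 1) * C * (H : ℝ) ^ k) :=
      (ht1.comp tendsto_natCast_atTop_atTop).eventually_lt_const (by positivity)
    have h2 : ∀ᶠ N : ℕ in atTop, 6 / (η * C * ε1) ≤ (3 * (N : ℝ)) ^ (c - k) := by
      have h3 : Tendsto (fun N : ℕ => 3 * (N : ℝ)) atTop atTop :=
        tendsto_natCast_atTop_atTop.const_mul_atTop (by norm_num)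
      exact (ht2.comp h3).eventually_ge_atTop _
    filter_upwards [h1, h2, eventually_ge_atTop H] with N g1 g2 g3
    refine ⟨?_, g2, g3⟩
    rw [lt_div_iff₀ (by positivity)] at g1
    have h4 : 0 ≤ (N : ℝ) ^ (-(k + 1 - c)) := by positivity
    have h5 : 0 ≤ C * (H : ℝ) ^ k * (N : ℝ) ^ (-(k + 1 - c)) := by positivity
    have h6 := abs_nonneg R
    nlinarith
  obtain ⟨N₀, hN₀⟩ := eventually_atTop.1 hev
  refine ⟨max 1 N₀, le_max_left _ _, fun N hN L hL θ hθ hθR => ?_⟩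
  obtain ⟨g1, g2, g3⟩ := hN₀ N ((le_max_right _ _).trans hN)
  have hN1 : 1 ≤ N := (le_max_left _ _).trans hN
  have hNr : (0 : ℝ) < N := by exact_mod_cast hN1
  have hθ0 : 0 < θ := by linarith
  have hR : R = |R| := (abs_of_pos (by linarith)).symm
  -- the hypotheses on the phase
  obtain ⟨lo, hlo⟩ : ∃ lo : ℝ, lo = C * (3 * (N : ℝ)) ^ (-(k + 1 - c)) := ⟨_, rfl⟩
  obtain ⟨hi, hhi⟩ : ∃ hi : ℝ, hi = C * (N : ℝ) ^ (-(k + 1 - c)) := ⟨_, rfl⟩
  have hlo0 : 0 < lo := by rw [hlo]; positivity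
  have hhi0 : 0 ≤ hi := by rw [hhi]; positivity
  have hpk : ∀ t : ℝ, pw c (k + 1) t = C * t ^ (-(k + 1 - c)) := by
    intro t
    unfold pw
    rw [← hC]
    congr 2
    push_cast
    ring
  have hHy : Hy k (N : ℝ) (3 * N) lo hi (pw c) := by
    refine ⟨fun m _ t ht => pw_der c m t (lt_of_lt_of_le hNr ht.1), fun t ht => ?_,
      fun t ht => ?_, fun t ht => ?_⟩
    · rw [hpk, hlo]
      refine mul_le_mul_of_nonneg_left ?_ hC0.le
      exact Real.rpow_le_rpow_of_nonpos (lt_of_lt_of_le hNr ht.1) ht.2 (by linarith)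
    · rw [hpk, hhi]
      refine mul_le_mul_of_nonneg_left ?_ hC0.le
      exact Real.rpow_le_rpow_of_nonpos hNr ht.1 (by linarith)
    · unfold pw
      rw [prod_range_succ, ← hC]
      have h1 : c - ((k + 1 : ℕ) : ℝ) ≤ 0 := by push_cast; linarith
      have h2 : 0 ≤ t ^ (c - ((k + 2 : ℕ) : ℝ)) :=
        Real.rpow_nonneg (by linarith [ht.1]) _
      have h3 : C * (c - ((k + 1 : ℕ) : ℝ)) ≤ 0 := mul_nonpos_of_nonneg_of_nonpos hC0.le h1
      exact mul_nonpos_of_nonpos_of_nonneg h3 h2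
  have hup : 2 * (θ * (hi * (H : ℝ) ^ k)) ≤ 1 := by
    refine le_trans ?_ g1
    rw [hhi]
    have h1 : θ ≤ |R| := hR ▸ hθR
    have h2 : 0 ≤ C * (N : ℝ) ^ (-(k + 1 - c)) * (H : ℝ) ^ k := by positivity
    have := mul_le_mul_of_nonneg_right h1 h2
    linarith
  have hLr : (L : ℝ) ≤ N := by exact_mod_cast hL
  have hb := exp_bound hlo0 hhi0 θ hθ0 hHy (N : ℝ) N L H hN1 hL le_rfl (by linarith) hH1 g3 hup
  have hφ : ∀ n : ℕ, pw c 0 ((N : ℝ) + n) = ((N + n : ℕ) : ℝ) ^ c := by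
    intro n
    unfold pw
    simp
  simp_rw [hφ] at hb
  have h2 : 2 / (θ * lo) / N ≤ ε1 := by
    have e1 : lo * N = C * (3 * (N : ℝ)) ^ (c - k) / 3 := by
      rw [hlo]
      have h3 : (3 * (N : ℝ)) ^ (c - k) = (3 * (N : ℝ)) ^ (-(k + 1 - c)) * (3 * N) := by
        rw [← Real.rpow_add_one (by positivity)]
        congr 1
        ring
      rw [h3]
      ring
    rw [div_div, div_le_iff₀ (by positivity)]
    have e2 : ε1 * (θ * lo * N) = ε1 * θ * (lo * N) := by ring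
    rw [e2, e1]
    rw [div_le_iff₀ (by positivity)] at g2
    have h4 : 0 ≤ C * (3 * (N : ℝ)) ^ (c - k) / 3 := by positivity
    have h5 : ε1 * η * (C * (3 * (N : ℝ)) ^ (c - k) / 3) ≤
        ε1 * θ * (C * (3 * (N : ℝ)) ^ (c - k) / 3) :=
      mul_le_mul_of_nonneg_right (mul_le_mul_of_nonneg_left hθ hε10.le) h4
    nlinarith
  have h3 : (‖∑ n ∈ range L, e (θ * ((N + n : ℕ) : ℝ) ^ c)‖ / N) ^ (2 ^ k) ≤ ε ^ (2 ^ k) := by
    refine hb.trans ?_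
    have h4 : Cq k * (1 / H + 2 / (θ * lo) / N) ≤ Cq k * (ε1 + ε1) :=
      mul_le_mul_of_nonneg_left (add_le_add hHε h2) hCq.le
    refine h4.trans (le_of_eq ?_)
    rw [hε1]
    field_simp
    ring
  have h4 := le_of_pow_le_pow_left₀ (by positivity : 2 ^ k ≠ 0) hε.le h3
  rwa [div_le_iff₀ hNr] at h4

/-- from blocks to initial segments -/
lemma dyadic_sum (x : ℕ → ℂ) (hx : ∀ n, ‖x n‖ ≤ 1) {ε : ℝ} (hε : 0 < ε) {N₀ : ℕ} (hN₀ : 1 ≤ N₀)
    (h : ∀ N : ℕ, N₀ ≤ N → ∀ L : ℕ, L ≤ N → ‖∑ n ∈ range L, x (N + n)‖ ≤ ε * N) (M : ℕ) :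
    ‖∑ n ∈ range M, x n‖ ≤ 2 * N₀ + 2 * ε * M := by
  induction M using Nat.strong_induction_on with
  | _ M ih =>
    rcases le_or_gt M (2 * N₀) with h1 | h1
    · have h2 : ‖∑ n ∈ range M, x n‖ ≤ M := by
        refine (norm_sum_le _ _).trans ((Finset.sum_le_sum fun n _ => hx n).trans (le_of_eq ?_))
        simp
      have h3 : (M : ℝ) ≤ 2 * N₀ := by exact_mod_cast h1
      have h4 : 0 ≤ 2 * ε * M := by positivity
      linarith
    · obtain ⟨N, hN⟩ : ∃ N : ℕ, N = (M + 1) / 2 := ⟨_, rfl⟩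
      have hNM : N < M := by omega
      have hN0 : N₀ ≤ N := by omega
      have hL : M - N ≤ N := by omega
      have h2 := ih N hNM
      have h3 := h N hN0 (M - N) hL
      have h4 : ∑ n ∈ range M, x n = (∑ n ∈ range N, x n) + ∑ n ∈ range (M - N), x (N + n) := by
        rw [← Finset.sum_range_add]
        congr 2
        omega
      rw [h4]
      refine (norm_add_le _ _).trans ?_
      have h5 : (N : ℝ) ≤ (M + 1) / 2 := by
        rw [le_div_iff₀ (by norm_num)]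
        exact_mod_cast (by omega : N * 2 ≤ M + 1)
      have h6 : (3 : ℝ) ≤ M := by exact_mod_cast (by omega : 3 ≤ M)
      nlinarith

/-- real powers have small exponential sums -/
theorem Hexp_pow (c h : ℝ) (hc : 0 < c) (hcn : ∀ m : ℕ, c ≠ m) (hh : 0 < h) :
    Hexp fun m => h * ((m + 1 : ℕ) : ℝ) ^ c := by
  intro η R ε hη hε
  obtain ⟨N₀, hN₀, hblk⟩ := block_sum c hc hcn (η * h) (R * h) (ε / 8) (by positivity)
    (by positivity)
  obtain ⟨M₀, hM₀⟩ := exists_nat_gt ((2 * N₀ + 1) / (ε / 4))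
  refine ⟨max 1 M₀, fun M hM β hβ hβR => ?_⟩
  have hM1 : (1 : ℝ) ≤ M := by exact_mod_cast (le_max_left _ _).trans hM
  have hM0 : (2 * N₀ + 1 : ℝ) ≤ ε / 4 * M := by
    have h1 : (M₀ : ℝ) ≤ M := by exact_mod_cast (le_max_right _ _).trans hM
    rw [div_lt_iff₀ (by positivity)] at hM₀
    nlinarith
  have hd := dyadic_sum (fun n => e (β * h * (n : ℝ) ^ c)) (fun n => (norm_e _).le)
    (by positivity : (0 : ℝ) < ε / 8) hN₀ (fun N hN L hL => hblk N hN L hL (β * h)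
      (mul_le_mul_of_nonneg_right hβ hh.le) (mul_le_mul_of_nonneg_right hβR hh.le)) (M + 1)
  rw [Finset.sum_range_succ'] at hd
  have h1 : ∀ m ∈ range M, Complex.exp (2 * Real.pi * Complex.I *
      ((β * (h * ((m + 1 : ℕ) : ℝ) ^ c) : ℝ) : ℂ)) = e (β * h * ((m + 1 : ℕ) : ℝ) ^ c) := by
    intro m _
    unfold e
    congr 1
    push_cast
    ring
  rw [Finset.sum_congr rfl h1]
  have h2 : ‖e (β * h * ((0 : ℕ) : ℝ) ^ c)‖ = 1 := norm_e _
  have h3 : ‖∑ k ∈ range M, e (β * h * ((k + 1 : ℕ) : ℝ) ^ c)‖ ≤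
      ‖∑ k ∈ range M, e (β * h * ((k + 1 : ℕ) : ℝ) ^ c) + e (β * h * ((0 : ℕ) : ℝ) ^ c)‖ + 1 := by
    have h4 := norm_sub_le (∑ k ∈ range M, e (β * h * ((k + 1 : ℕ) : ℝ) ^ c) +
      e (β * h * ((0 : ℕ) : ℝ) ^ c)) (e (β * h * ((0 : ℕ) : ℝ) ^ c))
    rw [add_sub_cancel_right, h2] at h4
    exact h4
  push_cast at hd h3 ⊢
  nlinarith

end Pool.Agent.V1161.CM
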