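import Pool.Agent.V1161.CM.Block

set_option autoImplicit false

/-!
# The second moment of the counts of all zeros up to `T`
-/

namespace Pool.Agent.V1161.CM

open MeasureTheory Set Filter Topology
open Pool.Agent.TH850.UV (NS mS mS_nonneg NS_nonneg NS_mono NS_le cnt cnt_eq nv2 cnt_crude)
open Pool.Agent.V11270.KC (Z0 mem_Z0 Z0_mono)

/-- the main term -/
noncomputable def MM (A : ℝ) : ℝ := A ^ 2 + Real.log (1 + A) / Real.pi ^ 2

lemma log_ratio {A r : ℝ} (hA : 0 < A) (hr : 0 < r) (hr1 : r ≤ 1) :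
    0 ≤ Real.log (1 + A) - Real.log (1 + A * r) ∧
    Real.log (1 + A) - Real.log (1 + A * r) ≤ 1 / r - 1 := by
  have h0 : 0 < 1 + A * r := by positivity
  constructor
  · have : Real.log (1 + A * r) ≤ Real.log (1 + A) := by
      apply Real.log_le_log h0
      nlinarith
    linarith
  · rw [← Real.log_div (by linarith) h0.ne']
    have h1 : (1 + A) / (1 + A * r) ≤ 1 / r := by
      rw [div_le_div_iff₀ h0 hr]
      nlinarith
    have h2 := Real.log_le_log (by positivity) h1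
    have h3 := Real.log_le_sub_one_of_pos (show 0 < 1 / r by positivity)
    linarith

lemma dyadic : ∃ C U0 : ℝ, 1 ≤ C ∧ 10 ≤ U0 ∧ ∀ T A h : ℝ, U0 ≤ T → 1 ≤ A →
    A ^ 2 ≤ Real.log T → h = 2 * Real.pi * A / Real.log T → h ≤ 1 → ∀ J : ℕ, U0 ≤ T / 2 ^ J →
    |(∫ t in (T / 2 ^ J)..T, NS (Z0 (T + 1)) h t ^ 2) - (T - T / 2 ^ J) * MM A| ≤
      C * T * (7 - (3 * J + 7) / 2 ^ J) := by
  obtain ⟨C, U0, hC, hU0, hblock⟩ := block
  refine ⟨C, U0, hC, hU0, fun T A h hT hA hAL hh hh1 => ?_⟩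
  have hT10 : 10 ≤ T := hU0.trans hT
  have hT0 : 0 < T := by linarith
  have hL : 0 < Real.log T := Real.log_pos (by linarith)
  have hpi := Real.pi_pos
  have hpi3 := Real.pi_gt_three
  have hA0 : 0 < A := by linarith
  have hint : ∀ a b : ℝ, IntervalIntegrable (fun t => NS (Z0 (T + 1)) h t ^ 2) volume a b :=
    fun a b => (NS_sq_int _ _).intervalIntegrable
  intro J
  induction J with
  | zero =>
    intro _
    simp
  | succ J ih =>
    intro hJ
    have hp : (0 : ℝ) < 2 ^ J := by positivity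
    have hp1 : (1 : ℝ) ≤ 2 ^ J := one_le_pow₀ (by norm_num)
    obtain ⟨U, hU⟩ : ∃ U : ℝ, U = T / 2 ^ (J + 1) := ⟨_, rfl⟩
    have hU2 : T / 2 ^ J = 2 * U := by
      rw [hU, pow_succ]
      field_simp
    rw [← hU] at hJ ⊢
    have hU10 : 10 ≤ U := hU0.trans hJ
    have hUT : 2 * U ≤ T := by
      rw [← hU2]
      exact div_le_self hT0.le hp1
    have ih' := ih (by rw [hU2]; linarith)
    rw [hU2] at ih'
    -- the block
    have hLU : 0 < Real.log U := Real.log_pos (by linarith)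
    have hLU1 : 1 ≤ Real.log U := by
      rw [Real.le_log_iff_exp_le (by linarith)]
      have := Real.exp_one_lt_d9
      linarith
    have hLUT : Real.log U ≤ Real.log T := Real.log_le_log (by linarith) (by linarith)
    obtain ⟨r, hr⟩ : ∃ r : ℝ, r = Real.log U / Real.log T := ⟨_, rfl⟩
    have hr0 : 0 < r := by rw [hr]; positivity
    have hr1 : r ≤ 1 := by rw [hr, div_le_one hL]; exact hLUT
    have hha : h = 2 * Real.pi * (A * r) / Real.log U := by
      rw [hh, hr]
      field_simp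
    have hlogU : Real.log U = Real.log T - (J + 1 : ℕ) * Real.log 2 := by
      rw [hU, Real.log_div hT0.ne' (by positivity), Real.log_pow]
    have hl2 : Real.log 2 ≤ 1 := by
      have := Real.log_two_lt_d9
      linarith
    have hl20 : 0 ≤ Real.log 2 := Real.log_nonneg (by norm_num)
    have hArr : A * r ≤ A := by nlinarith
    have hAr0 : 0 < A * r := by positivity
    have hal : A * r * Real.log (A * r) ≤ Real.log U := by
      rcases le_total (A * r) 1 with h1 | h1
      · have := Real.log_nonpos hAr0.le h1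
        nlinarith
      · have h2 : Real.log (A * r) ≤ A := by
          have := Real.log_le_sub_one_of_pos hAr0
          linarith
        have h3 : A * r * Real.log (A * r) ≤ A * r * A := mul_le_mul_of_nonneg_left h2 hAr0.le
        have h4 : A * r * A ≤ r * Real.log T := by nlinarith
        have h5 : r * Real.log T = Real.log U := by rw [hr]; field_simp
        linarith
    have hah : A * r * h ≤ 7 := by
      have h1 : A * r * h ≤ A * h := by
        have : 0 ≤ h := by rw [hh]; positivity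
        nlinarith
      have h2 : A * h = 2 * Real.pi * (A ^ 2 / Real.log T) := by rw [hh]; ring
      have h3 : A ^ 2 / Real.log T ≤ 1 := by rw [div_le_one hL]; exact hAL
      have h4 : 2 * Real.pi * (A ^ 2 / Real.log T) ≤ 2 * Real.pi * 1 :=
        mul_le_mul_of_nonneg_left h3 (by positivity)
      have h5 := Real.pi_lt_d2
      linarith
    have hb := hblock U hJ (A * r) h hAr0 hal hha hh1 hah
    have e1 : ∫ t in U..(2 * U), (cnt t h : ℝ) ^ 2 =
        ∫ t in U..(2 * U), NS (Z0 (T + 1)) h t ^ 2 := by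
      refine intervalIntegral.integral_congr fun t ht => ?_
      rw [uIcc_of_le (by linarith)] at ht
      show (cnt t h : ℝ) ^ 2 = NS (Z0 (T + 1)) h t ^ 2
      rw [cnt_Z0 (T := T + 1) (by linarith [ht.1]) (by linarith [ht.2])]
    rw [e1] at hb
    -- the main terms
    have hJ0 : (0 : ℝ) ≤ J := Nat.cast_nonneg _
    have hdr : (Real.log T - Real.log U) ≤ (J : ℝ) + 1 := by
      rw [hlogU]
      push_cast
      nlinarith
    have hq1 : 0 ≤ A ^ 2 - (A * r) ^ 2 ∧ A ^ 2 - (A * r) ^ 2 ≤ 2 * ((J : ℝ) + 1) := by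
      constructor
      · nlinarith
      · have h1 : A ^ 2 - (A * r) ^ 2 = A ^ 2 * ((1 - r) * (1 + r)) := by ring
        have h2 : (1 - r) * (1 + r) ≤ 2 * (1 - r) := by nlinarith
        have h3 : A ^ 2 * ((1 - r) * (1 + r)) ≤ Real.log T * (2 * (1 - r)) := by
          have h4 : 0 ≤ (1 - r) * (1 + r) := mul_nonneg (by linarith) (by linarith)
          calc A ^ 2 * ((1 - r) * (1 + r)) ≤ Real.log T * ((1 - r) * (1 + r)) :=
                mul_le_mul_of_nonneg_right hAL h4
            _ ≤ _ := mul_le_mul_of_nonneg_left h2 hL.le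
        have h5 : Real.log T * (2 * (1 - r)) = 2 * (Real.log T - Real.log U) := by
          rw [hr]
          field_simp
        rw [h1]
        linarith
    have hq2 : 0 ≤ Real.log (1 + A) - Real.log (1 + A * r) ∧
        Real.log (1 + A) - Real.log (1 + A * r) ≤ (J : ℝ) + 1 := by
      obtain ⟨h1, h2⟩ := log_ratio hA0 hr0 hr1
      refine ⟨h1, h2.trans ?_⟩
      have h3 : 1 / r - 1 = (Real.log T - Real.log U) / Real.log U := by
        rw [hr]
        field_simp
      rw [h3, div_le_iff₀ hLU]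
      nlinarith
    have hip : 1 / Real.pi ^ 2 ≤ 1 := by
      rw [div_le_one (by positivity)]
      nlinarith
    have hip0 : 0 ≤ 1 / Real.pi ^ 2 := by positivity
    have hq3 : 0 ≤ MM A - ((A * r) ^ 2 + Real.log (1 + A * r) / Real.pi ^ 2) ∧
        MM A - ((A * r) ^ 2 + Real.log (1 + A * r) / Real.pi ^ 2) ≤ 3 * ((J : ℝ) + 1) := by
      have e2 : MM A - ((A * r) ^ 2 + Real.log (1 + A * r) / Real.pi ^ 2) =
          (A ^ 2 - (A * r) ^ 2) +
          1 / Real.pi ^ 2 * (Real.log (1 + A) - Real.log (1 + A * r)) := by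
        unfold MM
        ring
      have h1 : 0 ≤ 1 / Real.pi ^ 2 * (Real.log (1 + A) - Real.log (1 + A * r)) :=
        mul_nonneg hip0 hq2.1
      have h2 : 1 / Real.pi ^ 2 * (Real.log (1 + A) - Real.log (1 + A * r)) ≤
          1 * ((J : ℝ) + 1) := mul_le_mul hip hq2.2 hq2.1 (by norm_num)
      rw [e2]
      constructor
      · linarith [hq1.1]
      · linarith [hq1.2]
    rw [← intervalIntegral.integral_add_adjacent_intervals (hint U (2 * U)) (hint (2 * U) T)]
    have hU0' : 0 < U := by linarith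
    have hb' := abs_le.1 hb
    have hi' := abs_le.1 ih'
    have hX1 : 0 ≤ U * (MM A - ((A * r) ^ 2 + Real.log (1 + A * r) / Real.pi ^ 2)) :=
      mul_nonneg hU0'.le hq3.1
    have hX2 : U * (MM A - ((A * r) ^ 2 + Real.log (1 + A * r) / Real.pi ^ 2)) ≤
        U * (3 * ((J : ℝ) + 1)) := mul_le_mul_of_nonneg_left hq3.2 hU0'.le
    have hX3 : U * (3 * ((J : ℝ) + 1)) ≤ C * (U * (3 * ((J : ℝ) + 1))) := by
      have : 0 ≤ U * (3 * ((J : ℝ) + 1)) := by positivity
      exact le_mul_of_one_le_left this hC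
    have e3 : C * T * (7 - (3 * ((J + 1 : ℕ) : ℝ) + 7) / 2 ^ (J + 1)) =
        C * T * (7 - (3 * (J : ℝ) + 7) / 2 ^ J) + C * U + C * (U * (3 * ((J : ℝ) + 1))) := by
      rw [hU]
      push_cast
      rw [pow_succ]
      field_simp
      ring
    obtain ⟨Y, hY⟩ : ∃ Y : ℝ, Y = (A * r) ^ 2 + Real.log (1 + A * r) / Real.pi ^ 2 := ⟨_, rfl⟩
    obtain ⟨B1, hB1⟩ : ∃ B1 : ℝ, B1 = ∫ t in U..(2 * U), NS (Z0 (T + 1)) h t ^ 2 := ⟨_, rfl⟩
    obtain ⟨B2, hB2⟩ : ∃ B2 : ℝ, B2 = ∫ t in (2 * U)..T, NS (Z0 (T + 1)) h t ^ 2 := ⟨_, rfl⟩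
    obtain ⟨P, hP⟩ : ∃ P : ℝ, P = C * T * (7 - (3 * (J : ℝ) + 7) / 2 ^ J) := ⟨_, rfl⟩
    obtain ⟨P2, hP2⟩ : ∃ P2 : ℝ, P2 = U * (3 * ((J : ℝ) + 1)) := ⟨_, rfl⟩
    rw [← hY] at hX1 hX2 hb'
    rw [← hB1] at hb' ⊢
    rw [← hB2] at hi' ⊢
    rw [← hP] at hi'
    rw [← hP2] at hX2 hX3
    rw [mul_sub] at hX1 hX2
    rw [e3, ← hP, ← hP2, abs_le, sub_mul]
    rw [sub_mul] at hi'
    obtain ⟨b1, b2⟩ := hb'
    obtain ⟨i1, i2⟩ := hi'
    have e4 : 2 * U * MM A = 2 * (U * MM A) := by ring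
    rw [e4] at i1 i2
    constructor
    · linarith
    · linarith

theorem second : ∃ C T0 : ℝ, 1 ≤ C ∧ 10 ≤ T0 ∧ ∀ T A : ℝ, T0 ≤ T → 1 ≤ A → A ^ 2 ≤ Real.log T →
    |(∫ t, NS (Z0 T) (2 * Real.pi * A / Real.log T) t ^ 2) - T * MM A| ≤ C * T := by
  obtain ⟨C, U0, hC, hU0, hdy⟩ := dyadic
  obtain ⟨C3, hC3, hcr⟩ := cnt_crude
  obtain ⟨K, hK⟩ : ∃ K : ℝ, K = ∑ s ∈ Z0 (2 * U0 + 1), mS s := ⟨_, rfl⟩
  have hK0 : 0 ≤ K := by rw [hK]; exact Finset.sum_nonneg fun s _ => mS_nonneg s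
  -- thresholds
  have hev : ∀ᶠ T : ℝ in atTop, 40 ≤ Real.log T ∧ (2 * U0 + 1) * K ^ 2 ≤ T ∧
      (C3 * Real.log T) ^ 2 ≤ T ∧ 4 * U0 * Real.log T ≤ T ∧ 4 * U0 ≤ T := by
    have h1 : ∀ᶠ T : ℝ in atTop, Real.log T ^ 2 ≤ (1 / C3 ^ 2) * T := by
      have := (Real.isLittleO_pow_log_id_atTop (n := 2)).bound (show 0 < 1 / C3 ^ 2 by positivity)
      filter_upwards [this, eventually_ge_atTop (1 : ℝ)] with T hT hT1
      rw [Real.norm_eq_abs, Real.norm_eq_abs, abs_of_nonneg (by positivity), id,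
        abs_of_nonneg (by linarith)] at hT
      exact hT
    have h2 : ∀ᶠ T : ℝ in atTop, Real.log T ≤ (1 / (4 * U0)) * T := by
      have := Real.isLittleO_log_id_atTop.bound (show 0 < 1 / (4 * U0) by positivity)
      filter_upwards [this, eventually_ge_atTop (1 : ℝ)] with T hT hT1
      rw [Real.norm_eq_abs, Real.norm_eq_abs, abs_of_nonneg (Real.log_nonneg hT1), id,
        abs_of_nonneg (by linarith)] at hT
      exact hT
    filter_upwards [h1, h2, Real.tendsto_log_atTop.eventually_ge_atTop 40,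
      eventually_ge_atTop ((2 * U0 + 1) * K ^ 2), eventually_ge_atTop (4 * U0)]
      with T g1 g2 g3 g4 g5
    refine ⟨g3, g4, ?_, ?_, g5⟩
    · rw [mul_pow]
      have := mul_le_mul_of_nonneg_left g1 (show 0 ≤ C3 ^ 2 by positivity)
      refine this.trans (le_of_eq ?_)
      field_simp
    · have := mul_le_mul_of_nonneg_left g2 (show 0 ≤ 4 * U0 by positivity)
      refine this.trans (le_of_eq ?_)
      field_simp
  obtain ⟨T1, hT1⟩ := eventually_atTop.1 hev
  refine ⟨7 * C + 3, max U0 T1, by linarith, hU0.trans (le_max_left _ _), fun T A hT hA hAL => ?_⟩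
  have hTU : U0 ≤ T := (le_max_left _ _).trans hT
  obtain ⟨g1, g2, g3, g4, g5⟩ := hT1 T ((le_max_right _ _).trans hT)
  have hT10 : 10 ≤ T := hU0.trans hTU
  have hT0 : 0 < T := by linarith
  have hL : 0 < Real.log T := by linarith
  have hpi := Real.pi_pos
  have hpi3 := Real.pi_gt_three
  have hA0 : 0 < A := by linarith
  obtain ⟨h, hh⟩ : ∃ h : ℝ, h = 2 * Real.pi * A / Real.log T := ⟨_, rfl⟩
  have hh0 : 0 < h := by rw [hh]; positivity
  have hh1 : h ≤ 1 := by
    rw [hh, div_le_one hL]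
    have h1 : (2 * Real.pi * A) ^ 2 ≤ Real.log T ^ 2 := by
      have h2 := Real.pi_lt_d2
      have h3 : (2 * Real.pi) ^ 2 ≤ 40 := by nlinarith
      have h4 : (2 * Real.pi * A) ^ 2 = (2 * Real.pi) ^ 2 * A ^ 2 := by ring
      rw [h4, sq (Real.log T)]
      exact mul_le_mul (h3.trans g1) hAL (by positivity) hL.le
    exact le_of_sq_le_sq h1 hL.le
  rw [← hh]
  -- the number of blocks
  obtain ⟨J, hJ1, hJ2⟩ := exists_nat_pow_near (x := T / U0) (y := 2)
    (by rw [le_div_iff₀ (by linarith)]; linarith) (by norm_num)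
  have hJ3 : U0 ≤ T / 2 ^ J := by
    rw [le_div_iff₀ (by linarith)] at hJ1
    rw [le_div_iff₀ (by positivity)]
    linarith
  have hJ4 : T / 2 ^ J ≤ 2 * U0 := by
    rw [div_lt_iff₀ (by linarith), pow_succ] at hJ2
    rw [div_le_iff₀ (by positivity)]
    linarith
  have hd := hdy T A h hTU hA hAL hh hh1 J hJ3
  obtain ⟨V, hV⟩ : ∃ V : ℝ, V = T / 2 ^ J := ⟨_, rfl⟩
  rw [← hV] at hd hJ3 hJ4
  have hVT : V ≤ T - h := by linarith
  have hint : ∀ a b : ℝ, IntervalIntegrable (fun t => NS (Z0 T) h t ^ 2) volume a b :=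
    fun a b => (NS_sq_int _ _).intervalIntegrable
  have hint1 : ∀ a b : ℝ, IntervalIntegrable (fun t => NS (Z0 (T + 1)) h t ^ 2) volume a b :=
    fun a b => (NS_sq_int _ _).intervalIntegrable
  -- the support
  have hsupp : ∫ t, NS (Z0 T) h t ^ 2 = ∫ t in (-1)..T, NS (Z0 T) h t ^ 2 := by
    rw [intervalIntegral.integral_of_le (by linarith),
      setIntegral_eq_integral_of_forall_compl_eq_zero]
    intro t ht
    have : NS (Z0 T) h t = 0 := by
      unfold NS
      refine Finset.sum_eq_zero fun s hs => ?_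
      rw [mem_Z0] at hs
      rw [if_neg, mul_zero]
      rintro ⟨h2, h3⟩
      exact ht ⟨by linarith [hs.2.2.1], by linarith [hs.2.2.2.1]⟩
    rw [this]
    norm_num
  have e1 : ∫ t in V..(T - h), NS (Z0 T) h t ^ 2 = ∫ t in V..(T - h), NS (Z0 (T + 1)) h t ^ 2 := by
    refine intervalIntegral.integral_congr fun t ht => ?_
    rw [uIcc_of_le hVT] at ht
    show NS (Z0 T) h t ^ 2 = NS (Z0 (T + 1)) h t ^ 2
    rw [← cnt_Z0 (T := T) (by linarith [ht.1]) (by linarith [ht.2]),
      ← cnt_Z0 (T := T + 1) (by linarith [ht.1]) (by linarith [ht.2])]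
  have e2 : ∫ t, NS (Z0 T) h t ^ 2 = (∫ t in (-1)..V, NS (Z0 T) h t ^ 2) +
      (∫ t in V..(T - h), NS (Z0 (T + 1)) h t ^ 2) + ∫ t in (T - h)..T, NS (Z0 T) h t ^ 2 := by
    rw [hsupp, ← e1, intervalIntegral.integral_add_adjacent_intervals (hint _ _) (hint _ _),
      intervalIntegral.integral_add_adjacent_intervals (hint _ _) (hint _ _)]
  have e3 : ∫ t in V..T, NS (Z0 (T + 1)) h t ^ 2 =
      (∫ t in V..(T - h), NS (Z0 (T + 1)) h t ^ 2) +
      ∫ t in (T - h)..T, NS (Z0 (T + 1)) h t ^ 2 := by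
    rw [intervalIntegral.integral_add_adjacent_intervals (hint1 _ _) (hint1 _ _)]
  -- the first piece
  have p1 : 0 ≤ ∫ t in (-1)..V, NS (Z0 T) h t ^ 2 :=
    intervalIntegral.integral_nonneg (by linarith) fun t _ => sq_nonneg _
  have p2 : ∫ t in (-1)..V, NS (Z0 T) h t ^ 2 ≤ (2 * U0 + 1) * K ^ 2 := by
    have h1 : ∫ t in (-1)..V, NS (Z0 T) h t ^ 2 ≤ ∫ _t in (-1)..V, K ^ 2 := by
      refine intervalIntegral.integral_mono_on (by linarith) (hint _ _)
        (continuous_const.intervalIntegrable _ _) fun t ht => ?_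
      refine pow_le_pow_left₀ (NS_nonneg _ _ _) ?_ 2
      have h2 : NS (Z0 (2 * U0 + 1)) h t = NS (Z0 T) h t := by
        refine NS_congr (Z0_mono (by linarith)) fun s hs hs' hc => ?_
        rw [mem_Z0] at hs
        exact hs' (mem_Z0.2 ⟨hs.1, hs.2.1, hs.2.2.1, by linarith [hc.2, ht.2], hs.2.2.2.2⟩)
      rw [← h2, hK]
      exact NS_le _ _ _
    refine h1.trans ?_
    rw [intervalIntegral.integral_const, smul_eq_mul]
    refine mul_le_mul_of_nonneg_right (by linarith) (by positivity)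
  -- the last piece
  have p3 : 0 ≤ ∫ t in (T - h)..T, NS (Z0 T) h t ^ 2 :=
    intervalIntegral.integral_nonneg (by linarith) fun t _ => sq_nonneg _
  have p4 : ∫ t in (T - h)..T, NS (Z0 T) h t ^ 2 ≤ ∫ t in (T - h)..T, NS (Z0 (T + 1)) h t ^ 2 :=
    intervalIntegral.integral_mono_on (by linarith) (hint _ _) (hint1 _ _) fun t _ =>
      pow_le_pow_left₀ (NS_nonneg _ _ _) (NS_subset (Z0_mono (by linarith)) h t) 2
  have p5 : ∫ t in (T - h)..T, NS (Z0 (T + 1)) h t ^ 2 ≤ T := by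
    have h1 : ∫ t in (T - h)..T, NS (Z0 (T + 1)) h t ^ 2 ≤
        ∫ _t in (T - h)..T, (C3 * Real.log T) ^ 2 := by
      refine intervalIntegral.integral_mono_on (by linarith) (hint1 _ _)
        (continuous_const.intervalIntegrable _ _) fun t ht => ?_
      refine pow_le_pow_left₀ (NS_nonneg _ _ _) ?_ 2
      rw [← cnt_Z0 (T := T + 1) (by linarith [ht.1]) (by linarith [ht.2])]
      exact hcr T hT10 t h (by linarith [ht.1]) (by linarith [ht.2]) hh0.le (by linarith)
    refine h1.trans ?_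
    rw [intervalIntegral.integral_const, smul_eq_mul]
    have h2 : 0 ≤ (C3 * Real.log T) ^ 2 := by positivity
    nlinarith
  -- the main term
  have hMM0 : 0 ≤ MM A := by
    unfold MM
    have := Real.log_nonneg (show (1 : ℝ) ≤ 1 + A by linarith)
    positivity
  have hMM : MM A ≤ 2 * Real.log T := by
    unfold MM
    have h1 : Real.log (1 + A) ≤ A := by
      have := Real.log_le_sub_one_of_pos (show 0 < 1 + A by linarith)
      linarith
    have h2 : Real.log (1 + A) / Real.pi ^ 2 ≤ Real.log (1 + A) := by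
      refine div_le_self (Real.log_nonneg (by linarith)) ?_
      nlinarith
    nlinarith
  have hVM : V * MM A ≤ T := by
    have h1 : V * MM A ≤ (2 * U0) * (2 * Real.log T) := mul_le_mul hJ4 hMM hMM0 (by linarith)
    linarith
  have hVM0 : 0 ≤ V * MM A := mul_nonneg (by linarith) hMM0
  have hB : C * T * (7 - (3 * (J : ℝ) + 7) / 2 ^ J) ≤ 7 * C * T := by
    have h1 : 0 ≤ (3 * (J : ℝ) + 7) / 2 ^ J := by positivity
    have h2 : 0 ≤ C * T := by positivity
    nlinarith
  have hd' := abs_le.1 (hd.trans hB)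
  rw [e2, abs_le]
  rw [e3, sub_mul] at hd'
  obtain ⟨d1, d2⟩ := hd'
  constructor
  · linarith
  · linarith

end Pool.Agent.V1161.CM
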