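import Pool.Agent.V1161.CM.ZF

set_option autoImplicit false

/-!
# Averages of the correlations of the counts along sequences
-/

namespace Pool.Agent.V1161.CM

open MeasureTheory Filter Topology
open Pool.Agent.TH850.UV (NS mS mS_nonneg NS_nonneg NS_mono NS_le)
open Pool.Agent.V11270.KC (Z0 mem_Z0 Z0_mono Nice count_all)

/-- the counts minus their mean -/
noncomputable def ff (T w t : ℝ) : ℝ := NS (Z0 T) (w * dl T) t + (-w) * ii T t

lemma const_nice {f : ℝ → ℝ} (hf : Nice f) (c : ℝ) : Nice fun t => c * f t := by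
  obtain ⟨B, hB⟩ := hf.bdd
  obtain ⟨a, b, hs⟩ := hf.supp
  refine ⟨hf.meas.const_mul _, ⟨|c| * B, fun x => ?_⟩, a, b, fun x hx => ?_⟩
  · rw [abs_mul]
    exact mul_le_mul_of_nonneg_left (hB x) (abs_nonneg _)
  · rw [hs x hx, mul_zero]

lemma ff_nice (T w : ℝ) : Nice (ff T w) := (NS_nice _ _).add (const_nice (ii_nice T) _)

lemma dl_pos {T : ℝ} (hT : 10 ≤ T) : 0 < dl T := by
  have hL : 0 < Real.log T := Real.log_pos (by linarith)
  have hpi := Real.pi_pos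
  unfold dl
  positivity

/-- the second moment of the counts -/
lemma sq_bound (w : ℝ) : ∃ K : ℝ, 1 ≤ K ∧ ∃ T0 : ℝ, 10 ≤ T0 ∧ ∀ T : ℝ, T0 ≤ T →
    dl T ≤ 1 ∧ (∫ t, NS (Z0 T) (w * dl T) t ^ 2) ≤ K * T ∧
    (∫ t, NS (Z0 T) (dl T) t ^ 2) ≤ K * T := by
  obtain ⟨C, hC, h⟩ := moments
  obtain ⟨Y, hY⟩ : ∃ Y : ℝ, Y = max w 1 := ⟨_, rfl⟩
  have hY1 : 1 ≤ Y := by rw [hY]; exact le_max_right _ _
  have hYw : w ≤ Y := by rw [hY]; exact le_max_left _ _
  obtain ⟨T0, hT0, h1⟩ := h Y hY1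
  refine ⟨C + 2 * Y ^ 2, by nlinarith, T0, hT0, fun T hT => ?_⟩
  obtain ⟨g1, g2, _⟩ := h1 T hT
  have hd := dl_pos (hT0.trans hT)
  have hmono : ∀ h' : ℝ, h' ≤ Y * dl T →
      ∫ t, NS (Z0 T) h' t ^ 2 ≤ ∫ t, NS (Z0 T) (Y * dl T) t ^ 2 := by
    intro h' hh'
    refine integral_mono (NS_sq_int _ _) (NS_sq_int _ _) fun t => ?_
    exact pow_le_pow_left₀ (NS_nonneg _ _ _) (NS_mono _ hh' t) 2
  refine ⟨?_, (hmono _ (mul_le_mul_of_nonneg_right hYw hd.le)).trans g2, (hmono _ ?_).trans g2⟩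
  · nlinarith
  · nlinarith

lemma GG_zero (f : ℝ → ℝ) : GG f 0 = ∫ t, f t ^ 2 := by
  unfold GG
  refine integral_congr_ae (Eventually.of_forall fun t => ?_)
  show f t * f (t + 0) = f t ^ 2
  rw [add_zero, sq]

/-- the basic estimates -/
lemma basic (w : ℝ) (hw : 0 < w) : ∃ K : ℝ, 1 ≤ K ∧ ∃ T0 : ℝ, 10 ≤ T0 ∧ ∀ T : ℝ, T0 ≤ T →
    dl T ≤ 1 ∧ GG (ff T w) 0 ≤ K * T ∧
    ∀ κ : ℝ, 0 ≤ κ → κ ≤ 1 → GG (ff T w) 0 - GG (ff T w) (κ * dl T) ≤ κ * (K * T) := by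
  obtain ⟨K, hK, T0, hT0, h⟩ := sq_bound w
  refine ⟨2 * K + 4 * w ^ 2, by nlinarith, T0, hT0, fun T hT => ?_⟩
  obtain ⟨g0, g1, g2⟩ := h T hT
  have hT10 : 10 ≤ T := hT0.trans hT
  have hd := dl_pos hT10
  have iV : ∀ h' : ℝ, Integrable fun t => NS (Z0 T) h' t ^ 2 := fun h' => NS_sq_int _ _
  have iI := ((ii_nice T).pow (by norm_num : 1 ≤ 2)).integrable
  refine ⟨g0, ?_, fun κ hκ hκ1 => ?_⟩
  · rw [GG_zero]
    have h1 : ∫ t, ff T w t ^ 2 ≤ ∫ t, (2 * NS (Z0 T) (w * dl T) t ^ 2 + 2 * w ^ 2 * ii T t ^ 2) := by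
      refine integral_mono ((ff_nice T w).pow (by norm_num : 1 ≤ 2)).integrable
        (((iV _).const_mul 2).add (iI.const_mul _)) fun t => ?_
      show ff T w t ^ 2 ≤ 2 * NS (Z0 T) (w * dl T) t ^ 2 + 2 * w ^ 2 * ii T t ^ 2
      unfold ff
      nlinarith [sq_nonneg (NS (Z0 T) (w * dl T) t + w * ii T t)]
    rw [integral_add ((iV _).const_mul 2) (iI.const_mul _), integral_const_mul,
      integral_const_mul, ii_sq (by linarith)] at h1
    nlinarith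
  · have h1 := GG_diff (ff_nice T w) (κ * dl T)
    have hu : 0 ≤ κ * dl T := by positivity
    have hN : ∀ t, (ff T w (t + κ * dl T) - ff T w t) ^ 2 ≤
        2 * (NS (Z0 T) (κ * dl T) (t + w * dl T) ^ 2 + NS (Z0 T) (κ * dl T) t ^ 2) +
          2 * w ^ 2 * edge T (κ * dl T) t ^ 2 := by
      intro t
      have h2 : ff T w (t + κ * dl T) - ff T w t =
          (NS (Z0 T) (κ * dl T) (t + w * dl T) - NS (Z0 T) (κ * dl T) t) -
            w * (ii T (t + κ * dl T) - ii T t) := by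
        have := NS_change (Z0 T) (h := w * dl T) (u := κ * dl T) (by positivity) hu t
        unfold ff
        linarith
      have h3 := ii_edge T hu le_rfl t
      have h4 : (ii T (t + κ * dl T) - ii T t) ^ 2 ≤ edge T (κ * dl T) t ^ 2 := by
        rw [← sq_abs]
        exact pow_le_pow_left₀ (abs_nonneg _) h3 2
      have h5 := NS_nonneg (Z0 T) (κ * dl T) (t + w * dl T)
      have h6 := NS_nonneg (Z0 T) (κ * dl T) t
      obtain ⟨x, hx⟩ : ∃ x : ℝ, x = NS (Z0 T) (κ * dl T) (t + w * dl T) := ⟨_, rfl⟩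
      obtain ⟨y, hy⟩ : ∃ y : ℝ, y = NS (Z0 T) (κ * dl T) t := ⟨_, rfl⟩
      obtain ⟨z, hz⟩ : ∃ z : ℝ, z = ii T (t + κ * dl T) - ii T t := ⟨_, rfl⟩
      rw [h2, ← hx, ← hy, ← hz]
      rw [← hx] at h5
      rw [← hy] at h6
      rw [← hz] at h4
      have h7 : 2 * w ^ 2 * z ^ 2 ≤ 2 * w ^ 2 * edge T (κ * dl T) t ^ 2 :=
        mul_le_mul_of_nonneg_left h4 (by positivity)
      nlinarith [sq_nonneg (x - y + w * z), mul_nonneg h5 h6]
    have iE := ((edge_nice T (κ * dl T)).pow (by norm_num : 1 ≤ 2)).integrable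
    have iW : Integrable fun t => NS (Z0 T) (κ * dl T) (t + w * dl T) ^ 2 :=
      ((NS_nice (Z0 T) (κ * dl T)).comp (w * dl T) |>.pow (by norm_num : 1 ≤ 2)).integrable
    have iD : Integrable fun t => (ff T w (t + κ * dl T) - ff T w t) ^ 2 := by
      have : Nice fun t => (ff T w (t + κ * dl T) + (-1) * ff T w t) ^ 2 :=
        (((ff_nice T w).comp _).add (const_nice (ff_nice T w) (-1))).pow (by norm_num : 1 ≤ 2)
      refine this.integrable.congr (Eventually.of_forall fun t => ?_)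
      show (ff T w (t + κ * dl T) + (-1) * ff T w t) ^ 2 = _
      ring
    have h8 := integral_mono iD ((((iW).add (iV _)).const_mul 2).add (iE.const_mul (2 * w ^ 2))) hN
    have h9 : ∫ t, (2 * (NS (Z0 T) (κ * dl T) (t + w * dl T) ^ 2 + NS (Z0 T) (κ * dl T) t ^ 2) +
          2 * w ^ 2 * edge T (κ * dl T) t ^ 2) = 4 * (∫ t, NS (Z0 T) (κ * dl T) t ^ 2) +
          2 * w ^ 2 * ∫ t, edge T (κ * dl T) t ^ 2 := by
      have iWV : Integrable fun t => NS (Z0 T) (κ * dl T) (t + w * dl T) ^ 2 +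
        NS (Z0 T) (κ * dl T) t ^ 2 := iW.add (iV _)
      rw [integral_add (iWV.const_mul 2) (iE.const_mul _), integral_const_mul,
        integral_const_mul, integral_add iW (iV _)]
      have h10 := integral_add_right_eq_self (fun t => NS (Z0 T) (κ * dl T) t ^ 2) (w * dl T)
        (μ := volume)
      rw [h10]
      ring
    have h8' : ∫ t, (ff T w (t + κ * dl T) - ff T w t) ^ 2 ≤
        4 * (∫ t, NS (Z0 T) (κ * dl T) t ^ 2) + 2 * w ^ 2 * ∫ t, edge T (κ * dl T) t ^ 2 := by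
      rw [← h9]
      exact h8
    have h10 := small_win (Z0 T) (h := dl T) hκ hκ1
    have h11 := edge_sq T hu
    have h12 : κ * ∫ t, NS (Z0 T) (dl T) t ^ 2 ≤ κ * (K * T) := mul_le_mul_of_nonneg_left g2 hκ
    have h13 : 2 * w ^ 2 * ∫ t, edge T (κ * dl T) t ^ 2 ≤ 2 * w ^ 2 * (4 * (κ * T)) := by
      refine mul_le_mul_of_nonneg_left ?_ (by positivity)
      refine h11.trans ?_
      have : κ * dl T ≤ κ * T := mul_le_mul_of_nonneg_left (by linarith) hκ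
      linarith
    have e : κ * ((2 * K + 4 * w ^ 2) * T) = 2 * (κ * (K * T)) + w ^ 2 * (4 * (κ * T)) := by ring
    rw [e]
    linarith

lemma three_sq (a b c : ℝ) : (a + b - c) ^ 2 ≤ 3 * (a ^ 2 + b ^ 2 + c ^ 2) := by
  nlinarith [sq_nonneg (a - b), sq_nonneg (a + c), sq_nonneg (b + c)]

/-- smoothing over long windows -/
lemma smooth (w : ℝ) (hw : 0 < w) : ∀ ε : ℝ, 0 < ε → ∃ Y0 : ℝ, 1 ≤ Y0 ∧ ∀ (ρ : ℝ) (n Q : ℕ),
    0 < ρ → n * ρ = w → Y0 ≤ Q * ρ → ∃ T0 : ℝ, 10 ≤ T0 ∧ ∀ T : ℝ, T0 ≤ T →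
    (∫ t, (1 / (Q : ℝ) * ∑ q ∈ Finset.range Q, ff T w (t + ρ * dl T * q)) ^ 2) ≤ ε * T := by
  obtain ⟨C, hC, hmom⟩ := moments
  obtain ⟨K, hK, T1, hT1, hsq⟩ := sq_bound w
  intro ε hε
  refine ⟨max 1 (6 * w ^ 2 * (4 * K + C + 1) / ε), le_max_left _ _, fun ρ n Q hρ hn hQ => ?_⟩
  obtain ⟨Y, hY⟩ : ∃ Y : ℝ, Y = Q * ρ := ⟨_, rfl⟩
  rw [← hY] at hQ
  have hY1 : 1 ≤ Y := (le_max_left _ _).trans hQ
  have hY2 : 6 * w ^ 2 * (4 * K + C + 1) / ε ≤ Y := (le_max_right _ _).trans hQ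
  have hY0 : 0 < Y := by linarith
  have hQ0 : (0 : ℝ) < Q := by
    by_contra hc
    have : (Q : ℝ) = 0 := le_antisymm (not_lt.1 hc) (Nat.cast_nonneg _)
    rw [hY, this, zero_mul] at hY0
    linarith
  obtain ⟨T2, hT2, hm⟩ := hmom Y hY1
  refine ⟨max (max T1 T2) (24 * w ^ 2 / ε), (hT1.trans (le_max_left _ _)).trans (le_max_left _ _),
    fun T hT => ?_⟩
  have g1 : T1 ≤ T := ((le_max_left _ _).trans (le_max_left _ _)).trans hT
  have g2 : T2 ≤ T := ((le_max_right _ _).trans (le_max_left _ _)).trans hT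
  have g3 : 24 * w ^ 2 / ε ≤ T := (le_max_right _ _).trans hT
  obtain ⟨_, k1, _⟩ := hsq T g1
  obtain ⟨k2, _, k3⟩ := hm T g2
  have hT10 : 10 ≤ T := hT1.trans g1
  have hd := dl_pos hT10
  obtain ⟨r, hr⟩ : ∃ r : ℝ, r = ρ * dl T := ⟨_, rfl⟩
  have hr0 : 0 < r := by rw [hr]; positivity
  have hnr : (n : ℝ) * r = w * dl T := by rw [hr, ← mul_assoc, hn]
  have hQr : (Q : ℝ) * r = Y * dl T := by rw [hr, ← mul_assoc, hY]
  rw [← hr]
  obtain ⟨c, hc⟩ : ∃ c : ℝ, c = w / Y := ⟨_, rfl⟩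
  have hc0 : 0 < c := by rw [hc]; positivity
  have hcn : (n : ℝ) / Q = c := by
    rw [hc, hY, ← hn]
    field_simp
  have hpt : ∀ t, (1 / (Q : ℝ) * ∑ q ∈ Finset.range Q, ff T w (t + r * q)) ^ 2 ≤
      6 * c ^ 2 * (NS (Z0 T) (w * dl T) t ^ 2 + NS (Z0 T) (w * dl T) (t + Y * dl T) ^ 2) +
      3 * c ^ 2 * (NS (Z0 T) (Y * dl T) t - Y * ii T t) ^ 2 +
      3 * w ^ 2 * edge T (Y * dl T) t ^ 2 := by
    intro t
    have h1 := NS_smooth (Z0 T) hr0.le n Q t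
    rw [hnr, hQr] at h1
    obtain ⟨E, hE⟩ : ∃ E : ℝ, E = 1 / (Q : ℝ) * ((∑ q ∈ Finset.range Q,
      NS (Z0 T) (w * dl T) (t + r * q)) - n * NS (Z0 T) (Y * dl T) t) := ⟨_, rfl⟩
    obtain ⟨E2, hE2⟩ : ∃ E2 : ℝ, E2 = 1 / (Q : ℝ) * ∑ q ∈ Finset.range Q,
      (ii T (t + r * q) - ii T t) := ⟨_, rfl⟩
    have hEb : |E| ≤ c * (NS (Z0 T) (w * dl T) t + NS (Z0 T) (w * dl T) (t + Y * dl T)) := by
      rw [hE, abs_mul, abs_of_pos (show 0 < 1 / (Q : ℝ) by positivity)]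
      have h2 := mul_le_mul_of_nonneg_left h1 (show 0 ≤ 1 / (Q : ℝ) by positivity)
      refine h2.trans (le_of_eq ?_)
      rw [← hcn]
      ring
    have hE2b : |E2| ≤ edge T (Y * dl T) t := by
      rw [hE2, abs_mul, abs_of_pos (show 0 < 1 / (Q : ℝ) by positivity)]
      have h2 : |∑ q ∈ Finset.range Q, (ii T (t + r * q) - ii T t)| ≤ Q * edge T (Y * dl T) t := by
        refine (Finset.abs_sum_le_sum_abs _ _).trans ?_
        have h3 : ∀ q ∈ Finset.range Q, |ii T (t + r * q) - ii T t| ≤ edge T (Y * dl T) t := by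
          intro q hq
          refine ii_edge T (by positivity) ?_ t
          rw [← hQr, mul_comm r]
          have : (q : ℝ) ≤ Q := by exact_mod_cast (Finset.mem_range.1 hq).le
          exact mul_le_mul_of_nonneg_right this hr0.le
        refine (Finset.sum_le_sum h3).trans (le_of_eq ?_)
        rw [Finset.sum_const, Finset.card_range, nsmul_eq_mul]
      have h3 := mul_le_mul_of_nonneg_left h2 (show 0 ≤ 1 / (Q : ℝ) by positivity)
      refine h3.trans (le_of_eq ?_)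
      field_simp
    have hid : 1 / (Q : ℝ) * ∑ q ∈ Finset.range Q, ff T w (t + r * q) =
        E + c * (NS (Z0 T) (Y * dl T) t - Y * ii T t) - w * E2 := by
      have hcY : c * Y = w := by rw [hc]; field_simp
      have e1 : ∑ q ∈ Finset.range Q, ff T w (t + r * q) =
          (∑ q ∈ Finset.range Q, NS (Z0 T) (w * dl T) (t + r * q)) -
          w * ∑ q ∈ Finset.range Q, ii T (t + r * q) := by
        unfold ff
        rw [Finset.sum_add_distrib, ← Finset.mul_sum]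
        ring
      have e2 : ∑ q ∈ Finset.range Q, (ii T (t + r * q) - ii T t) =
          (∑ q ∈ Finset.range Q, ii T (t + r * q)) - Q * ii T t := by
        rw [Finset.sum_sub_distrib, Finset.sum_const, Finset.card_range, nsmul_eq_mul]
      have e3 : c * (NS (Z0 T) (Y * dl T) t - Y * ii T t) =
          (n : ℝ) / Q * NS (Z0 T) (Y * dl T) t - w * ii T t := by
        rw [hcn, mul_sub, ← mul_assoc c Y, hcY]
      rw [hE, hE2, e1, e2, e3]
      field_simp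
      ring
    rw [hid]
    obtain ⟨x, hx⟩ : ∃ x : ℝ, x = NS (Z0 T) (w * dl T) t := ⟨_, rfl⟩
    obtain ⟨y, hy⟩ : ∃ y : ℝ, y = NS (Z0 T) (w * dl T) (t + Y * dl T) := ⟨_, rfl⟩
    obtain ⟨z, hz⟩ : ∃ z : ℝ, z = NS (Z0 T) (Y * dl T) t - Y * ii T t := ⟨_, rfl⟩
    obtain ⟨v, hv⟩ : ∃ v : ℝ, v = edge T (Y * dl T) t := ⟨_, rfl⟩
    rw [← hx, ← hy] at hEb ⊢
    rw [← hz, ← hv]
    rw [← hv] at hE2b
    have hE' : E ^ 2 ≤ c ^ 2 * (x + y) ^ 2 := by
      rw [← mul_pow, ← sq_abs E]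
      exact pow_le_pow_left₀ (abs_nonneg _) hEb 2
    have hE2' : E2 ^ 2 ≤ v ^ 2 := by
      rw [← sq_abs E2]
      exact pow_le_pow_left₀ (abs_nonneg _) hE2b 2
    have h4 : c ^ 2 * (x + y) ^ 2 ≤ c ^ 2 * (2 * (x ^ 2 + y ^ 2)) := by
      refine mul_le_mul_of_nonneg_left ?_ (by positivity)
      nlinarith [sq_nonneg (x - y)]
    have h5 : w ^ 2 * E2 ^ 2 ≤ w ^ 2 * v ^ 2 := mul_le_mul_of_nonneg_left hE2' (by positivity)
    have h6 := three_sq E (c * z) (w * E2)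
    rw [mul_pow, mul_pow] at h6
    linarith
  have iV : Integrable fun t => NS (Z0 T) (w * dl T) t ^ 2 := NS_sq_int _ _
  have iW : Integrable fun t => NS (Z0 T) (w * dl T) (t + Y * dl T) ^ 2 :=
    ((NS_nice (Z0 T) (w * dl T)).comp (Y * dl T) |>.pow (by norm_num : 1 ≤ 2)).integrable
  have iG : Integrable fun t => (NS (Z0 T) (Y * dl T) t - Y * ii T t) ^ 2 := by
    have : Nice fun t => (NS (Z0 T) (Y * dl T) t + (-Y) * ii T t) ^ 2 :=
      ((NS_nice _ _).add (const_nice (ii_nice T) _)).pow (by norm_num : 1 ≤ 2)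
    refine this.integrable.congr (Eventually.of_forall fun t => ?_)
    show (NS (Z0 T) (Y * dl T) t + (-Y) * ii T t) ^ 2 = _
    ring
  have iE := ((edge_nice T (Y * dl T)).pow (by norm_num : 1 ≤ 2)).integrable
  have iL : Integrable fun t => (1 / (Q : ℝ) * ∑ q ∈ Finset.range Q, ff T w (t + r * q)) ^ 2 :=
    ((const_nice (Nice.sum (Finset.range Q) (fun q t => ff T w (t + r * q))
      fun q _ => (ff_nice T w).comp _) _).pow (by norm_num : 1 ≤ 2)).integrable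
  have iVW : Integrable fun t => NS (Z0 T) (w * dl T) t ^ 2 +
    NS (Z0 T) (w * dl T) (t + Y * dl T) ^ 2 := iV.add iW
  have i12 : Integrable fun t => 6 * c ^ 2 * (NS (Z0 T) (w * dl T) t ^ 2 +
    NS (Z0 T) (w * dl T) (t + Y * dl T) ^ 2) +
      3 * c ^ 2 * (NS (Z0 T) (Y * dl T) t - Y * ii T t) ^ 2 :=
    (iVW.const_mul _).add (iG.const_mul _)
  have h7 := integral_mono iL (i12.add (iE.const_mul (3 * w ^ 2))) hpt
  have h8 : ∫ t, (6 * c ^ 2 * (NS (Z0 T) (w * dl T) t ^ 2 +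
        NS (Z0 T) (w * dl T) (t + Y * dl T) ^ 2) +
      3 * c ^ 2 * (NS (Z0 T) (Y * dl T) t - Y * ii T t) ^ 2 +
      3 * w ^ 2 * edge T (Y * dl T) t ^ 2) = 12 * c ^ 2 * (∫ t, NS (Z0 T) (w * dl T) t ^ 2) +
      3 * c ^ 2 * (∫ t, (NS (Z0 T) (Y * dl T) t - Y * ii T t) ^ 2) +
      3 * w ^ 2 * ∫ t, edge T (Y * dl T) t ^ 2 := by
    rw [integral_add i12 (iE.const_mul _), integral_add (iVW.const_mul _) (iG.const_mul _),
      integral_const_mul, integral_const_mul, integral_const_mul, integral_add iV iW]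
    have h10 := integral_add_right_eq_self (fun t => NS (Z0 T) (w * dl T) t ^ 2) (Y * dl T)
      (μ := volume)
    rw [h10]
    ring
  have h9 : ∫ t, (1 / (Q : ℝ) * ∑ q ∈ Finset.range Q, ff T w (t + r * q)) ^ 2 ≤
      12 * c ^ 2 * (∫ t, NS (Z0 T) (w * dl T) t ^ 2) +
      3 * c ^ 2 * (∫ t, (NS (Z0 T) (Y * dl T) t - Y * ii T t) ^ 2) +
      3 * w ^ 2 * ∫ t, edge T (Y * dl T) t ^ 2 := by
    rw [← h8]
    exact h7
  refine h9.trans ?_
  have m1 : 12 * c ^ 2 * (∫ t, NS (Z0 T) (w * dl T) t ^ 2) ≤ 12 * c ^ 2 * (K * T) :=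
    mul_le_mul_of_nonneg_left k1 (by positivity)
  have m2 : 3 * c ^ 2 * (∫ t, (NS (Z0 T) (Y * dl T) t - Y * ii T t) ^ 2) ≤
      3 * c ^ 2 * ((C + Y) * T) := mul_le_mul_of_nonneg_left k3 (by positivity)
  have m3 : 3 * w ^ 2 * ∫ t, edge T (Y * dl T) t ^ 2 ≤ 3 * w ^ 2 * 4 := by
    refine mul_le_mul_of_nonneg_left ?_ (by positivity)
    refine (edge_sq T (u := Y * dl T) (by positivity)).trans ?_
    linarith
  have m4 : 3 * w ^ 2 * 4 ≤ ε / 2 * T := by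
    rw [div_le_iff₀ hε] at g3
    linarith
  have m5 : 12 * c ^ 2 * (K * T) + 3 * c ^ 2 * ((C + Y) * T) ≤ ε / 2 * T := by
    have e1 : 12 * c ^ 2 * (K * T) + 3 * c ^ 2 * ((C + Y) * T) =
        3 * c ^ 2 * (4 * K + C + Y) * T := by ring
    rw [e1]
    refine mul_le_mul_of_nonneg_right ?_ (by linarith)
    have e2 : 3 * c ^ 2 * (4 * K + C + Y) = 3 * w ^ 2 * (4 * K + C + Y) / Y ^ 2 := by
      rw [hc]
      field_simp
    rw [e2, div_le_iff₀ (by positivity)]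
    rw [div_le_iff₀ hε] at hY2
    have h11 : 4 * K + C + Y ≤ (4 * K + C + 1) * Y := by nlinarith
    have h12 : 3 * w ^ 2 * (4 * K + C + Y) ≤ 3 * w ^ 2 * ((4 * K + C + 1) * Y) :=
      mul_le_mul_of_nonneg_left h11 (by positivity)
    have h13 : 6 * w ^ 2 * (4 * K + C + 1) * Y ≤ Y * ε * Y :=
      mul_le_mul_of_nonneg_right hY2 hY0.le
    have e3 : ε / 2 * Y ^ 2 = (Y * ε * Y) / 2 := by ring
    have e4 : 3 * w ^ 2 * ((4 * K + C + 1) * Y) = (6 * w ^ 2 * (4 * K + C + 1) * Y) / 2 := by ring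
    rw [e3]
    rw [e4] at h12
    linarith
  linarith

end Pool.Agent.V1161.CM
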