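import Pool.Agent.V1161.CM.KL
import Pool.Agent.V1161.CM.Pow

set_option autoImplicit false

/-!
# Arbitrary sets of zeros and distant zeros
-/

namespace Pool.Agent.V1161.CM

open MeasureTheory Filter Topology
open Pool.Agent.TH850.UV (NS mS mS_nonneg NS_nonneg NS_mono NS_le)
open Pool.Agent.V11270.KC (Z0 mem_Z0 Z0_mono Nice V V_nonneg nice_V mom_kap)

lemma Hexp_shift {b : ℕ → ℝ} (hb : Hexp b) (y : ℝ) : Hexp fun m => b m + y := by
  intro η R ε hη hε
  obtain ⟨M₀, h⟩ := hb η R ε hη hε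
  refine ⟨M₀, fun M hM β h1 h2 => ?_⟩
  refine le_trans (le_of_eq ?_) (h M hM β h1 h2)
  have e : ∑ m ∈ Finset.range M, Complex.exp (2 * Real.pi * Complex.I * ((β * (b m + y) : ℝ) : ℂ)) =
      Complex.exp (((2 * Real.pi * (β * y) : ℝ) : ℂ) * Complex.I) * ∑ m ∈ Finset.range M,
        Complex.exp (2 * Real.pi * Complex.I * ((β * b m : ℝ) : ℂ)) := by
    rw [Finset.mul_sum]
    refine Finset.sum_congr rfl fun m _ => ?_
    rw [← Complex.exp_add]
    congr 1
    push_cast
    ring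
  rw [e, norm_mul, Complex.norm_exp_ofReal_mul_I, one_mul]

/-- the zeros with ordinate in the closed window of `κ` mean spacings on both sides of `x` -/
noncomputable def cc (T κ x : ℝ) : ℝ :=
  ∑ s ∈ Z0 T, mS s * (if |s.im - x| ≤ κ * dl T then 1 else 0)

lemma cc_nonneg (T κ x : ℝ) : 0 ≤ cc T κ x := by
  unfold cc
  refine Finset.sum_nonneg fun s _ => ?_
  have h0 := mS_nonneg s
  split_ifs
  · rw [mul_one]
    exact h0
  · rw [mul_zero]

/-- the averages at a point -/
noncomputable def CA (T κ : ℝ) (b : ℕ → ℝ) (M : ℕ) (x : ℝ) : ℝ :=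
  1 / (M : ℝ) * ∑ m ∈ Finset.range M, cc T κ (x + b m * dl T)

lemma CA_nonneg (T κ : ℝ) (b : ℕ → ℝ) (M : ℕ) (x : ℝ) : 0 ≤ CA T κ b M x := by
  unfold CA
  have : 0 ≤ ∑ m ∈ Finset.range M, cc T κ (x + b m * dl T) :=
    Finset.sum_nonneg fun m _ => cc_nonneg _ _ _
  positivity

lemma cc_up {T κ η x t : ℝ} (h1 : t < x) (h2 : x ≤ t + η * dl T) (y : ℝ) :
    cc T κ (x + y) ≤ nn T (2 * κ + η) (t + y - κ * dl T) := by
  classical
  unfold cc nn NS
  refine Finset.sum_le_sum fun s _ => ?_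
  have h0 := mS_nonneg s
  by_cases h3 : |s.im - (x + y)| ≤ κ * dl T
  · rw [if_pos h3, mul_one, if_pos, mul_one]
    rw [abs_le] at h3
    constructor
    · linarith [h3.1]
    · have e : (2 * κ + η) * dl T = 2 * (κ * dl T) + η * dl T := by ring
      rw [e]
      linarith [h3.2]
  · rw [if_neg h3, mul_zero]
    split_ifs
    · rw [mul_one]
      exact h0
    · rw [mul_zero]

lemma cc_low {T κ η x t : ℝ} (h1 : t < x) (h2 : x ≤ t + η * dl T) (y : ℝ) :
    nn T (2 * κ - η) (t + y + (η - κ) * dl T) ≤ cc T κ (x + y) := by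
  classical
  unfold cc nn NS
  refine Finset.sum_le_sum fun s _ => ?_
  have h0 := mS_nonneg s
  by_cases h3 : t + y + (η - κ) * dl T < s.im ∧
      s.im ≤ t + y + (η - κ) * dl T + (2 * κ - η) * dl T
  · rw [if_pos h3, mul_one, if_pos, mul_one]
    have e1 : (η - κ) * dl T = η * dl T - κ * dl T := by ring
    have e2 : (η - κ) * dl T + (2 * κ - η) * dl T = κ * dl T := by ring
    have h4 := h3.1
    have h5 := h3.2
    rw [add_assoc, e2] at h5
    rw [e1] at h4
    rw [abs_le]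
    constructor <;> linarith
  · rw [if_neg h3, mul_zero]
    split_ifs
    · rw [mul_one]
      exact h0
    · rw [mul_zero]

lemma CA_up {T κ η x t : ℝ} (h1 : t < x) (h2 : x ≤ t + η * dl T) (b : ℕ → ℝ) (M : ℕ) :
    CA T κ b M x ≤ AV T (2 * κ + η) (fun m => b m + (-κ)) M t := by
  unfold CA AV
  refine mul_le_mul_of_nonneg_left (Finset.sum_le_sum fun m _ => ?_) (by positivity)
  have h3 := cc_up (κ := κ) h1 h2 (b m * dl T)
  have e : t + b m * dl T - κ * dl T = t + (b m + -κ) * dl T := by ring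
  rw [e] at h3
  exact h3

lemma CA_low {T κ η x t : ℝ} (h1 : t < x) (h2 : x ≤ t + η * dl T) (b : ℕ → ℝ) (M : ℕ) :
    AV T (2 * κ - η) (fun m => b m + (η - κ)) M t ≤ CA T κ b M x := by
  unfold CA AV
  refine mul_le_mul_of_nonneg_left (Finset.sum_le_sum fun m _ => ?_) (by positivity)
  have h3 := cc_low (κ := κ) h1 h2 (b m * dl T)
  have e : t + b m * dl T + (η - κ) * dl T = t + (b m + (η - κ)) * dl T := by ring
  rw [e] at h3
  exact h3

/-- the window in front of the point `x` -/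
noncomputable def JJ (h x t : ℝ) : ℝ := (Set.Ico (x - h) x).indicator (fun _ => (1 : ℝ)) t

lemma JJ_nice (h x : ℝ) : Nice (JJ h x) := by
  refine ⟨measurable_const.indicator measurableSet_Ico, ⟨1, fun t => ?_⟩, x - h, x,
    fun t ht => ?_⟩
  · unfold JJ
    by_cases ht : t ∈ Set.Ico (x - h) x
    · rw [Set.indicator_of_mem ht, abs_one]
    · rw [Set.indicator_of_notMem ht, abs_zero]
      norm_num
  · unfold JJ
    rw [Set.indicator_of_notMem]
    intro hc
    exact ht ⟨hc.1, hc.2.le⟩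

lemma JJ_int {h : ℝ} (hh : 0 ≤ h) (x : ℝ) : ∫ t, JJ h x t = h := by
  unfold JJ
  rw [integral_indicator measurableSet_Ico, setIntegral_const, smul_eq_mul, mul_one,
    Real.volume_real_Ico_of_le (by linarith)]
  ring

lemma JJ_nonneg (h x t : ℝ) : 0 ≤ JJ h x t := by
  unfold JJ
  exact Set.indicator_nonneg (fun _ _ => zero_le_one) _

lemma JJ_mem {h x t : ℝ} (ht : JJ h x t ≠ 0) : t < x ∧ x ≤ t + h := by
  unfold JJ at ht
  by_contra hc
  apply ht
  rw [Set.indicator_of_notMem]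
  intro h1
  exact hc ⟨h1.2, by linarith [h1.1]⟩

lemma ii_JJ {T h x : ℝ} (h1 : h < x) (h2 : x ≤ T) (t : ℝ) : ii T t * JJ h x t = JJ h x t := by
  by_cases ht : JJ h x t = 0
  · rw [ht, mul_zero]
  · obtain ⟨g1, g2⟩ := JJ_mem ht
    unfold ii
    rw [Set.indicator_of_mem (show t ∈ Set.Ioc 0 T from ⟨by linarith, by linarith⟩), one_mul]

/-- the high zeros -/
noncomputable def HZ (T : ℝ) : Finset ℂ := (Z0 T).filter fun s => 1 < s.im

/-- the weighted counts in the windows -/
noncomputable def FW (T h : ℝ) (w : ℂ → ℝ) (t : ℝ) : ℝ := ∑ s ∈ HZ T, w s * JJ h s.im t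

lemma FW_nice (T h : ℝ) (w : ℂ → ℝ) : Nice (FW T h w) :=
  Nice.sum (HZ T) (fun s t => w s * JJ h s.im t) fun s _ => const_nice (JJ_nice h s.im) _

lemma FW_nonneg {T h : ℝ} {w : ℂ → ℝ} (hw : ∀ s ∈ Z0 T, 0 ≤ w s) (t : ℝ) : 0 ≤ FW T h w t := by
  unfold FW
  refine Finset.sum_nonneg fun s hs => mul_nonneg (hw s ?_) (JJ_nonneg _ _ _)
  exact (Finset.mem_filter.1 hs).1

lemma FW_le {T h : ℝ} {w : ℂ → ℝ} (hw : ∀ s ∈ Z0 T, w s ≤ mS s) (t : ℝ) :
    FW T h w t ≤ NS (Z0 T) h t := by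
  classical
  unfold FW NS HZ
  have h1 : ∀ s ∈ Z0 T, mS s * JJ h s.im t ≤
      mS s * (if t < s.im ∧ s.im ≤ t + h then 1 else 0) := by
    intro s _
    refine mul_le_mul_of_nonneg_left ?_ (mS_nonneg s)
    unfold JJ
    by_cases h2 : t ∈ Set.Ico (s.im - h) s.im
    · rw [Set.indicator_of_mem h2, if_pos ⟨h2.2, by linarith [h2.1]⟩]
    · rw [Set.indicator_of_notMem h2]
      split_ifs <;> norm_num
  calc ∑ s ∈ (Z0 T).filter (fun s => 1 < s.im), w s * JJ h s.im t
      ≤ ∑ s ∈ (Z0 T).filter (fun s => 1 < s.im), mS s * JJ h s.im t :=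
        Finset.sum_le_sum fun s hs => mul_le_mul_of_nonneg_right
          (hw s (Finset.mem_filter.1 hs).1) (JJ_nonneg _ _ _)
    _ ≤ ∑ s ∈ Z0 T, mS s * JJ h s.im t :=
        Finset.sum_le_sum_of_subset_of_nonneg (Finset.filter_subset _ _)
          fun s _ _ => mul_nonneg (mS_nonneg s) (JJ_nonneg _ _ _)
    _ ≤ _ := Finset.sum_le_sum h1

lemma FW_ii {T h : ℝ} (h1 : h < 1) (w : ℂ → ℝ) (t : ℝ) :
    ii T t * FW T h w t = FW T h w t := by
  unfold FW
  rw [Finset.mul_sum]
  refine Finset.sum_congr rfl fun s hs => ?_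
  obtain ⟨h2, h3⟩ := Finset.mem_filter.1 hs
  have h4 := (mem_Z0.1 h2).2.2.2.1
  rw [mul_left_comm, ii_JJ (by linarith) h4]

lemma FW_int {T h : ℝ} (hh : 0 ≤ h) (w : ℂ → ℝ) : ∫ t, FW T h w t = h * ∑ s ∈ HZ T, w s := by
  unfold FW
  rw [integral_finsetSum _ fun s _ => ((JJ_nice h s.im).integrable).const_mul _, Finset.mul_sum]
  refine Finset.sum_congr rfl fun s _ => ?_
  rw [integral_const_mul, JJ_int hh]
  ring

/-- comparison of the weighted sum over the zeros with the integral -/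
lemma cmp_up {k : ℕ} {T η : ℝ} (hη : 0 < η) (hT : 10 ≤ T) (hη1 : η * dl T < 1) (κ : Fin k → ℝ)
    (b : Fin k → ℕ → ℝ) (M : ℕ) (w : ℂ → ℝ) (hw : ∀ s ∈ Z0 T, 0 ≤ w s) :
    η * dl T * (∑ s ∈ HZ T, w s * ∏ i, CA T (κ i) (b i) M s.im) ≤
      ∫ t, ii T t * (FW T (η * dl T) w t *
        ∏ i, AV T (2 * κ i + η) (fun m => b i m + (-κ i)) M t) := by
  have hd := dl_pos hT
  have hh : 0 ≤ η * dl T := by positivity
  obtain ⟨G, hG⟩ : ∃ G : ℝ → ℝ, G = fun t =>
    ∏ i, AV T (2 * κ i + η) (fun m => b i m + (-κ i)) M t := ⟨_, rfl⟩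
  have hGn : ∀ x : ℝ, Nice fun t => JJ (η * dl T) x t * G t := by
    intro x
    rw [hG]
    classical
    have h : ∀ s : Finset (Fin k), Nice fun t => JJ (η * dl T) x t *
        ∏ i ∈ s, AV T (2 * κ i + η) (fun m => b i m + (-κ i)) M t := by
      intro s
      induction s using Finset.induction_on with
      | empty =>
        simp only [Finset.prod_empty, mul_one]
        exact JJ_nice _ _
      | insert a s ha ih =>
        have h1 := ih.mul (AV_nice T (2 * κ a + η) (fun m => b a m + (-κ a)) M)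
        have e : (fun t => JJ (η * dl T) x t * ∏ i ∈ insert a s,
            AV T (2 * κ i + η) (fun m => b i m + (-κ i)) M t) =
            fun t => (JJ (η * dl T) x t * ∏ i ∈ s,
              AV T (2 * κ i + η) (fun m => b i m + (-κ i)) M t) *
              AV T (2 * κ a + η) (fun m => b a m + (-κ a)) M t := by
          funext t
          rw [Finset.prod_insert ha]
          ring
        rw [e]
        exact h1
    exact h Finset.univ
  have e : ∫ t, ii T t * (FW T (η * dl T) w t * G t) =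
      ∑ s ∈ HZ T, w s * ∫ t, JJ (η * dl T) s.im t * G t := by
    have e1 : ∀ t, ii T t * (FW T (η * dl T) w t * G t) =
        ∑ s ∈ HZ T, w s * (JJ (η * dl T) s.im t * G t) := by
      intro t
      rw [← mul_assoc, FW_ii hη1]
      unfold FW
      rw [Finset.sum_mul]
      exact Finset.sum_congr rfl fun s _ => by ring
    simp_rw [e1]
    rw [integral_finsetSum _ fun s _ => ((hGn s.im).integrable).const_mul _]
    exact Finset.sum_congr rfl fun s _ => integral_const_mul _ _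
  have e2 : ∫ t, ii T t * (FW T (η * dl T) w t *
        ∏ i, AV T (2 * κ i + η) (fun m => b i m + (-κ i)) M t) =
      ∫ t, ii T t * (FW T (η * dl T) w t * G t) := by rw [hG]
  rw [e2, e, Finset.mul_sum]
  refine Finset.sum_le_sum fun s hs => ?_
  have hs0 := hw s (Finset.mem_filter.1 hs).1
  rw [show η * dl T * (w s * ∏ i, CA T (κ i) (b i) M s.im) =
    w s * (η * dl T * ∏ i, CA T (κ i) (b i) M s.im) by ring]
  refine mul_le_mul_of_nonneg_left ?_ hs0
  obtain ⟨c, hc⟩ : ∃ c : ℝ, c = ∏ i, CA T (κ i) (b i) M s.im := ⟨_, rfl⟩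
  rw [← hc]
  have h1 : η * dl T * c = ∫ t, JJ (η * dl T) s.im t * c := by
    rw [integral_mul_const, JJ_int hh]
  rw [h1]
  refine integral_mono (((JJ_nice (η * dl T) s.im).integrable).mul_const c)
    (hGn s.im).integrable fun t => ?_
  show JJ (η * dl T) s.im t * c ≤ JJ (η * dl T) s.im t * G t
  by_cases ht : JJ (η * dl T) s.im t = 0
  · rw [ht, zero_mul, zero_mul]
  · obtain ⟨g1, g2⟩ := JJ_mem ht
    refine mul_le_mul_of_nonneg_left ?_ (JJ_nonneg _ _ _)
    rw [hc, hG]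
    exact Finset.prod_le_prod (fun i _ => CA_nonneg _ _ _ _ _) fun i _ => CA_up g1 g2 _ _

lemma cmp_low {k : ℕ} {T η : ℝ} (hη : 0 < η) (hT : 10 ≤ T) (hη1 : η * dl T < 1) (κ : Fin k → ℝ)
    (b : Fin k → ℕ → ℝ) (M : ℕ) (w : ℂ → ℝ) (hw : ∀ s ∈ Z0 T, 0 ≤ w s) :
    ∫ t, ii T t * (FW T (η * dl T) w t *
        ∏ i, AV T (2 * κ i - η) (fun m => b i m + (η - κ i)) M t) ≤
      η * dl T * (∑ s ∈ HZ T, w s * ∏ i, CA T (κ i) (b i) M s.im) := by
  have hd := dl_pos hT
  have hh : 0 ≤ η * dl T := by positivity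
  obtain ⟨G, hG⟩ : ∃ G : ℝ → ℝ, G = fun t =>
    ∏ i, AV T (2 * κ i - η) (fun m => b i m + (η - κ i)) M t := ⟨_, rfl⟩
  have hGn : ∀ x : ℝ, Nice fun t => JJ (η * dl T) x t * G t := by
    intro x
    rw [hG]
    classical
    have h : ∀ s : Finset (Fin k), Nice fun t => JJ (η * dl T) x t *
        ∏ i ∈ s, AV T (2 * κ i - η) (fun m => b i m + (η - κ i)) M t := by
      intro s
      induction s using Finset.induction_on with
      | empty =>
        simp only [Finset.prod_empty, mul_one]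
        exact JJ_nice _ _
      | insert a s ha ih =>
        have h1 := ih.mul (AV_nice T (2 * κ a - η) (fun m => b a m + (η - κ a)) M)
        have e : (fun t => JJ (η * dl T) x t * ∏ i ∈ insert a s,
            AV T (2 * κ i - η) (fun m => b i m + (η - κ i)) M t) =
            fun t => (JJ (η * dl T) x t * ∏ i ∈ s,
              AV T (2 * κ i - η) (fun m => b i m + (η - κ i)) M t) *
              AV T (2 * κ a - η) (fun m => b a m + (η - κ a)) M t := by
          funext t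
          rw [Finset.prod_insert ha]
          ring
        rw [e]
        exact h1
    exact h Finset.univ
  have e : ∫ t, ii T t * (FW T (η * dl T) w t * G t) =
      ∑ s ∈ HZ T, w s * ∫ t, JJ (η * dl T) s.im t * G t := by
    have e1 : ∀ t, ii T t * (FW T (η * dl T) w t * G t) =
        ∑ s ∈ HZ T, w s * (JJ (η * dl T) s.im t * G t) := by
      intro t
      rw [← mul_assoc, FW_ii hη1]
      unfold FW
      rw [Finset.sum_mul]
      exact Finset.sum_congr rfl fun s _ => by ring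
    simp_rw [e1]
    rw [integral_finsetSum _ fun s _ => ((hGn s.im).integrable).const_mul _]
    exact Finset.sum_congr rfl fun s _ => integral_const_mul _ _
  have e2 : ∫ t, ii T t * (FW T (η * dl T) w t *
        ∏ i, AV T (2 * κ i - η) (fun m => b i m + (η - κ i)) M t) =
      ∫ t, ii T t * (FW T (η * dl T) w t * G t) := by rw [hG]
  rw [e2, e, Finset.mul_sum]
  refine Finset.sum_le_sum fun s hs => ?_
  have hs0 := hw s (Finset.mem_filter.1 hs).1
  rw [show η * dl T * (w s * ∏ i, CA T (κ i) (b i) M s.im) =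
    w s * (η * dl T * ∏ i, CA T (κ i) (b i) M s.im) by ring]
  refine mul_le_mul_of_nonneg_left ?_ hs0
  obtain ⟨c, hc⟩ : ∃ c : ℝ, c = ∏ i, CA T (κ i) (b i) M s.im := ⟨_, rfl⟩
  rw [← hc]
  have h1 : η * dl T * c = ∫ t, JJ (η * dl T) s.im t * c := by
    rw [integral_mul_const, JJ_int hh]
  rw [h1]
  refine integral_mono (hGn s.im).integrable
    (((JJ_nice (η * dl T) s.im).integrable).mul_const c) fun t => ?_
  show JJ (η * dl T) s.im t * G t ≤ JJ (η * dl T) s.im t * c
  by_cases ht : JJ (η * dl T) s.im t = 0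
  · rw [ht, zero_mul, zero_mul]
  · obtain ⟨g1, g2⟩ := JJ_mem ht
    refine mul_le_mul_of_nonneg_left ?_ (JJ_nonneg _ _ _)
    rw [hc, hG]
    exact Finset.prod_le_prod (fun i _ => AV_nonneg _ _ _ _ _) fun i _ => CA_low g1 g2 _ _

end Pool.Agent.V1161.CM
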