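import Pool.Agent.V1161.CM.WT

set_option autoImplicit false

/-!
# Arbitrary sets of zeros and distant zeros: the theorem
-/

namespace Pool.Agent.V1161.CM

open MeasureTheory Filter Topology
open Pool.Agent.TH850.UV (NS mS mS_nonneg NS_nonneg NS_mono NS_le)
open Pool.Agent.V11270.KC (Z0 mem_Z0 Z0_mono Nice V V_nonneg nice_V mom_kap)

lemma low_bound (κ : ℝ) (b : ℕ → ℝ) (M : ℕ) (hM : 1 ≤ M) : ∃ K : ℝ, 0 ≤ K ∧ ∀ T : ℝ, 10 ≤ T →
    dl T ≤ 1 → ∀ x : ℝ, x ≤ 1 → CA T κ b M x ≤ K := by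
  classical
  have hMr : (0 : ℝ) < M := by exact_mod_cast hM
  obtain ⟨L, hL⟩ : ∃ L : ℝ, L = ∑ m ∈ Finset.range M, |b m| := ⟨_, rfl⟩
  have hbL : ∀ m ∈ Finset.range M, |b m| ≤ L := fun m hm => by
    rw [hL]
    exact Finset.single_le_sum (f := fun m => |b m|) (fun i _ => abs_nonneg _) hm
  obtain ⟨K, hK⟩ : ∃ K : ℝ, K = ∑ s ∈ Z0 (1 + L + |κ|), mS s := ⟨_, rfl⟩
  have hK0 : 0 ≤ K := by rw [hK]; exact Finset.sum_nonneg fun s _ => mS_nonneg s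
  refine ⟨K, hK0, fun T hT hdl x hx => ?_⟩
  have hd := dl_pos hT
  have h1 : ∀ m ∈ Finset.range M, cc T κ (x + b m * dl T) ≤ K := by
    intro m hm
    have hbm := hbL m hm
    unfold cc
    rw [hK]
    have h2 : ∑ s ∈ Z0 T, mS s * (if |s.im - (x + b m * dl T)| ≤ κ * dl T then (1 : ℝ) else 0) =
        ∑ s ∈ (Z0 T).filter (fun s => |s.im - (x + b m * dl T)| ≤ κ * dl T), mS s := by
      rw [Finset.sum_filter]
      refine Finset.sum_congr rfl fun s _ => ?_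
      split_ifs <;> simp
    rw [h2]
    refine Finset.sum_le_sum_of_subset_of_nonneg ?_ fun s _ _ => mS_nonneg s
    intro s hs
    obtain ⟨g1, g2⟩ := Finset.mem_filter.1 hs
    obtain ⟨a1, a2, a3, a4, a5⟩ := mem_Z0.1 g1
    refine mem_Z0.2 ⟨a1, a2, a3, ?_, a5⟩
    rw [abs_le] at g2
    have g3 : b m * dl T ≤ L := by
      have q1 : b m * dl T ≤ |b m| * dl T := mul_le_mul_of_nonneg_right (le_abs_self _) hd.le
      have q2 : |b m| * dl T ≤ |b m| * 1 := mul_le_mul_of_nonneg_left hdl (abs_nonneg _)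
      linarith
    have g4 : κ * dl T ≤ |κ| := by
      have q1 : κ * dl T ≤ |κ| * dl T := mul_le_mul_of_nonneg_right (le_abs_self _) hd.le
      have q2 : |κ| * dl T ≤ |κ| * 1 := mul_le_mul_of_nonneg_left hdl (abs_nonneg _)
      linarith
    linarith [g2.2]
  unfold CA
  have h2 := Finset.sum_le_sum h1
  rw [Finset.sum_const, Finset.card_range, nsmul_eq_mul] at h2
  rw [one_div, inv_mul_eq_div, div_le_iff₀ hMr]
  linarith

lemma PT_one (η T t : ℝ) : PT (fun _ : Fin 1 => η) (fun _ => 0) T t = NS (Z0 T) (η * dl T) t := by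
  unfold PT nn
  simp

lemma choose_eta {k : ℕ} (κ : Fin k → ℝ) (hκ : ∀ i, 0 < κ i) (ε : ℝ) (hε : 0 < ε) : ∃ η : ℝ,
    0 < η ∧ η < 1 ∧ (∀ i, η < κ i) ∧ (∏ i, (2 * κ i + η)) ≤ (∏ i, 2 * κ i) + ε ∧
      (∏ i, 2 * κ i) - ε ≤ ∏ i, (2 * κ i - η) := by
  have c1 : Continuous fun η : ℝ => ∏ i, (2 * κ i + η) :=
    continuous_finsetProd _ fun i _ => by fun_prop
  have c2 : Continuous fun η : ℝ => ∏ i, (2 * κ i - η) :=
    continuous_finsetProd _ fun i _ => by fun_prop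
  have t1 : Tendsto (fun η : ℝ => ∏ i, (2 * κ i + η)) (𝓝[>] 0) (𝓝 (∏ i, 2 * κ i)) := by
    have := (c1.tendsto 0).mono_left (nhdsWithin_le_nhds (s := Set.Ioi 0))
    simpa using this
  have t2 : Tendsto (fun η : ℝ => ∏ i, (2 * κ i - η)) (𝓝[>] 0) (𝓝 (∏ i, 2 * κ i)) := by
    have := (c2.tendsto 0).mono_left (nhdsWithin_le_nhds (s := Set.Ioi 0))
    simpa using this
  have e1 : ∀ᶠ η : ℝ in 𝓝[>] 0, (∏ i, (2 * κ i + η)) ≤ (∏ i, 2 * κ i) + ε :=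
    (t1.eventually_lt_const (by linarith : (∏ i, 2 * κ i) < (∏ i, 2 * κ i) + ε)).mono
      fun _ h => h.le
  have e2 : ∀ᶠ η : ℝ in 𝓝[>] 0, (∏ i, 2 * κ i) - ε ≤ ∏ i, (2 * κ i - η) :=
    (t2.eventually_const_lt (by linarith : (∏ i, 2 * κ i) - ε < ∏ i, 2 * κ i)).mono
      fun _ h => h.le
  have e3 : ∀ᶠ η : ℝ in 𝓝[>] 0, ∀ i, η < κ i := by
    rw [Filter.eventually_all]
    intro i
    exact (nhdsWithin_le_nhds (s := Set.Ioi 0)) (Iio_mem_nhds (hκ i))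
  have e4 : ∀ᶠ η : ℝ in 𝓝[>] 0, η < 1 :=
    (nhdsWithin_le_nhds (s := Set.Ioi 0)) (Iio_mem_nhds one_pos)
  have e5 : ∀ᶠ η : ℝ in 𝓝[>] 0, 0 < η := self_mem_nhdsWithin
  obtain ⟨η, h1, h2, h3, h4, h5⟩ := (e1.and (e2.and (e3.and (e4.and e5)))).exists
  exact ⟨η, h5, h4, h3, h1, h2⟩

/-- **arbitrary weights on the zeros** -/
theorem weights {k : ℕ} (κ : Fin k → ℝ) (b : Fin k → ℕ → ℝ) (hκ : ∀ i, 0 < κ i)
    (hb : ∀ i, Hexp (b i)) (ε : ℝ) (hε : 0 < ε) :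
    ∃ M₀ : ℕ, 1 ≤ M₀ ∧ ∀ M : ℕ, M₀ ≤ M → ∃ T₀ : ℝ, 10 ≤ T₀ ∧ ∀ T : ℝ, T₀ ≤ T → ∀ w : ℂ → ℝ,
      (∀ s ∈ Z0 T, 0 ≤ w s) → (∀ s ∈ Z0 T, w s ≤ mS s) →
      |(∑ s ∈ Z0 T, w s * ∏ i, CA T (κ i) (b i) M s.im) - (∏ i, 2 * κ i) * ∑ s ∈ Z0 T, w s| ≤
        ε * (T / dl T) := by
  classical
  obtain ⟨P, hP⟩ : ∃ P : ℝ, P = ∏ i, 2 * κ i := ⟨_, rfl⟩
  have hP0 : 0 ≤ P := by
    rw [hP]
    exact Finset.prod_nonneg fun i _ => by have := hκ i; positivity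
  obtain ⟨η, hη0, hη1, hηκ, hup, hlow⟩ := choose_eta κ hκ (ε / 8) (by positivity)
  rw [← hP] at hup hlow ⊢
  obtain ⟨ε1, hε1⟩ : ∃ ε1 : ℝ, ε1 = ε / 4 * η := ⟨_, rfl⟩
  have hε10 : 0 < ε1 := by rw [hε1]; positivity
  obtain ⟨M1, hM1, h1⟩ := corr_avg (fun _ : Fin 1 => η) (fun _ => 0) (fun _ => hη0) k
    (fun i => 2 * κ i + η) (fun i m => b i m + (-κ i)) (fun i => by have := hκ i; linarith)
    (fun i => Hexp_shift (hb i) _) ε1 hε10
  obtain ⟨M2, hM2, h2⟩ := corr_avg (fun _ : Fin 1 => η) (fun _ => 0) (fun _ => hη0) k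
    (fun i => 2 * κ i - η) (fun i m => b i m + (η - κ i))
    (fun i => by have := hκ i; have := hηκ i; linarith)
    (fun i => Hexp_shift (hb i) _) ε1 hε10
  refine ⟨max M1 M2, hM1.trans (le_max_left _ _), fun M hM => ?_⟩
  have hMM : 1 ≤ M := hM1.trans ((le_max_left _ _).trans hM)
  obtain ⟨T1, hT1, g1⟩ := h1 M ((le_max_left _ _).trans hM)
  obtain ⟨T2, hT2, g2⟩ := h2 M ((le_max_right _ _).trans hM)
  obtain ⟨T3, hT3, g3⟩ := count_upper 1 one_pos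
  obtain ⟨_, _, T4, hT4, g4⟩ := basic 1 one_pos
  choose K hK0 hK using fun i => low_bound (κ i) (b i) M hMM
  obtain ⟨K1, hK1⟩ : ∃ K1 : ℝ, K1 = ∑ s ∈ Z0 1, mS s := ⟨_, rfl⟩
  have hK10 : 0 ≤ K1 := by rw [hK1]; exact Finset.sum_nonneg fun s _ => mS_nonneg s
  have hKp : 0 ≤ ∏ i, K i := Finset.prod_nonneg fun i _ => hK0 i
  obtain ⟨T5, hT5⟩ : ∃ T5 : ℝ, T5 = 8 * (K1 * (P + ∏ i, K i)) / ε := ⟨_, rfl⟩
  refine ⟨max (max (max T1 T2) (max T3 T4)) T5, (hT1.trans (le_max_left _ _)).trans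
    ((le_max_left _ _).trans (le_max_left _ _)), fun T hT w hw0 hw1 => ?_⟩
  have q12 : max T1 T2 ≤ T := ((le_max_left _ _).trans (le_max_left _ _)).trans hT
  have q34 : max T3 T4 ≤ T := ((le_max_right _ _).trans (le_max_left _ _)).trans hT
  have q5 : T5 ≤ T := (le_max_right _ _).trans hT
  have hT10 : 10 ≤ T := hT1.trans ((le_max_left _ _).trans q12)
  have hT0 : 0 < T := by linarith
  have hd := dl_pos hT10
  have hd1 : dl T ≤ 1 := (g4 T ((le_max_right _ _).trans q34)).1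
  have hηd : η * dl T < 1 := by nlinarith
  obtain ⟨X, hX⟩ : ∃ X : ℝ, X = T / dl T := ⟨_, rfl⟩
  have hXT : T ≤ X := by
    rw [hX, le_div_iff₀ hd]
    nlinarith
  have hX0 : 0 < X := by linarith
  rw [← hX]
  have hcount : ∑ s ∈ Z0 T, mS s ≤ 2 * X := by
    refine (g3 T ((le_max_left _ _).trans q34)).trans (le_of_eq ?_)
    rw [hX]
    unfold dl
    have hL : Real.log T ≠ 0 := (Real.log_pos (by linarith)).ne'
    have hpi := Real.pi_ne_zero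
    field_simp
    ring
  have hKX : K1 * (P + ∏ i, K i) ≤ ε / 8 * X := by
    rw [hT5, div_le_iff₀ hε] at q5
    have := mul_le_mul_of_nonneg_left hXT hε.le
    linarith
  -- the function
  have hFn : Nice (FW T (η * dl T) w) := FW_nice _ _ _
  have hF0 := fun t => FW_nonneg (h := η * dl T) hw0 t
  have hFP : ∀ t, FW T (η * dl T) w t ≤ PT (fun _ : Fin 1 => η) (fun _ => 0) T t := by
    intro t
    rw [PT_one]
    exact FW_le hw1 t
  have r1 := g1 T ((le_max_left _ _).trans q12) _ hFn hF0 hFP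
  have r2 := g2 T ((le_max_right _ _).trans q12) _ hFn hF0 hFP
  have hFi : ∫ t, ii T t * FW T (η * dl T) w t = η * dl T * ∑ s ∈ HZ T, w s := by
    have e : (fun t => ii T t * FW T (η * dl T) w t) = fun t => FW T (η * dl T) w t := by
      funext t
      exact FW_ii hηd w t
    rw [e]
    exact FW_int (by positivity) w
  rw [hFi] at r1 r2
  have u1 := cmp_up hη0 hT10 hηd κ b M w hw0
  have u2 := cmp_low hη0 hT10 hηd κ b M w hw0
  obtain ⟨I1, hI1⟩ : ∃ I1 : ℝ, I1 = ∫ t, ii T t * (FW T (η * dl T) w t *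
    ∏ i, AV T (2 * κ i + η) (fun m => b i m + (-κ i)) M t) := ⟨_, rfl⟩
  obtain ⟨I2, hI2⟩ : ∃ I2 : ℝ, I2 = ∫ t, ii T t * (FW T (η * dl T) w t *
    ∏ i, AV T (2 * κ i - η) (fun m => b i m + (η - κ i)) M t) := ⟨_, rfl⟩
  rw [← hI1] at r1 u1
  rw [← hI2] at r2 u2
  -- sums over low and high zeros
  have hsplit : ∀ f : ℂ → ℝ, ∑ s ∈ Z0 T, f s =
      ∑ s ∈ HZ T, f s + ∑ s ∈ (Z0 T).filter (fun s => ¬ 1 < s.im), f s := by
    intro f
    unfold HZ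
    exact (Finset.sum_filter_add_sum_filter_not _ _ _).symm
  have hlowsub : (Z0 T).filter (fun s => ¬ 1 < s.im) ⊆ Z0 1 := by
    intro s hs
    obtain ⟨v1, v2⟩ := Finset.mem_filter.1 hs
    obtain ⟨a1, a2, a3, a4, a5⟩ := mem_Z0.1 v1
    exact mem_Z0.2 ⟨a1, a2, a3, not_lt.1 v2, a5⟩
  have hlow1 : ∑ s ∈ (Z0 T).filter (fun s => ¬ 1 < s.im), w s ≤ K1 := by
    refine (Finset.sum_le_sum fun s hs => hw1 s (Finset.mem_filter.1 hs).1).trans ?_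
    rw [hK1]
    exact Finset.sum_le_sum_of_subset_of_nonneg hlowsub fun s _ _ => mS_nonneg s
  have hlow0 : 0 ≤ ∑ s ∈ (Z0 T).filter (fun s => ¬ 1 < s.im), w s :=
    Finset.sum_nonneg fun s hs => hw0 s (Finset.mem_filter.1 hs).1
  have hCA0 : ∀ x : ℝ, 0 ≤ ∏ i, CA T (κ i) (b i) M x := fun x =>
    Finset.prod_nonneg fun i _ => CA_nonneg _ _ _ _ _
  have hlow2 : ∑ s ∈ (Z0 T).filter (fun s => ¬ 1 < s.im),
      w s * ∏ i, CA T (κ i) (b i) M s.im ≤ K1 * ∏ i, K i := by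
    have v1 : ∀ s ∈ (Z0 T).filter (fun s => ¬ 1 < s.im),
        w s * ∏ i, CA T (κ i) (b i) M s.im ≤ w s * ∏ i, K i := by
      intro s hs
      obtain ⟨v2, v3⟩ := Finset.mem_filter.1 hs
      refine mul_le_mul_of_nonneg_left ?_ (hw0 s v2)
      exact Finset.prod_le_prod (fun i _ => CA_nonneg _ _ _ _ _)
        fun i _ => hK i T hT10 hd1 s.im (not_lt.1 v3)
    refine (Finset.sum_le_sum v1).trans ?_
    rw [← Finset.sum_mul]
    exact mul_le_mul_of_nonneg_right hlow1 hKp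
  have hlow3 : 0 ≤ ∑ s ∈ (Z0 T).filter (fun s => ¬ 1 < s.im),
      w s * ∏ i, CA T (κ i) (b i) M s.im :=
    Finset.sum_nonneg fun s hs => mul_nonneg (hw0 s (Finset.mem_filter.1 hs).1) (hCA0 _)
  have hHle : ∑ s ∈ HZ T, w s ≤ 2 * X := by
    have v1 := hsplit w
    have v2 : ∑ s ∈ Z0 T, w s ≤ ∑ s ∈ Z0 T, mS s := Finset.sum_le_sum fun s hs => hw1 s hs
    linarith
  have hH0 : 0 ≤ ∑ s ∈ HZ T, w s :=
    Finset.sum_nonneg fun s hs => hw0 s (Finset.mem_filter.1 hs).1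
  rw [hsplit w, hsplit fun s => w s * ∏ i, CA T (κ i) (b i) M s.im]
  obtain ⟨A, hA⟩ : ∃ A : ℝ, A = ∑ s ∈ HZ T, w s * ∏ i, CA T (κ i) (b i) M s.im := ⟨_, rfl⟩
  obtain ⟨B, hB⟩ : ∃ B : ℝ, B = ∑ s ∈ (Z0 T).filter (fun s => ¬ 1 < s.im),
    w s * ∏ i, CA T (κ i) (b i) M s.im := ⟨_, rfl⟩
  obtain ⟨W, hW⟩ : ∃ W : ℝ, W = ∑ s ∈ HZ T, w s := ⟨_, rfl⟩
  obtain ⟨W', hW'⟩ : ∃ W' : ℝ, W' = ∑ s ∈ (Z0 T).filter (fun s => ¬ 1 < s.im), w s := ⟨_, rfl⟩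
  rw [← hA] at u1 u2 ⊢
  rw [← hB] at hlow2 hlow3 ⊢
  rw [← hW] at r1 r2 hHle hH0 ⊢
  rw [← hW'] at hlow1 hlow0 ⊢
  obtain ⟨P1, hP1⟩ : ∃ P1 : ℝ, P1 = ∏ i, (2 * κ i + η) := ⟨_, rfl⟩
  obtain ⟨P2, hP2⟩ : ∃ P2 : ℝ, P2 = ∏ i, (2 * κ i - η) := ⟨_, rfl⟩
  rw [← hP1] at r1 hup
  rw [← hP2] at r2 hlow
  rw [abs_le] at r1 r2
  have hηd0 : 0 < η * dl T := by positivity
  have eT : ε1 * T = η * dl T * (ε / 4 * X) := by
    rw [hε1, hX]
    field_simp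
  have w1 : A ≤ P1 * W + ε / 4 * X := by
    have v1 : η * dl T * A ≤ η * dl T * (P1 * W + ε / 4 * X) := by
      have : η * dl T * (P1 * W + ε / 4 * X) = P1 * (η * dl T * W) + ε1 * T := by
        rw [eT]
        ring
      rw [this]
      linarith [r1.2]
    exact le_of_mul_le_mul_left v1 hηd0
  have w2 : P2 * W - ε / 4 * X ≤ A := by
    have v1 : η * dl T * (P2 * W - ε / 4 * X) ≤ η * dl T * A := by
      have : η * dl T * (P2 * W - ε / 4 * X) = P2 * (η * dl T * W) - ε1 * T := by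
        rw [eT]
        ring
      rw [this]
      linarith [r2.1]
    exact le_of_mul_le_mul_left v1 hηd0
  have w3 : P1 * W ≤ P * W + ε / 4 * X := by
    have v1 := mul_le_mul_of_nonneg_right hup hH0
    have v2 := mul_le_mul_of_nonneg_left hHle (show 0 ≤ ε / 8 by positivity)
    linarith
  have w4 : P * W - ε / 4 * X ≤ P2 * W := by
    have v1 := mul_le_mul_of_nonneg_right hlow hH0
    have v2 := mul_le_mul_of_nonneg_left hHle (show 0 ≤ ε / 8 by positivity)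
    linarith
  have w5 : 0 ≤ P * W' := mul_nonneg hP0 hlow0
  have w6 : P * W' ≤ P * K1 := mul_le_mul_of_nonneg_left hlow1 hP0
  have w7 : 0 ≤ K1 * ∏ i, K i := mul_nonneg hK10 hKp
  have w8 : 0 ≤ P * K1 := mul_nonneg hP0 hK10
  have w9 : K1 * (P + ∏ i, K i) = P * K1 + K1 * ∏ i, K i := by ring
  rw [w9] at hKX
  have w10 : 0 < ε * X := by positivity
  have w11 : P * (W + W') = P * W + P * W' := by ring
  rw [abs_le, w11]
  constructor <;> linarith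

end Pool.Agent.V1161.CM
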