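import Pool.Agent.V1161.CM.Pairs
import Pool.Agent.V1161.CM.Ker

set_option autoImplicit false

/-!
# The counts of zeros minus their mean
-/

namespace Pool.Agent.V1161.CM

open MeasureTheory Filter Topology
open Pool.Agent.TH850.UV (NS mS mS_nonneg NS_nonneg NS_mono NS_le)
open Pool.Agent.V11270.KC (Z0 mem_Z0 Z0_mono Nice count_all)

/-- the unit of length -/
noncomputable def dl (T : ℝ) : ℝ := 2 * Real.pi / Real.log T

lemma NS_nice (S : Finset ℂ) (h : ℝ) : Nice (NS S h) := by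
  have e : NS S h = fun t => ∑ s ∈ S, (Set.Ico (s.im - h) s.im).indicator (fun _ => mS s) t :=
    funext fun t => NS_ind S h t
  rw [e]
  refine Nice.sum S _ fun s _ => ⟨measurable_const.indicator measurableSet_Ico,
    ⟨|mS s|, fun x => ?_⟩, s.im - h, s.im, fun x hx => ?_⟩
  · by_cases hx : x ∈ Set.Ico (s.im - h) s.im
    · rw [Set.indicator_of_mem hx]
    · rw [Set.indicator_of_notMem hx, abs_zero]
      exact abs_nonneg _
  · rw [Set.indicator_of_notMem]
    intro hc
    exact hx ⟨hc.1, hc.2.le⟩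

lemma NS_add (S : Finset ℂ) {h h' : ℝ} (h0 : 0 ≤ h) (h0' : 0 ≤ h') (t : ℝ) :
    NS S (h + h') t = NS S h t + NS S h' (t + h) := by
  unfold NS
  rw [← Finset.sum_add_distrib]
  refine Finset.sum_congr rfl fun s _ => ?_
  rw [← mul_add]
  congr 1
  by_cases h1 : t < s.im ∧ s.im ≤ t + h
  · rw [if_pos ⟨h1.1, by linarith [h1.2]⟩, if_pos h1, if_neg (fun hc => by linarith [hc.1, h1.2]),
      add_zero]
  · rw [if_neg h1, zero_add]
    refine if_congr ?_ rfl rfl
    constructor
    · rintro ⟨h2, h3⟩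
      refine ⟨?_, by linarith⟩
      by_contra hc
      exact h1 ⟨h2, not_lt.1 hc⟩
    · rintro ⟨h2, h3⟩
      exact ⟨by linarith, by linarith⟩

/-- the counts are a sum over small windows -/
lemma NS_change (S : Finset ℂ) {h u : ℝ} (h0 : 0 ≤ h) (hu : 0 ≤ u) (t : ℝ) :
    NS S h (t + u) - NS S h t = NS S u (t + h) - NS S u t := by
  have h1 := NS_add S hu h0 t
  have h2 := NS_add S h0 hu t
  rw [add_comm u h] at h1
  linarith

lemma NS_split (S : Finset ℂ) {r : ℝ} (hr : 0 ≤ r) (n : ℕ) (t : ℝ) :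
    NS S (n * r) t = ∑ i ∈ Finset.range n, NS S r (t + i * r) := by
  induction n with
  | zero =>
    rw [Finset.sum_range_zero, Nat.cast_zero, zero_mul]
    unfold NS
    refine Finset.sum_eq_zero fun s _ => ?_
    rw [if_neg (fun hc => by linarith [hc.1, hc.2]), mul_zero]
  | succ n ih =>
    rw [Finset.sum_range_succ, ← ih]
    have : ((n + 1 : ℕ) : ℝ) * r = n * r + r := by push_cast; ring
    rw [this, NS_add S (by positivity) hr]

/-- smoothing -/
lemma NS_smooth (S : Finset ℂ) {r : ℝ} (hr : 0 ≤ r) (n Q : ℕ) (t : ℝ) :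
    |(∑ q ∈ Finset.range Q, NS S (n * r) (t + r * q)) - n * NS S (Q * r) t| ≤
      n * (NS S (n * r) t + NS S (n * r) (t + Q * r)) := by
  have h1 : ∑ q ∈ Finset.range Q, NS S (n * r) (t + r * q) =
      ∑ i ∈ Finset.range n, NS S (Q * r) (t + i * r) := by
    simp_rw [NS_split S hr]
    rw [Finset.sum_comm]
    refine Finset.sum_congr rfl fun i _ => Finset.sum_congr rfl fun q _ => ?_
    congr 1
    ring
  have h2 : (n : ℝ) * NS S (Q * r) t = ∑ _i ∈ Finset.range n, NS S (Q * r) t := by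
    rw [Finset.sum_const, Finset.card_range, nsmul_eq_mul]
  have h3 : (n : ℝ) * (NS S (n * r) t + NS S (n * r) (t + Q * r)) =
      ∑ _i ∈ Finset.range n, (NS S (n * r) t + NS S (n * r) (t + Q * r)) := by
    rw [Finset.sum_const, Finset.card_range, nsmul_eq_mul]
  rw [h1, h2, h3, ← Finset.sum_sub_distrib]
  refine (Finset.abs_sum_le_sum_abs _ _).trans (Finset.sum_le_sum fun i hi => ?_)
  rw [NS_change S (by positivity) (by positivity)]
  have hi' : (i : ℝ) * r ≤ n * r := by
    have : (i : ℝ) ≤ n := by exact_mod_cast (Finset.mem_range.1 hi).le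
    exact mul_le_mul_of_nonneg_right this hr
  have h4 := NS_mono S hi' t
  have h5 := NS_mono S hi' (t + Q * r)
  have h6 := NS_nonneg S (i * r) t
  have h7 := NS_nonneg S (i * r) (t + Q * r)
  rw [abs_le]
  constructor <;> linarith

/-- small windows -/
lemma small_win (S : Finset ℂ) {h κ : ℝ} (hκ : 0 ≤ κ) (hκ1 : κ ≤ 1) :
    ∫ t, NS S (κ * h) t ^ 2 ≤ κ * ∫ t, NS S h t ^ 2 := by
  rw [NS_sq_integral, NS_sq_integral, Finset.mul_sum]
  refine Finset.sum_le_sum fun s _ => ?_
  rw [Finset.mul_sum]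
  refine Finset.sum_le_sum fun s' _ => ?_
  have h1 : max (κ * h - |s.im - s'.im|) 0 ≤ κ * max (h - |s.im - s'.im|) 0 := by
    rw [mul_max_of_nonneg _ _ hκ, mul_zero]
    refine max_le_max ?_ le_rfl
    have := abs_nonneg (s.im - s'.im)
    nlinarith
  have h2 := mul_le_mul_of_nonneg_left h1 (mul_nonneg (mS_nonneg s) (mS_nonneg s'))
  linarith

/-- the indicator function of `(0, T]` -/
noncomputable def ii (T t : ℝ) : ℝ := (Set.Ioc 0 T).indicator (fun _ => (1 : ℝ)) t

lemma ii_nice (T : ℝ) : Nice (ii T) := by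
  unfold ii
  refine ⟨measurable_const.indicator measurableSet_Ioc, ⟨1, fun x => ?_⟩, 0, T, fun x hx => ?_⟩
  · by_cases hx : x ∈ Set.Ioc 0 T
    · rw [Set.indicator_of_mem hx, abs_one]
    · rw [Set.indicator_of_notMem hx, abs_zero]
      norm_num
  · rw [Set.indicator_of_notMem]
    intro hc
    exact hx ⟨hc.1.le, hc.2⟩

/-- the edges -/
noncomputable def edge (T u t : ℝ) : ℝ :=
  (Set.Icc (-u) 0).indicator (fun _ => (1 : ℝ)) t +
    (Set.Icc (T - u) T).indicator (fun _ => (1 : ℝ)) t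

lemma Icc_nice (a b : ℝ) : Nice ((Set.Icc a b).indicator fun _ => (1 : ℝ)) := by
  refine ⟨measurable_const.indicator measurableSet_Icc, ⟨1, fun x => ?_⟩, a, b, fun x hx => ?_⟩
  · by_cases hx : x ∈ Set.Icc a b
    · rw [Set.indicator_of_mem hx, abs_one]
    · rw [Set.indicator_of_notMem hx, abs_zero]
      norm_num
  · rw [Set.indicator_of_notMem hx]

lemma edge_nice (T u : ℝ) : Nice (edge T u) := (Icc_nice _ _).add (Icc_nice _ _)

lemma edge_nonneg (T u t : ℝ) : 0 ≤ edge T u t := by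
  unfold edge
  refine add_nonneg ?_ ?_ <;>
  · refine Set.indicator_nonneg ?_ _
    intro _ _
    norm_num

lemma ii_edge (T : ℝ) {u v : ℝ} (h0 : 0 ≤ v) (h1 : v ≤ u) (t : ℝ) :
    |ii T (t + v) - ii T t| ≤ edge T u t := by
  have h2 := edge_nonneg T u t
  unfold ii
  by_cases g1 : t ∈ Set.Ioc 0 T
  · by_cases g2 : t + v ∈ Set.Ioc 0 T
    · rw [Set.indicator_of_mem g1, Set.indicator_of_mem g2, sub_self, abs_zero]
      exact h2
    · rw [Set.indicator_of_mem g1, Set.indicator_of_notMem g2, zero_sub, abs_neg, abs_one]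
      have g3 : t ∈ Set.Icc (T - u) T := by
        refine ⟨?_, g1.2⟩
        by_contra hc
        push Not at hc
        exact g2 ⟨by linarith [g1.1], by linarith⟩
      unfold edge
      rw [Set.indicator_of_mem g3]
      have : 0 ≤ (Set.Icc (-u) 0).indicator (fun _ => (1 : ℝ)) t :=
        Set.indicator_nonneg (fun _ _ => zero_le_one) _
      linarith
  · by_cases g2 : t + v ∈ Set.Ioc 0 T
    · rw [Set.indicator_of_notMem g1, Set.indicator_of_mem g2, sub_zero, abs_one]
      have g3 : t ∈ Set.Icc (-u) 0 := by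
        refine ⟨by linarith [g2.1], ?_⟩
        by_contra hc
        push Not at hc
        exact g1 ⟨hc, by linarith [g2.2]⟩
      unfold edge
      rw [Set.indicator_of_mem g3]
      have : 0 ≤ (Set.Icc (T - u) T).indicator (fun _ => (1 : ℝ)) t :=
        Set.indicator_nonneg (fun _ _ => zero_le_one) _
      linarith
    · rw [Set.indicator_of_notMem g1, Set.indicator_of_notMem g2, sub_self, abs_zero]
      exact h2

lemma edge_sq (T : ℝ) {u : ℝ} (hu : 0 ≤ u) : ∫ t, edge T u t ^ 2 ≤ 4 * u := by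
  have h1 : ∀ a b t : ℝ, (Set.Icc a b).indicator (fun _ => (1 : ℝ)) t ^ 2 =
      (Set.Icc a b).indicator (fun _ => (1 : ℝ)) t := by
    intro a b t
    by_cases hx : t ∈ Set.Icc a b
    · rw [Set.indicator_of_mem hx, one_pow]
    · rw [Set.indicator_of_notMem hx]
      norm_num
  have i1 := (Icc_nice (-u) 0).integrable
  have i2 := (Icc_nice (T - u) T).integrable
  have h2 : ∀ t, edge T u t ^ 2 ≤ 2 * (Set.Icc (-u) 0).indicator (fun _ => (1 : ℝ)) t +
      2 * (Set.Icc (T - u) T).indicator (fun _ => (1 : ℝ)) t := by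
    intro t
    have h3 := h1 (-u) 0 t
    have h4 := h1 (T - u) T t
    unfold edge
    nlinarith [sq_nonneg ((Set.Icc (-u) 0).indicator (fun _ => (1 : ℝ)) t -
      (Set.Icc (T - u) T).indicator (fun _ => (1 : ℝ)) t)]
  have h3 := integral_mono ((edge_nice T u).pow (by norm_num : 1 ≤ 2)).integrable
    ((i1.const_mul 2).add (i2.const_mul 2)) h2
  refine h3.trans (le_of_eq ?_)
  have h4 : ∫ t, (2 * (Set.Icc (-u) 0).indicator (fun _ => (1 : ℝ)) t +
      2 * (Set.Icc (T - u) T).indicator (fun _ => (1 : ℝ)) t) = 4 * u := by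
    rw [integral_add (i1.const_mul 2) (i2.const_mul 2), integral_const_mul, integral_const_mul,
      integral_indicator_const _ measurableSet_Icc, integral_indicator_const _ measurableSet_Icc,
      Real.volume_real_Icc, Real.volume_real_Icc, max_eq_left (by linarith),
      max_eq_left (by linarith)]
    simp only [smul_eq_mul]
    ring
  exact h4

lemma ii_sq {T : ℝ} (hT : 0 ≤ T) : ∫ t, ii T t ^ 2 = T := by
  have h1 : ∀ t, ii T t ^ 2 = (Set.Ioc 0 T).indicator (fun _ => (1 : ℝ)) t := by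
    intro t
    unfold ii
    by_cases hx : t ∈ Set.Ioc 0 T
    · rw [Set.indicator_of_mem hx, one_pow]
    · rw [Set.indicator_of_notMem hx]
      norm_num
  simp_rw [h1]
  rw [integral_indicator_const _ measurableSet_Ioc, Real.volume_real_Ioc,
    max_eq_left (by linarith)]
  simp

/-- the number of zeros times the unit of length -/
lemma dl_count {ε : ℝ} (hε : 0 < ε) : ∃ T0 : ℝ, 10 ≤ T0 ∧ ∀ T : ℝ, T0 ≤ T →
    |dl T * (∑ s ∈ Z0 T, mS s) - T| ≤ ε * T := by
  obtain ⟨T1, hT1, h1⟩ := count_upper ε hε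
  obtain ⟨T2, hT2, h2⟩ := count_all ε hε
  refine ⟨max T1 T2, hT1.trans (le_max_left _ _), fun T hT => ?_⟩
  have hTT1 : T1 ≤ T := (le_max_left _ _).trans hT
  have g1 := h1 T hTT1
  have g2 : (1 - ε) * (T * Real.log T / (2 * Real.pi)) ≤ ∑ s ∈ Z0 T, mS s :=
    h2 T ((le_max_right _ _).trans hT)
  have hT10 : 10 ≤ T := hT1.trans hTT1
  have hL : 0 < Real.log T := Real.log_pos (by linarith)
  have hpi := Real.pi_pos
  have hd : 0 < dl T := by unfold dl; positivity
  have e1 : dl T * (T * Real.log T / (2 * Real.pi)) = T := by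
    unfold dl
    field_simp
  have k1 := mul_le_mul_of_nonneg_left g1 hd.le
  have k2 := mul_le_mul_of_nonneg_left g2 hd.le
  have e2 : dl T * ((1 + ε) * (T * Real.log T / (2 * Real.pi))) = (1 + ε) * T := by
    rw [mul_left_comm, e1]
  have e3 : dl T * ((1 - ε) * (T * Real.log T / (2 * Real.pi))) = (1 - ε) * T := by
    rw [mul_left_comm, e1]
  rw [e2] at k1
  rw [e3] at k2
  rw [abs_le]
  constructor <;> linarith

/-- the counts over `(0, T]` -/
lemma int_in (T : ℝ) {h : ℝ} (hT : 1 ≤ T) (h0 : 0 ≤ h) (h1 : h ≤ 1) :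
    h * (∑ s ∈ Z0 T, mS s) - ∑ s ∈ Z0 1, mS s ≤ ∫ t, NS (Z0 T) h t * ii T t ∧
    ∫ t, NS (Z0 T) h t * ii T t ≤ h * (∑ s ∈ Z0 T, mS s) := by
  obtain ⟨K, hK⟩ : ∃ K : ℝ, K = ∑ s ∈ Z0 1, mS s := ⟨_, rfl⟩
  rw [← NS_integral _ h0, ← hK]
  have i1 := (NS_nice (Z0 T) h).integrable
  have i2 := ((NS_nice (Z0 T) h).mul (ii_nice T)).integrable
  have i3 := (Icc_nice (-1) 0).integrable
  constructor
  · have h2 : ∀ t, NS (Z0 T) h t ≤ NS (Z0 T) h t * ii T t +
        K * (Set.Icc (-1) 0).indicator (fun _ => (1 : ℝ)) t := by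
      intro t
      have hK0 : 0 ≤ K := by rw [hK]; exact Finset.sum_nonneg fun s _ => mS_nonneg s
      have hn := NS_nonneg (Z0 T) h t
      by_cases g1 : t ∈ Set.Ioc 0 T
      · have : ii T t = 1 := by unfold ii; rw [Set.indicator_of_mem g1]
        rw [this, mul_one]
        have : 0 ≤ K * (Set.Icc (-1) 0).indicator (fun _ => (1 : ℝ)) t :=
          mul_nonneg hK0 (Set.indicator_nonneg (fun _ _ => zero_le_one) _)
        linarith
      · have : ii T t = 0 := by unfold ii; rw [Set.indicator_of_notMem g1]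
        rw [this, mul_zero, zero_add]
        by_cases g2 : t ∈ Set.Icc (-1) 0
        · rw [Set.indicator_of_mem g2, mul_one]
          have h3 : NS (Z0 1) h t = NS (Z0 T) h t := by
            refine NS_congr (Z0_mono hT) fun s hs hs' hc => ?_
            rw [mem_Z0] at hs
            exact hs' (mem_Z0.2 ⟨hs.1, hs.2.1, hs.2.2.1, by linarith [hc.2, g2.2], hs.2.2.2.2⟩)
          rw [← h3, hK]
          exact NS_le _ _ _
        · rw [Set.indicator_of_notMem g2, mul_zero]
          have : NS (Z0 T) h t = 0 := by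
            unfold NS
            refine Finset.sum_eq_zero fun s hs => ?_
            rw [mem_Z0] at hs
            rw [if_neg, mul_zero]
            rintro ⟨h3, h4⟩
            rcases le_or_gt t 0 with g3 | g3
            · exact g2 ⟨by linarith [hs.2.2.1], g3⟩
            · exact g1 ⟨g3, by linarith [hs.2.2.2.1]⟩
          rw [this]
    have h3 := integral_mono i1 (i2.add (i3.const_mul K)) h2
    have h4 : ∫ t, (NS (Z0 T) h t * ii T t + K * (Set.Icc (-1) 0).indicator (fun _ => (1 : ℝ)) t) =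
        (∫ t, NS (Z0 T) h t * ii T t) + K := by
      rw [integral_add i2 (i3.const_mul K), integral_const_mul,
        integral_indicator_const _ measurableSet_Icc, Real.volume_real_Icc]
      norm_num
    simp only [Pi.add_apply] at h3
    rw [h4] at h3
    linarith
  · refine integral_mono i2 i1 fun t => ?_
    have hn := NS_nonneg (Z0 T) h t
    show NS (Z0 T) h t * ii T t ≤ NS (Z0 T) h t
    unfold ii
    by_cases g1 : t ∈ Set.Ioc 0 T
    · rw [Set.indicator_of_mem g1, mul_one]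
    · rw [Set.indicator_of_notMem g1, mul_zero]
      exact hn

/-- moments -/
lemma moments : ∃ C : ℝ, 1 ≤ C ∧ ∀ Y : ℝ, 1 ≤ Y → ∃ T0 : ℝ, 10 ≤ T0 ∧ ∀ T : ℝ, T0 ≤ T →
    Y * dl T ≤ 1 ∧ (∫ t, NS (Z0 T) (Y * dl T) t ^ 2) ≤ (C + 2 * Y ^ 2) * T ∧
    (∫ t, (NS (Z0 T) (Y * dl T) t - Y * ii T t) ^ 2) ≤ (C + Y) * T := by
  obtain ⟨C, T1, hC, hT1, hsec⟩ := second
  refine ⟨C + 2, by linarith, fun Y hY => ?_⟩
  have hY0 : 0 < Y := by linarith
  obtain ⟨K, hK⟩ : ∃ K : ℝ, K = ∑ s ∈ Z0 1, mS s := ⟨_, rfl⟩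
  obtain ⟨T2, hT2, hcnt⟩ := dl_count (ε := 1 / (2 * Y ^ 2)) (by positivity)
  have hpi := Real.pi_pos
  have hpi3 := Real.pi_gt_three
  obtain ⟨T3, hT3⟩ := eventually_atTop.1
    (Real.tendsto_log_atTop.eventually_ge_atTop (Y ^ 2 + 2 * Real.pi * Y))
  refine ⟨max (max T1 T2) (max T3 (2 * Y * K)), (hT1.trans (le_max_left _ _)).trans
    (le_max_left _ _), fun T hT => ?_⟩
  have g1 : T1 ≤ T := ((le_max_left _ _).trans (le_max_left _ _)).trans hT
  have g2 := hcnt T (((le_max_right _ _).trans (le_max_left _ _)).trans hT)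
  have g3 := hT3 T (((le_max_left _ _).trans (le_max_right _ _)).trans hT)
  have g4 : 2 * Y * K ≤ T := ((le_max_right _ _).trans (le_max_right _ _)).trans hT
  have hT10 : 10 ≤ T := hT1.trans g1
  have hL : 0 < Real.log T := Real.log_pos (by linarith)
  have e1 : Y * dl T = 2 * Real.pi * Y / Real.log T := by unfold dl; ring
  have hd0 : 0 < Y * dl T := by rw [e1]; positivity
  have hd1 : Y * dl T ≤ 1 := by
    rw [e1, div_le_one hL]
    nlinarith
  have h1 := hsec T Y g1 hY (by nlinarith)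
  rw [← e1] at h1
  have h2 := (abs_le.1 h1).2
  have hlog0 : 0 ≤ Real.log (1 + Y) := Real.log_nonneg (by linarith)
  have hlog1 : Real.log (1 + Y) ≤ Y := by
    have := Real.log_le_sub_one_of_pos (show 0 < 1 + Y by linarith)
    linarith
  have hMM : MM Y ≤ Y ^ 2 + Y := by
    unfold MM
    have : Real.log (1 + Y) / Real.pi ^ 2 ≤ Real.log (1 + Y) := div_le_self hlog0 (by nlinarith)
    linarith
  have hMM' : MM Y * T ≤ (Y ^ 2 + Y) * T := mul_le_mul_of_nonneg_right hMM (by linarith)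
  refine ⟨hd1, ?_, ?_⟩
  · have : Y ≤ Y ^ 2 := by nlinarith
    nlinarith
  · have i1 := ((NS_nice (Z0 T) (Y * dl T)).pow (by norm_num : 1 ≤ 2)).integrable
    have i2 := ((NS_nice (Z0 T) (Y * dl T)).mul (ii_nice T)).integrable
    have i3 := ((ii_nice T).pow (by norm_num : 1 ≤ 2)).integrable
    have e2 : ∀ t, (NS (Z0 T) (Y * dl T) t - Y * ii T t) ^ 2 =
        NS (Z0 T) (Y * dl T) t ^ 2 - 2 * Y * (NS (Z0 T) (Y * dl T) t * ii T t) +
          Y ^ 2 * ii T t ^ 2 := fun t => by ring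
    simp_rw [e2]
    have i12 : Integrable fun t => NS (Z0 T) (Y * dl T) t ^ 2 -
        2 * Y * (NS (Z0 T) (Y * dl T) t * ii T t) := i1.sub (i2.const_mul _)
    rw [integral_add i12 (i3.const_mul _), integral_sub i1 (i2.const_mul _), integral_const_mul,
      integral_const_mul, ii_sq (by linarith)]
    have h3 := (int_in T (h := Y * dl T) (by linarith) hd0.le hd1).1
    rw [← hK] at h3
    have h4 := (abs_le.1 g2).1
    have h5 : Y * dl T * (∑ s ∈ Z0 T, mS s) = Y * (dl T * ∑ s ∈ Z0 T, mS s) := by ring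
    rw [h5] at h3
    have h6 : Y * T - 1 / (2 * Y) * T ≤ Y * (dl T * ∑ s ∈ Z0 T, mS s) := by
      have h7 := mul_le_mul_of_nonneg_left h4 hY0.le
      have e3 : Y * -(1 / (2 * Y ^ 2) * T) = -(1 / (2 * Y) * T) := by
        field_simp
      rw [e3] at h7
      linarith
    obtain ⟨I, hI⟩ : ∃ I : ℝ, I = ∫ t, NS (Z0 T) (Y * dl T) t * ii T t := ⟨_, rfl⟩
    rw [← hI] at h3 ⊢
    have h8 : Y * T - 1 / (2 * Y) * T - K ≤ I := by linarith
    have h9 := mul_le_mul_of_nonneg_left h8 (show 0 ≤ 2 * Y by positivity)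
    have e4 : 2 * Y * (Y * T - 1 / (2 * Y) * T - K) = 2 * Y ^ 2 * T - T - 2 * Y * K := by
      field_simp
    rw [e4] at h9
    linarith

end Pool.Agent.V1161.CM
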